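import Mathlib
import Pool.Agent.helper972_pl.W2
set_option autoImplicit false

/-! The push forward of Lebesgue measure on the cube under the differences of the paraboloid, in all
dimensions. -/

namespace Pool.Agent.H972PB

open MeasureTheory Complex Set Filter Topology
open scoped ENNReal RealInnerProductSpace ComplexConjugate
open Pool.Agent.R412.RT (E Phi Phi_cast Phi_last split_lint Nn)
open Pool.Agent.H972PL (affine_lint)

variable {n : ℕ}

/-- a point of `ℝ^(n+1)` from its horizontal part and its height -/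
noncomputable def Sn (h : E n) (μ : ℝ) : E (n + 1) := WithLp.toLp 2 (Fin.snoc (fun i => h i) μ)

theorem Sn_cast (h : E n) (μ : ℝ) (i : Fin n) : Sn h μ i.castSucc = h i := by simp [Sn]

theorem Sn_last (h : E n) (μ : ℝ) : Sn h μ (Fin.last n) = μ :=
  Fin.snoc_last (α := fun _ => ℝ) μ (fun i => h i)

theorem Phi_sub (h y : E n) : Phi (h + y) - Phi y =
    Sn h ((∑ i, h i ^ 2) + ∑ i, (2 * h i) * y i) := by
  ext i
  refine Fin.lastCases ?_ (fun j => ?_) i
  · show Phi (h + y) (Fin.last n) - Phi y (Fin.last n) = _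
    rw [Phi_last, Phi_last, Sn_last, ← Finset.sum_add_distrib, ← Finset.sum_sub_distrib]
    refine Finset.sum_congr rfl fun i _ => ?_
    simp only [PiLp.add_apply]
    ring
  · show Phi (h + y) j.castSucc - Phi y j.castSucc = _
    rw [Phi_cast, Phi_cast, Sn_cast]
    simp only [PiLp.add_apply]
    ring

theorem Sn_norm_sq (h : E n) (μ : ℝ) : ‖Sn h μ‖ ^ 2 = ‖h‖ ^ 2 + μ ^ 2 := by
  rw [EuclideanSpace.norm_sq_eq, EuclideanSpace.norm_sq_eq, Fin.sum_univ_castSucc]
  simp only [Sn_cast, Sn_last, Real.norm_eq_abs, sq_abs]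

theorem Sn_meas : Measurable fun p : E n × ℝ => Sn p.1 p.2 := by
  refine (PiLp.volume_preserving_toLp (Fin (n + 1))).measurable.comp ?_
  refine measurable_pi_iff.2 fun i => ?_
  refine Fin.lastCases ?_ (fun j => ?_) i
  · simp only [Fin.snoc_last]
    exact measurable_snd
  · simp only [Fin.snoc_castSucc]
    fun_prop

theorem En_split (F : E (n + 1) → ℝ≥0∞) (hF : Measurable F) :
    ∫⁻ η, F η = ∫⁻ h : E n, ∫⁻ μ : ℝ, F (Sn h μ) := by
  have h1 : ∫⁻ η, F η = ∫⁻ y : Fin (n + 1) → ℝ, F (WithLp.toLp 2 y) :=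
    ((PiLp.volume_preserving_toLp (Fin (n + 1))).lintegral_comp hF).symm
  have hFt : Measurable fun y : Fin (n + 1) → ℝ => F (WithLp.toLp 2 y) :=
    hF.comp (PiLp.volume_preserving_toLp (Fin (n + 1))).measurable
  have h2 := split_lint (Fin.last n) (fun y => F (WithLp.toLp 2 y)) hFt
  have h3 : ∀ (a : ℝ) (t : Fin n → ℝ),
      F (WithLp.toLp 2 ((Fin.last n).insertNth a t : Fin (n + 1) → ℝ)) =
        F (Sn (WithLp.toLp 2 t) a) := by
    intro a t
    congr 1
    unfold Sn
    congr 1
    rw [Fin.insertNth_last']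
  rw [h1, h2]
  simp_rw [h3]
  have hm : Measurable (Function.uncurry fun (a : ℝ) (t : Fin n → ℝ) =>
      F (Sn (WithLp.toLp 2 t) a)) := by
    refine hF.comp (Sn_meas.comp (Measurable.prodMk ?_ measurable_fst))
    exact (PiLp.volume_preserving_toLp (Fin n)).measurable.comp measurable_snd
  rw [lintegral_lintegral_swap hm.aemeasurable]
  exact (PiLp.volume_preserving_toLp (Fin n)).lintegral_comp_emb
      (MeasurableEquiv.toLp 2 (Fin n → ℝ)).measurableEmbedding
      (fun h : E n => ∫⁻ μ : ℝ, F (Sn h μ))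

/-- the cube -/
def Q (n : ℕ) : Set (E n) := {x | ∀ i, |x i| ≤ 1}

theorem Q_meas : MeasurableSet (Q n) := by
  unfold Q
  rw [ofPred_forall]
  exact MeasurableSet.iInter fun i => measurableSet_le (by fun_prop) measurable_const

/-- the indicator function of the cube -/
noncomputable def BQ (x : E n) : ℝ≥0∞ := (Q n).indicator 1 x

theorem BQ_meas : Measurable (BQ (n := n)) := measurable_one.indicator Q_meas

theorem BQ_le (x : E n) : BQ x ≤ 1 := by
  unfold BQ
  by_cases hx : x ∈ Q n
  · rw [indicator_of_mem hx]; exact le_rfl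
  · rw [indicator_of_notMem hx]; exact zero_le_one

/-- integration over the cube of a function of a linear form -/
theorem line_int {N : ℕ} (g : ℝ → ℝ≥0∞) (hg : Measurable g) (k : ℝ) (c : Fin (N + 1) → ℝ)
    (i0 : Fin (N + 1)) (hc : c i0 ≠ 0) :
    ∫⁻ y : E (N + 1), BQ y * g (k + ∑ i, c i * y i) ≤
      2 ^ N * (ENNReal.ofReal |c i0|)⁻¹ * ∫⁻ a, g a := by
  have hm : Measurable fun y : E (N + 1) => BQ y * g (k + ∑ i, c i * y i) :=
    BQ_meas.mul (hg.comp (by fun_prop))
  have h1 : ∫⁻ y : E (N + 1), BQ y * g (k + ∑ i, c i * y i) =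
      ∫⁻ y : Fin (N + 1) → ℝ, BQ (WithLp.toLp 2 y : E (N + 1)) * g (k + ∑ i, c i * y i) :=
    ((PiLp.volume_preserving_toLp (Fin (N + 1))).lintegral_comp hm).symm
  have hmt : Measurable fun y : Fin (N + 1) → ℝ => BQ (WithLp.toLp 2 y : E (N + 1)) *
      g (k + ∑ i, c i * y i) :=
    hm.comp (PiLp.volume_preserving_toLp (Fin (N + 1))).measurable
  rw [h1, split_lint i0 _ hmt]
  set CN : Set (Fin N → ℝ) := Set.pi univ fun _ => Icc (-1 : ℝ) 1 with hCN
  have hCNm : MeasurableSet CN := MeasurableSet.univ_pi fun _ => measurableSet_Icc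
  have hCNv : volume CN = 2 ^ N := by
    rw [hCN, volume_pi_pi]
    simp only [Real.volume_Icc, Finset.prod_const, Finset.card_univ, Fintype.card_fin]
    norm_num
  have h2 : ∀ (a : ℝ) (t : Fin N → ℝ),
      BQ (WithLp.toLp 2 (i0.insertNth a t : Fin (N + 1) → ℝ) : E (N + 1)) *
        g (k + ∑ i, c i * (i0.insertNth a t : Fin (N + 1) → ℝ) i) ≤
      CN.indicator (fun t => g ((k + ∑ j, c (i0.succAbove j) * t j) + c i0 * a)) t := by
    intro a t
    have e1 : k + ∑ i, c i * (i0.insertNth a t : Fin (N + 1) → ℝ) i =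
        (k + ∑ j, c (i0.succAbove j) * t j) + c i0 * a := by
      rw [Fin.sum_univ_succAbove _ i0, Fin.insertNth_apply_same]
      simp only [Fin.insertNth_apply_succAbove]
      ring
    rw [e1]
    by_cases ht : t ∈ CN
    · rw [indicator_of_mem ht]
      calc _ ≤ 1 * g ((k + ∑ j, c (i0.succAbove j) * t j) + c i0 * a) :=
            mul_le_mul_left (BQ_le _) _
        _ = _ := one_mul _
    · rw [indicator_of_notMem ht]
      have : BQ (WithLp.toLp 2 (i0.insertNth a t : Fin (N + 1) → ℝ) : E (N + 1)) = 0 := by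
        unfold BQ
        rw [indicator_of_notMem]
        intro hq
        refine ht ?_
        rw [hCN, Set.mem_univ_pi]
        intro j
        have := hq (i0.succAbove j)
        have e2 : (WithLp.toLp 2 (i0.insertNth a t : Fin (N + 1) → ℝ) : E (N + 1))
            (i0.succAbove j) = t j := Fin.insertNth_apply_succAbove (α := fun _ => ℝ) i0 a t j
        rw [e2] at this
        exact abs_le.1 this
      rw [this, zero_mul]
  have hL : Measurable fun t : Fin N → ℝ => k + ∑ j, c (i0.succAbove j) * t j := by fun_prop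
  have hL2 : Measurable fun p : ℝ × (Fin N → ℝ) =>
      (k + ∑ j, c (i0.succAbove j) * p.2 j) + c i0 * p.1 :=
    (hL.comp measurable_snd).add (measurable_fst.const_mul _)
  calc ∫⁻ a : ℝ, ∫⁻ t : Fin N → ℝ, BQ (WithLp.toLp 2 (i0.insertNth a t : Fin (N + 1) → ℝ) :
        E (N + 1)) * g (k + ∑ i, c i * (i0.insertNth a t : Fin (N + 1) → ℝ) i)
      ≤ ∫⁻ a : ℝ, ∫⁻ t in CN, g ((k + ∑ j, c (i0.succAbove j) * t j) + c i0 * a) := by
        refine lintegral_mono fun a => ?_
        rw [← lintegral_indicator hCNm]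
        exact lintegral_mono fun t => h2 a t
    _ = ∫⁻ t in CN, ∫⁻ a : ℝ, g ((k + ∑ j, c (i0.succAbove j) * t j) + c i0 * a) :=
        lintegral_lintegral_swap (hg.comp hL2).aemeasurable
    _ = ∫⁻ t in CN, (ENNReal.ofReal |c i0|)⁻¹ * ∫⁻ a, g a := by
        refine lintegral_congr fun t => ?_
        exact affine_lint g hg _ _ hc
    _ = _ := by
        rw [setLIntegral_const, hCNv]
        ring

theorem BQ_int : ∫⁻ x : E n, BQ x = 2 ^ n := by
  have h1 : ∫⁻ y : E n, BQ y = ∫⁻ y : Fin n → ℝ, BQ (WithLp.toLp 2 y : E n) :=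
    ((PiLp.volume_preserving_toLp (Fin n)).lintegral_comp BQ_meas).symm
  have h2 : ∀ y : Fin n → ℝ, BQ (WithLp.toLp 2 y : E n) =
      (Set.pi univ fun _ : Fin n => Icc (-1 : ℝ) 1).indicator 1 y := by
    intro y
    unfold BQ
    have : (WithLp.toLp 2 y : E n) ∈ Q n ↔ y ∈ Set.pi univ fun _ : Fin n => Icc (-1 : ℝ) 1 := by
      rw [Set.mem_univ_pi]
      refine forall_congr' fun i => ?_
      rw [mem_Icc, ← abs_le]
    by_cases hy : y ∈ Set.pi univ fun _ : Fin n => Icc (-1 : ℝ) 1
    · rw [indicator_of_mem hy, indicator_of_mem (this.2 hy)]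
      rfl
    · rw [indicator_of_notMem hy, indicator_of_notMem (fun h => hy (this.1 h))]
  rw [h1]
  simp_rw [h2]
  rw [lintegral_indicator_one (MeasurableSet.univ_pi fun _ => measurableSet_Icc), volume_pi_pi]
  simp only [Real.volume_Icc, Finset.prod_const, Finset.card_univ, Fintype.card_fin]
  norm_num

end Pool.Agent.H972PB
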