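import Mathlib
import Pool.Agent.helper972_pb.D
set_option autoImplicit false

/-! The density estimate in all dimensions. -/

namespace Pool.Agent.H972PB

open MeasureTheory Complex Set Filter Topology
open scoped ENNReal RealInnerProductSpace ComplexConjugate
open Pool.Agent.R412.RT (E Phi Phi_cast Phi_last split_lint Nn)

variable {N : ℕ}

/-- the largest coordinate -/
theorem exists_max (h : Fin (N + 1) → ℝ) : ∃ i0, ∀ i, |h i| ≤ |h i0| :=
  Finite.exists_max fun i => |h i|

/-- the radius -/
noncomputable def Rn (N : ℕ) : ℝ := 6 * ((N : ℝ) + 1)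

/-- the majorant -/
noncomputable def Gn (N : ℕ) (η : E (N + 2)) : ℝ≥0∞ :=
  (Metric.closedBall (0 : E (N + 2)) (Rn N)).indicator
    (fun η => ENNReal.ofReal (2 ^ N * (3 * ((N : ℝ) + 1)) / ‖η‖)) η

theorem Gn_meas : Measurable (Gn N) := by
  unfold Gn
  exact Measurable.indicator (by fun_prop) Metric.isClosed_closedBall.measurableSet

/-- the density estimate for a fixed difference -/
theorem fix_est (H : E (N + 2) → ℝ≥0∞) (hH : Measurable H) (h : E (N + 1)) (hh : h ≠ 0) :
    ∫⁻ y, BQ (h + y) * BQ y * H (Phi (h + y) - Phi y) ≤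
      ∫⁻ μ : ℝ, Gn N (Sn h μ) * H (Sn h μ) := by
  obtain ⟨i0, hi0⟩ := exists_max fun i => h i
  set m : ℝ := |h i0| with hm
  have hN : (0 : ℝ) < (N : ℝ) + 1 := by positivity
  have hm0 : 0 < m := by
    rcases lt_or_ge 0 m with h1 | h1
    · exact h1
    · exfalso
      apply hh
      ext i
      exact abs_nonpos_iff.1 ((hi0 i).trans h1)
  have hn : ‖h‖ ^ 2 = ∑ i, h i ^ 2 := by
    rw [EuclideanSpace.norm_sq_eq]
    simp only [Real.norm_eq_abs, sq_abs]
  have hnm : ‖h‖ ^ 2 ≤ ((N : ℝ) + 1) * m ^ 2 := by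
    rw [hn]
    calc ∑ i, h i ^ 2 ≤ ∑ _i : Fin (N + 1), m ^ 2 := by
          refine Finset.sum_le_sum fun i _ => ?_
          rw [← sq_abs]
          exact pow_le_pow_left₀ (abs_nonneg _) (hi0 i) 2
      _ = _ := by
          rw [Finset.sum_const, Finset.card_univ, Fintype.card_fin, nsmul_eq_mul]
          push_cast
          ring
  have hSm : Measurable fun μ : ℝ => Sn h μ :=
    Sn_meas.comp (measurable_const.prodMk measurable_id)
  set S : Set ℝ := {μ | ‖Sn h μ‖ ≤ 3 * ((N : ℝ) + 1) * m ∧ m ≤ 2} with hS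
  have hSms : MeasurableSet S :=
    (measurableSet_le (f := fun μ : ℝ => ‖Sn h μ‖) (g := fun _ => 3 * ((N : ℝ) + 1) * m) hSm.norm
      measurable_const).inter (MeasurableSet.const (m ≤ 2))
  set g : ℝ → ℝ≥0∞ := S.indicator fun μ => H (Sn h μ) with hg
  have hgm : Measurable g := (hH.comp hSm).indicator hSms
  set k : ℝ := ∑ i, h i ^ 2 with hk
  have hpt : ∀ y : E (N + 1), BQ (h + y) * BQ y * H (Phi (h + y) - Phi y) ≤
      BQ y * g (k + ∑ i, (2 * h i) * y i) := by
    intro y
    by_cases hy : y ∈ Q (N + 1)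
    · by_cases hy2 : h + y ∈ Q (N + 1)
      · set μ : ℝ := k + ∑ i, (2 * h i) * y i with hμ
        have hh2 : m ≤ 2 := by
          have e1 : h i0 = (h + y) i0 - y i0 := by
            simp only [PiLp.add_apply]
            ring
          have e2 := hy2 i0
          have e3 := hy i0
          rw [hm, e1]
          exact (abs_sub _ _).trans (by linarith)
        have hμe : μ = ∑ i, h i * ((h + y) i + y i) := by
          rw [hμ, hk, ← Finset.sum_add_distrib]
          refine Finset.sum_congr rfl fun i _ => ?_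
          simp only [PiLp.add_apply]
          ring
        have hμ2 : |μ| ≤ 2 * ((N : ℝ) + 1) * m := by
          rw [hμe]
          refine (Finset.abs_sum_le_sum_abs _ _).trans ?_
          calc ∑ i, |h i * ((h + y) i + y i)| ≤ ∑ _i : Fin (N + 1), m * 2 := by
                refine Finset.sum_le_sum fun i _ => ?_
                rw [abs_mul]
                refine mul_le_mul (hi0 i) ?_ (abs_nonneg _) hm0.le
                exact (abs_add_le _ _).trans (by linarith [hy2 i, hy i])
            _ = _ := by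
                rw [Finset.sum_const, Finset.card_univ, Fintype.card_fin, nsmul_eq_mul]
                push_cast
                ring
        have hμS : μ ∈ S := by
          refine ⟨?_, hh2⟩
          refine (pow_le_pow_iff_left₀ (norm_nonneg _) (by positivity) two_ne_zero).1 ?_
          rw [Sn_norm_sq]
          have e1 : μ ^ 2 ≤ (2 * ((N : ℝ) + 1) * m) ^ 2 := by
            rw [← sq_abs]
            exact pow_le_pow_left₀ (abs_nonneg _) hμ2 2
          have e2 : ((N : ℝ) + 1) * m ^ 2 ≤ ((N : ℝ) + 1) ^ 2 * m ^ 2 := by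
            have : (1 : ℝ) ≤ (N : ℝ) + 1 := by
              have : (0 : ℝ) ≤ N := Nat.cast_nonneg N
              linarith
            nlinarith [sq_nonneg m]
          have e3 : (0 : ℝ) ≤ ((N : ℝ) + 1) ^ 2 * m ^ 2 := by positivity
          nlinarith
        rw [hg, indicator_of_mem hμS, Phi_sub]
        calc BQ (h + y) * BQ y * H (Sn h μ) ≤ 1 * BQ y * H (Sn h μ) := by
              gcongr
              exact BQ_le _
          _ = _ := by rw [one_mul]
      · have : BQ (h + y) = 0 := by unfold BQ; rw [indicator_of_notMem hy2]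
        rw [this, zero_mul, zero_mul]
        exact zero_le
    · have : BQ y = 0 := by unfold BQ; rw [indicator_of_notMem hy]
      rw [this, mul_zero, zero_mul, zero_mul]
  have hc : 2 * h i0 ≠ 0 := by
    intro h0
    have : h i0 = 0 := by linarith
    rw [hm, this, abs_zero] at hm0
    exact lt_irrefl _ hm0
  calc ∫⁻ y, BQ (h + y) * BQ y * H (Phi (h + y) - Phi y)
      ≤ ∫⁻ y : E (N + 1), BQ y * g (k + ∑ i, (2 * h i) * y i) := lintegral_mono hpt
    _ ≤ 2 ^ N * (ENNReal.ofReal |2 * h i0|)⁻¹ * ∫⁻ a, g a :=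
        line_int g hgm k (fun i => 2 * h i) i0 hc
    _ ≤ ∫⁻ a, ENNReal.ofReal (2 ^ N / m) * g a := by
        rw [lintegral_const_mul _ hgm]
        refine mul_le_mul_left ?_ _
        have e1 : |2 * h i0| = 2 * m := by rw [abs_mul, abs_two]
        rw [e1, ← ENNReal.ofReal_inv_of_pos (by positivity), ← ENNReal.ofReal_ofNat,
          ← ENNReal.ofReal_pow (by norm_num), ← ENNReal.ofReal_mul (by positivity)]
        refine ENNReal.ofReal_le_ofReal ?_
        rw [div_eq_mul_inv]
        refine mul_le_mul_of_nonneg_left ?_ (by positivity)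
        exact inv_anti₀ hm0 (by linarith)
    _ ≤ _ := by
        refine lintegral_mono fun μ => ?_
        simp only [hg]
        by_cases hμ : μ ∈ S
        · rw [indicator_of_mem hμ]
          refine mul_le_mul_left ?_ _
          have hμ' : ‖Sn h μ‖ ≤ 3 * ((N : ℝ) + 1) * m ∧ m ≤ 2 := hμ
          have e1 := Sn_norm_sq h μ
          have hh0 : 0 < ‖h‖ := norm_pos_iff.2 hh
          have e3 : 0 < ‖Sn h μ‖ := by
            have h5 : 0 < ‖Sn h μ‖ ^ 2 := by rw [e1]; positivity
            refine lt_of_le_of_ne (norm_nonneg _) fun h0 => ?_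
            rw [← h0] at h5
            norm_num at h5
          have e5 : ‖Sn h μ‖ ≤ Rn N := by
            unfold Rn
            refine hμ'.1.trans ?_
            nlinarith [hμ'.2]
          unfold Gn
          rw [indicator_of_mem (by rw [Metric.mem_closedBall, dist_zero_right]; exact e5)]
          refine ENNReal.ofReal_le_ofReal ?_
          rw [div_le_div_iff₀ hm0 e3]
          have p2 : (0 : ℝ) < 2 ^ N := by positivity
          nlinarith [hμ'.1]
        · rw [indicator_of_notMem hμ, mul_zero]
          exact zero_le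

theorem hPm : Measurable (Phi : E (N + 1) → E (N + 2)) :=
  Pool.Agent.R412.RS.Phi_cont.measurable

theorem dm1 (H : E (N + 2) → ℝ≥0∞) (hH : Measurable H) :
    Measurable fun p : E (N + 1) × E (N + 1) => BQ p.1 * BQ p.2 * H (Phi p.1 - Phi p.2) := by
  have hm0 : Measurable fun p : E (N + 1) × E (N + 1) => Phi p.1 - Phi p.2 :=
    (hPm.comp measurable_fst).sub (hPm.comp measurable_snd)
  exact ((BQ_meas.comp measurable_fst).mul (BQ_meas.comp measurable_snd)).mul (hH.comp hm0)

theorem dm2 (H : E (N + 2) → ℝ≥0∞) (hH : Measurable H) :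
    Measurable fun p : E (N + 1) × E (N + 1) =>
      BQ (p.2 + p.1) * BQ p.1 * H (Phi (p.2 + p.1) - Phi p.1) := by
  have ha : Measurable fun p : E (N + 1) × E (N + 1) => p.2 + p.1 :=
    measurable_snd.add measurable_fst
  have hm0 : Measurable fun p : E (N + 1) × E (N + 1) => Phi (p.2 + p.1) - Phi p.1 :=
    (hPm.comp ha).sub (hPm.comp measurable_fst)
  exact ((BQ_meas.comp ha).mul (BQ_meas.comp measurable_fst)).mul (hH.comp hm0)

/-- **the density estimate** -/
theorem density (H : E (N + 2) → ℝ≥0∞) (hH : Measurable H) :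
    ∫⁻ x : E (N + 1), ∫⁻ y : E (N + 1), BQ x * BQ y * H (Phi x - Phi y) ≤
      ∫⁻ η, Gn N η * H η := by
  rw [lintegral_lintegral_swap (f := fun x y : E (N + 1) => BQ x * BQ y * H (Phi x - Phi y))
    (dm1 H hH).aemeasurable]
  have h1 : ∀ y : E (N + 1), ∫⁻ x, BQ x * BQ y * H (Phi x - Phi y) =
      ∫⁻ h, BQ (h + y) * BQ y * H (Phi (h + y) - Phi y) := by
    intro y
    exact (lintegral_add_right_eq_self (fun x => BQ x * BQ y * H (Phi x - Phi y)) y).symm
  simp_rw [h1]
  rw [lintegral_lintegral_swap (f := fun y h : E (N + 1) =>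
    BQ (h + y) * BQ y * H (Phi (h + y) - Phi y)) (dm2 H hH).aemeasurable,
    En_split (fun η => Gn N η * H η) (Gn_meas.mul hH)]
  refine lintegral_mono_ae ?_
  have h2 : ∀ᵐ h : E (N + 1), h ≠ 0 := by
    rw [ae_iff]
    simp
  filter_upwards [h2] with h hh
  exact fix_est H hH h hh

end Pool.Agent.H972PB
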