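import Mathlib
import Pool.Agent.helper972_pb.D2
set_option autoImplicit false

/-! The cylinder estimate over planar sets in all dimensions. -/

namespace Pool.Agent.H972PB

open MeasureTheory Complex Set Filter Topology
open scoped ENNReal RealInnerProductSpace ComplexConjugate
open Pool.Agent.R412.RT (E ee ee_norm ee_add ee_conj ee_meas ee_cont planch Phi ph ph_cont Ey Ey_meas
  Ex Ex_eq Ex_meas split_lint inner_eq cov inner_repr_symm Kg Kg_nonneg Kg_cont Kg_int gauss_ft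
  gexp_int)
open Pool.Agent.H972PL (regG Ah Ah_meas Ah_sup Ah_two)

/-- measurable, bounded by `M`, supported in the cube -/
structure NC {n : ℕ} (M : ℝ) (f : E n → ℂ) : Prop where
  meas : Measurable f
  bd : ∀ x, ‖f x‖ ≤ M
  supp : ∀ x, x ∉ Q n → f x = 0

theorem Q_fin {n : ℕ} : volume (Q n) ≠ ∞ := by
  have h : ∫⁻ x : E n, BQ x = volume (Q n) := lintegral_indicator_one Q_meas
  rw [← h, BQ_int]
  exact ENNReal.pow_ne_top (by norm_num)

theorem NC.integrable {n : ℕ} {M : ℝ} {f : E n → ℂ} (h : NC M f) : Integrable f := by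
  have h1 : IntegrableOn f (Q n) :=
    Measure.integrableOn_of_bounded (M := M) Q_fin h.meas.aestronglyMeasurable
      (Eventually.of_forall fun x => h.bd x)
  rw [← integrable_indicator_iff Q_meas] at h1
  refine h1.congr (Eventually.of_forall fun x => ?_)
  by_cases hx : x ∈ Q n
  · rw [indicator_of_mem hx]
  · rw [indicator_of_notMem hx, h.supp x hx]

theorem enorm_le {n : ℕ} {M : ℝ} {f : E n → ℂ} (hf : NC M f) (x : E n) :
    ‖f x‖ₑ ≤ ENNReal.ofReal M * BQ x := by
  unfold BQ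
  by_cases hx : x ∈ Q n
  · rw [indicator_of_mem hx, Pi.one_apply, mul_one, ← ofReal_norm]
    exact ENNReal.ofReal_le_ofReal (hf.bd x)
  · rw [indicator_of_notMem hx, mul_zero, hf.supp x hx, enorm_zero]

/-! ### the singular kernel -/

/-- one factor of the singular kernel -/
noncomputable def ka (R z : ℝ) : ℝ≥0∞ :=
  (Icc (-R) R).indicator (fun z => (ENNReal.ofReal |z| ^ (1 / 2 : ℝ))⁻¹) z

theorem ka_meas (R : ℝ) : Measurable (ka R) := by
  unfold ka
  exact Measurable.indicator (by fun_prop) measurableSet_Icc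

/-- integrability of the powers of the singular kernel -/
theorem ka_int (R : ℝ) (hR : 0 ≤ R) (s : ℝ) (hs : 0 < s) (hs2 : s < 2) :
    ∫⁻ z, ka R z ^ s < ∞ := by
  have hex : -1 < -(s / 2) := by linarith
  have h0 : ∫⁻ z in Ioc (0 : ℝ) R, ENNReal.ofReal (z ^ (-(s / 2))) < ∞ := by
    have hint : IntervalIntegrable (fun t : ℝ => t ^ (-(s / 2))) volume 0 R :=
      intervalIntegral.intervalIntegrable_rpow' hex
    rw [intervalIntegrable_iff_integrableOn_Ioc_of_le hR] at hint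
    exact hint.lintegral_lt_top
  have h1 : ∀ z : ℝ, z ≠ 0 → ka R z ^ s ≤
      (Ioc (0 : ℝ) R).indicator (fun z => ENNReal.ofReal (z ^ (-(s / 2)))) z +
      (Ioc (0 : ℝ) R).indicator (fun z => ENNReal.ofReal (z ^ (-(s / 2)))) (-z) := by
    intro z hz
    have e1 : ∀ w : ℝ, 0 < w → ((ENNReal.ofReal |w| ^ (1 / 2 : ℝ))⁻¹) ^ s =
        ENNReal.ofReal (w ^ (-(s / 2))) := by
      intro w hw
      rw [abs_of_pos hw, ← ENNReal.rpow_neg, ← ENNReal.rpow_mul, ENNReal.ofReal_rpow_of_pos hw]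
      congr 2
      ring
    unfold ka
    rcases lt_or_gt_of_ne hz with h | h
    · by_cases h5 : z ∈ Icc (-R) R
      · rw [indicator_of_mem h5]
        have h6 : -z ∈ Ioc (0 : ℝ) R := ⟨by linarith, by linarith [h5.1]⟩
        rw [indicator_of_mem h6, ← e1 (-z) (by linarith), abs_neg]
        exact le_add_self
      · rw [indicator_of_notMem h5, ENNReal.zero_rpow_of_pos hs]
        exact zero_le
    · by_cases h5 : z ∈ Icc (-R) R
      · rw [indicator_of_mem h5]
        have h6 : z ∈ Ioc (0 : ℝ) R := ⟨h, h5.2⟩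
        rw [indicator_of_mem h6, ← e1 z h]
        exact le_self_add
      · rw [indicator_of_notMem h5, ENNReal.zero_rpow_of_pos hs]
        exact zero_le
  have hgm : Measurable fun z : ℝ =>
      (Ioc (0 : ℝ) R).indicator (fun z => ENNReal.ofReal (z ^ (-(s / 2)))) z :=
    Measurable.indicator (by fun_prop) measurableSet_Ioc
  have h2 : ∀ᵐ z : ℝ, z ≠ 0 := by
    rw [ae_iff]
    simp
  calc ∫⁻ z, ka R z ^ s ≤ ∫⁻ z : ℝ,
      ((Ioc (0 : ℝ) R).indicator (fun z => ENNReal.ofReal (z ^ (-(s / 2)))) z +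
      (Ioc (0 : ℝ) R).indicator (fun z => ENNReal.ofReal (z ^ (-(s / 2)))) (-z)) := by
        refine lintegral_mono_ae ?_
        filter_upwards [h2] with z hz using h1 z hz
    _ = (∫⁻ z in Ioc (0 : ℝ) R, ENNReal.ofReal (z ^ (-(s / 2)))) +
        ∫⁻ z in Ioc (0 : ℝ) R, ENNReal.ofReal (z ^ (-(s / 2))) := by
        rw [lintegral_add_left hgm, lintegral_indicator measurableSet_Ioc]
        congr 1
        rw [lintegral_neg_eq_self (fun z => (Ioc (0 : ℝ) R).indicator
          (fun z => ENNReal.ofReal (z ^ (-(s / 2)))) z), lintegral_indicator measurableSet_Ioc]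
    _ < ∞ := ENNReal.add_lt_top.2 ⟨h0, h0⟩

/-- the Hoelder step -/
theorem holder_step (R : ℝ) (τ : ℝ) (h1 : 1 / 2 < τ) (h2 : τ < 1) (A : Set (ℝ × ℝ))
    (hA : MeasurableSet A) (hAt : volume A ≠ ∞) :
    ∫⁻ p : ℝ × ℝ, (ka R p.1 * ka R p.2) * ‖Ah A p‖ₑ ≤
      ((∫⁻ z, ka R z ^ (1 / τ)) ^ 2) ^ τ * volume A ^ τ := by
  have hτ0 : 0 < τ := by linarith
  have hpq : Real.HolderConjugate (1 / τ) (1 / (1 - τ)) := by
    rw [Real.holderConjugate_iff]
    constructor
    · rw [lt_div_iff₀ hτ0]; linarith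
    · rw [one_div, one_div, inv_inv, inv_inv]; ring
  have hm1 : Measurable fun p : ℝ × ℝ => ka R p.1 * ka R p.2 :=
    ((ka_meas R).comp measurable_fst).mul ((ka_meas R).comp measurable_snd)
  have hm2 : Measurable fun p : ℝ × ℝ => ‖Ah A p‖ₑ := (Ah_meas A hA).enorm
  have h := ENNReal.lintegral_mul_le_Lp_mul_Lq volume hpq hm1.aemeasurable hm2.aemeasurable
  simp only [Pi.mul_apply, one_div_one_div] at h
  refine h.trans (mul_le_mul' (le_of_eq ?_) ?_)
  · congr 1
    have e1 : ∀ p : ℝ × ℝ, (ka R p.1 * ka R p.2) ^ (1 / τ) =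
        ka R p.1 ^ (1 / τ) * ka R p.2 ^ (1 / τ) :=
      fun p => ENNReal.mul_rpow_of_nonneg _ _ (by positivity)
    simp_rw [e1]
    rw [Measure.volume_eq_prod, lintegral_prod_mul ((ka_meas R).pow_const _).aemeasurable
      ((ka_meas R).pow_const _).aemeasurable, sq]
  · have hs' : 0 < 1 - τ := by linarith
    have h2s : 2 < 1 / (1 - τ) := by rw [lt_div_iff₀ hs']; linarith
    have e2 : ∀ p, ‖Ah A p‖ₑ ^ (1 / (1 - τ)) ≤
        volume A ^ (1 / (1 - τ) - 2) * ‖Ah A p‖ₑ ^ 2 := by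
      intro p
      have e3 : ‖Ah A p‖ₑ ^ (1 / (1 - τ)) = ‖Ah A p‖ₑ ^ (1 / (1 - τ) - 2) * ‖Ah A p‖ₑ ^ (2 : ℝ) := by
        rw [← ENNReal.rpow_add_of_nonneg _ _ (by linarith) (by norm_num)]
        congr 1
        ring
      rw [e3, ENNReal.rpow_two]
      exact mul_le_mul_left (ENNReal.rpow_le_rpow (Ah_sup A hA p) (by linarith)) _
    have e4 : ∫⁻ p, ‖Ah A p‖ₑ ^ (1 / (1 - τ)) ≤ volume A ^ (1 / (1 - τ) - 1) := by
      calc ∫⁻ p, ‖Ah A p‖ₑ ^ (1 / (1 - τ)) ≤
            ∫⁻ p, volume A ^ (1 / (1 - τ) - 2) * ‖Ah A p‖ₑ ^ 2 := lintegral_mono e2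
        _ = volume A ^ (1 / (1 - τ) - 2) * ∫⁻ p, ‖Ah A p‖ₑ ^ 2 :=
            lintegral_const_mul _ (hm2.pow_const 2)
        _ ≤ volume A ^ (1 / (1 - τ) - 2) * volume A ^ (1 : ℝ) := by
            rw [ENNReal.rpow_one]
            exact mul_le_mul_right (Ah_two A hA hAt) _
        _ = _ := by
            rw [← ENNReal.rpow_add_of_nonneg _ _ (by linarith) (by norm_num)]
            congr 1
            ring
    refine (ENNReal.rpow_le_rpow e4 hs'.le).trans (le_of_eq ?_)
    rw [← ENNReal.rpow_mul]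
    congr 1
    field_simp
    ring

/-! ### the phases -/

variable {N : ℕ} (e : OrthonormalBasis (Fin (N + 2)) ℝ (E (N + 2)))

/-- the remaining coordinates of the paraboloid -/
noncomputable def Pr (x : E (N + 1)) : E N := WithLp.toLp 2 fun j => ph e j.succ.succ x

theorem Pr_meas : Measurable (Pr e) := by
  refine (PiLp.volume_preserving_toLp (Fin N)).measurable.comp ?_
  exact measurable_pi_iff.2 fun j => (ph_cont e _).measurable

/-- the whole phase -/
noncomputable def th (q : (ℝ × ℝ) × E N) (x : E (N + 1)) : ℝ :=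
  (q.1.1 * ph e 0 x + q.1.2 * ph e 1 x) + ⟪Pr e x, q.2⟫

theorem th_meas : Measurable (Function.uncurry (th e)) := by
  unfold th
  refine Measurable.add (Measurable.add ?_ ?_) ?_
  · exact (measurable_fst.comp (measurable_fst.comp measurable_fst)).mul
      ((ph_cont e 0).measurable.comp measurable_snd)
  · exact (measurable_snd.comp (measurable_fst.comp measurable_fst)).mul
      ((ph_cont e 1).measurable.comp measurable_snd)
  · exact Measurable.inner ((Pr_meas e).comp measurable_snd) (measurable_snd.comp measurable_fst)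

/-- the regularised indicator function of the cylinder -/
noncomputable def kk (A : Set (ℝ × ℝ)) (ε : ℝ) (q : (ℝ × ℝ) × E N) : ℝ :=
  A.indicator (fun _ => (1 : ℝ)) q.1 * Real.exp (-ε * ‖q.2‖ ^ 2)

theorem kk_nonneg (A : Set (ℝ × ℝ)) (ε : ℝ) (q : (ℝ × ℝ) × E N) : 0 ≤ kk A ε q := by
  unfold kk
  refine mul_nonneg (indicator_nonneg (fun _ _ => zero_le_one) _) (Real.exp_nonneg _)

theorem kk_meas (A : Set (ℝ × ℝ)) (hA : MeasurableSet A) (ε : ℝ) :
    Measurable (kk (N := N) A ε) := by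
  unfold kk
  refine Measurable.mul ((measurable_const.indicator hA).comp measurable_fst) ?_
  fun_prop

theorem kk_int (A : Set (ℝ × ℝ)) (hA : MeasurableSet A) (hAt : volume A ≠ ∞) (ε : ℝ)
    (hε : 0 < ε) : Integrable (kk (N := N) A ε) := by
  unfold kk
  rw [Measure.volume_eq_prod]
  refine Integrable.mul_prod (f := A.indicator (fun _ => (1 : ℝ)))
    (g := fun c : E N => Real.exp (-ε * ‖c‖ ^ 2)) ?_ (gexp_int N ε hε)
  exact (integrable_indicator_iff hA).2 (integrableOn_const hAt)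

theorem kk_of (A : Set (ℝ × ℝ)) (ε : ℝ) (q : (ℝ × ℝ) × E N) :
    ENNReal.ofReal (kk A ε q) = A.indicator (1 : ℝ × ℝ → ℝ≥0∞) q.1 *
      ENNReal.ofReal (Real.exp (-ε * ‖q.2‖ ^ 2)) := by
  unfold kk
  by_cases hq : q.1 ∈ A
  · rw [indicator_of_mem hq, indicator_of_mem hq, one_mul, Pi.one_apply, one_mul]
  · rw [indicator_of_notMem hq, indicator_of_notMem hq, zero_mul, zero_mul, ENNReal.ofReal_zero]

theorem ker_eq (A : Set (ℝ × ℝ)) (ε : ℝ) (hε : 0 < ε) (x y : E (N + 1)) :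
    ∫ q : (ℝ × ℝ) × E N, (kk A ε q : ℂ) * ee (th e q x - th e q y) =
      Ah A (ph e 0 x - ph e 0 y, ph e 1 x - ph e 1 y) * (Kg N ε (Pr e x - Pr e y) : ℂ) := by
  rw [← gauss_ft N ε hε]
  unfold Ah
  rw [Measure.volume_eq_prod, ← integral_prod_mul]
  refine integral_congr_ae (Eventually.of_forall fun q => ?_)
  simp only
  have e1 : th e q x - th e q y =
      (q.1.1 * (ph e 0 x - ph e 0 y) + q.1.2 * (ph e 1 x - ph e 1 y)) +
        ⟪Pr e x - Pr e y, q.2⟫ := by
    unfold th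
    rw [inner_sub_left]
    ring
  rw [e1, ee_add]
  unfold kk
  by_cases hq : q.1 ∈ A
  · rw [indicator_of_mem hq, indicator_of_mem hq]
    push_cast
    ring
  · rw [indicator_of_notMem hq, indicator_of_notMem hq]
    simp

/-- the remaining coordinates of a vector -/
noncomputable def rc (η : E (N + 2)) : E N := WithLp.toLp 2 fun j => ⟪e j.succ.succ, η⟫

theorem rc_meas : Measurable (rc e) := by
  refine (PiLp.volume_preserving_toLp (Fin N)).measurable.comp ?_
  exact measurable_pi_iff.2 fun j => by fun_prop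

/-- the transplanted kernel -/
noncomputable def Hk (A : Set (ℝ × ℝ)) (ε : ℝ) (η : E (N + 2)) : ℝ≥0∞ :=
  ‖Ah A (⟪e 0, η⟫, ⟪e 1, η⟫)‖ₑ * ENNReal.ofReal (Kg N ε (rc e η))

theorem Hk_meas (A : Set (ℝ × ℝ)) (hA : MeasurableSet A) (ε : ℝ) : Measurable (Hk e A ε) := by
  unfold Hk
  have hi : ∀ i, Measurable fun η : E (N + 2) => ⟪e i, η⟫ := fun i => by fun_prop
  refine Measurable.mul ((Ah_meas A hA).comp ((hi 0).prodMk (hi 1))).enorm ?_
  exact ((Kg_cont N ε).measurable.comp (rc_meas e)).ennreal_ofReal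

theorem Hk_eq (A : Set (ℝ × ℝ)) (ε : ℝ) (hε : 0 < ε) (x y : E (N + 1)) :
    ‖Ah A (ph e 0 x - ph e 0 y, ph e 1 x - ph e 1 y) * (Kg N ε (Pr e x - Pr e y) : ℂ)‖ₑ =
      Hk e A ε (Phi x - Phi y) := by
  unfold Hk
  have hi : ∀ i, ⟪e i, Phi x - Phi y⟫ = ph e i x - ph e i y := fun i => by
    rw [inner_sub_right]
    rfl
  have hr : rc e (Phi x - Phi y) = Pr e x - Pr e y := by
    ext j
    show ⟪e j.succ.succ, Phi x - Phi y⟫ = ph e j.succ.succ x - ph e j.succ.succ y
    exact hi _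
  rw [hi, hi, hr, enorm_mul]
  congr 1
  rw [← ofReal_norm, Complex.norm_real, Real.norm_of_nonneg (Kg_nonneg N ε hε _)]

/-- the regularised estimate -/
theorem reg_est (A : Set (ℝ × ℝ)) (hA : MeasurableSet A) (hAt : volume A ≠ ∞) (ε : ℝ)
    (hε : 0 < ε) (M : ℝ) (f : E (N + 1) → ℂ) (hf : NC M f) :
    ∫⁻ q : (ℝ × ℝ) × E N, ENNReal.ofReal (kk A ε q) * ‖∫ x, ee (th e q x) * f x‖ₑ ^ 2 ≤
      ENNReal.ofReal M ^ 2 * ∫⁻ η, Gn N η * Hk e A ε η := by
  refine (regG volume volume (kk A ε) (kk_nonneg A ε) (kk_meas A hA ε) (kk_int A hA hAt ε hε)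
    (th e) (th_meas e) f hf.integrable).trans ?_
  have hHm := Hk_meas e A hA ε
  calc ∫⁻ x, ∫⁻ y, ‖f x‖ₑ * ‖f y‖ₑ *
        ‖∫ q : (ℝ × ℝ) × E N, (kk A ε q : ℂ) * ee (th e q x - th e q y)‖ₑ
      ≤ ∫⁻ x, ∫⁻ y, ENNReal.ofReal M ^ 2 * (BQ x * BQ y * Hk e A ε (Phi x - Phi y)) := by
        refine lintegral_mono fun x => lintegral_mono fun y => ?_
        simp only
        rw [ker_eq e A ε hε, Hk_eq e A ε hε]
        calc ‖f x‖ₑ * ‖f y‖ₑ * Hk e A ε (Phi x - Phi y)
            ≤ (ENNReal.ofReal M * BQ x) * (ENNReal.ofReal M * BQ y) *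
              Hk e A ε (Phi x - Phi y) := by
              gcongr
              · exact enorm_le hf x
              · exact enorm_le hf y
          _ = _ := by ring
    _ = ENNReal.ofReal M ^ 2 * ∫⁻ x : E (N + 1), ∫⁻ y : E (N + 1),
          BQ x * BQ y * Hk e A ε (Phi x - Phi y) := by
        have hc : ENNReal.ofReal M ^ 2 ≠ ∞ := ENNReal.pow_ne_top ENNReal.ofReal_ne_top
        rw [← lintegral_const_mul' _ _ hc]
        refine lintegral_congr fun x => ?_
        rw [lintegral_const_mul' _ _ hc]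
    _ ≤ _ := mul_le_mul_right (density _ hHm) _

/-- the constant of the majorant -/
noncomputable def cn (N : ℕ) : ℝ := 2 ^ N * (3 * ((N : ℝ) + 1))

theorem cn_pos (N : ℕ) : 0 < cn N := by unfold cn; positivity

theorem Gn_le (z : Fin (N + 2) → ℝ) :
    Gn N (e.repr.symm (WithLp.toLp 2 z)) ≤
      ENNReal.ofReal (cn N) * (ka (Rn N) (z 0) * ka (Rn N) (z 1)) := by
  set η : E (N + 2) := e.repr.symm (WithLp.toLp 2 z) with hη
  have hz : ∀ i, |z i| ≤ ‖η‖ := by
    intro i
    rw [← inner_repr_symm e i z]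
    refine (abs_real_inner_le_norm _ _).trans ?_
    rw [e.orthonormal.1 i, one_mul]
  unfold Gn
  by_cases h5 : η ∈ Metric.closedBall (0 : E (N + 2)) (Rn N)
  · rw [indicator_of_mem h5]
    rw [Metric.mem_closedBall, dist_zero_right] at h5
    rcases eq_or_lt_of_le (norm_nonneg η) with h0 | h0
    · rw [← h0, div_zero, ENNReal.ofReal_zero]
      exact zero_le
    · have hmem : ∀ i, z i ∈ Icc (-(Rn N)) (Rn N) := fun i => abs_le.1 ((hz i).trans h5)
      unfold ka
      have hcn : 2 ^ N * (3 * ((N : ℝ) + 1)) = cn N := rfl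
      rw [indicator_of_mem (hmem 0), indicator_of_mem (hmem 1), div_eq_mul_inv, hcn,
        ENNReal.ofReal_mul (cn_pos N).le, ENNReal.ofReal_inv_of_pos h0]
      refine mul_le_mul_right ?_ _
      have e1 : (ENNReal.ofReal ‖η‖)⁻¹ =
          (ENNReal.ofReal ‖η‖ ^ (1 / 2 : ℝ))⁻¹ * (ENNReal.ofReal ‖η‖ ^ (1 / 2 : ℝ))⁻¹ := by
        rw [← ENNReal.mul_inv (Or.inr (by simp)) (Or.inl (by simp)),
          ← ENNReal.rpow_add_of_nonneg _ _ (by norm_num) (by norm_num)]
        norm_num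
      rw [e1]
      refine mul_le_mul' ?_ ?_ <;>
      · rw [ENNReal.inv_le_inv]
        exact ENNReal.rpow_le_rpow (ENNReal.ofReal_le_ofReal (hz _)) (by norm_num)
  · rw [indicator_of_notMem h5]
    exact zero_le

/-- splitting off two coordinates -/
theorem split2 (F : (Fin (N + 2) → ℝ) → ℝ≥0∞) (hF : Measurable F) :
    ∫⁻ y, F y = ∫⁻ q : (ℝ × ℝ) × E N, F (Fin.cons q.1.1 (Fin.cons q.1.2 fun j => q.2 j)) := by
  have hcm : Measurable fun q : (ℝ × ℝ) × E N =>
      (Fin.cons q.1.1 (Fin.cons q.1.2 fun j => q.2 j) : Fin (N + 2) → ℝ) := by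
    refine measurable_pi_iff.2 fun i => ?_
    refine Fin.cases ?_ (fun i => Fin.cases ?_ (fun j => ?_) i) i
    · simp only [Fin.cons_zero]; fun_prop
    · simp only [Fin.cons_succ, Fin.cons_zero]; fun_prop
    · simp only [Fin.cons_succ]; fun_prop
  have hFc : Measurable fun q : (ℝ × ℝ) × E N =>
      F (Fin.cons q.1.1 (Fin.cons q.1.2 fun j => q.2 j)) := hF.comp hcm
  have hFp : Measurable fun p : ℝ × ℝ => ∫⁻ t : E N, F (Fin.cons p.1 (Fin.cons p.2 fun j => t j)) :=
    hFc.lintegral_prod_right'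
  rw [Measure.volume_eq_prod, Measure.volume_eq_prod, lintegral_prod _ hFc.aemeasurable,
    lintegral_prod _ hFp.aemeasurable]
  rw [split_lint (0 : Fin (N + 2)) F hF]
  refine lintegral_congr fun a => ?_
  have hFa : Measurable fun t : Fin (N + 1) → ℝ => F ((0 : Fin (N + 2)).insertNth a t) := by
    refine hF.comp ?_
    refine measurable_pi_iff.2 fun i => ?_
    rw [show (fun t : Fin (N + 1) → ℝ => ((0 : Fin (N + 2)).insertNth a t : Fin (N + 2) → ℝ) i) =
      fun t => (Fin.cons a t : Fin (N + 2) → ℝ) i from by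
        ext t
        rw [Fin.insertNth_zero']]
    refine Fin.cases ?_ (fun j => ?_) i
    · simp only [Fin.cons_zero]; fun_prop
    · simp only [Fin.cons_succ]; fun_prop
  rw [split_lint (0 : Fin (N + 1)) _ hFa]
  refine lintegral_congr fun b => ?_
  have h1 : ∀ t : Fin N → ℝ, F ((0 : Fin (N + 2)).insertNth a ((0 : Fin (N + 1)).insertNth b t)) =
      (fun t : E N => F (Fin.cons a (Fin.cons b fun j => t j))) (WithLp.toLp 2 t) := by
    intro t
    simp only
    rw [Fin.insertNth_zero', Fin.insertNth_zero']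
  simp_rw [h1]
  exact (PiLp.volume_preserving_toLp (Fin N)).lintegral_comp_emb
      (MeasurableEquiv.toLp 2 (Fin N → ℝ)).measurableEmbedding
      (fun t : E N => F (Fin.cons a (Fin.cons b fun j => t j)))

end Pool.Agent.H972PB
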