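import Mathlib
import Pool.Agent.helper972_pb.C
set_option autoImplicit false

/-! The cylinder estimate over planar sets in all dimensions: the theorem. -/

namespace Pool.Agent.H972PB

open MeasureTheory Complex Set Filter Topology
open scoped ENNReal RealInnerProductSpace ComplexConjugate
open Pool.Agent.R412.RT (E ee ee_norm ee_add ee_conj ee_meas ee_cont planch Phi ph ph_cont Ey Ey_meas
  Ex Ex_eq Ex_meas split_lint inner_eq cov inner_repr_symm Kg Kg_nonneg Kg_cont Kg_int gauss_ft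
  gexp_int)
open Pool.Agent.H972PL (regG Ah Ah_meas Ah_sup Ah_two)

variable {N : ℕ} (e : OrthonormalBasis (Fin (N + 2)) ℝ (E (N + 2)))

/-- the integral of the transplanted kernel -/
theorem ker_int (A : Set (ℝ × ℝ)) (hA : MeasurableSet A) (ε : ℝ) (hε : 0 < ε) :
    ∫⁻ η, Gn N η * Hk e A ε η ≤
      ENNReal.ofReal (cn N) * ∫⁻ p : ℝ × ℝ, (ka (Rn N) p.1 * ka (Rn N) p.2) * ‖Ah A p‖ₑ := by
  rw [cov e (fun η => Gn N η * Hk e A ε η) (Gn_meas.mul (Hk_meas e A hA ε))]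
  have hAm := Ah_meas A hA
  set tl : (Fin (N + 2) → ℝ) → E N := fun z => WithLp.toLp 2 fun j => z j.succ.succ with htl
  have htlm : Measurable tl :=
    (PiLp.volume_preserving_toLp (Fin N)).measurable.comp
      (measurable_pi_iff.2 fun j => measurable_pi_apply _)
  set F : (Fin (N + 2) → ℝ) → ℝ≥0∞ := fun z => ENNReal.ofReal (cn N) *
    ((ka (Rn N) (z 0) * ka (Rn N) (z 1)) * ‖Ah A (z 0, z 1)‖ₑ) *
    ENNReal.ofReal (Kg N ε (tl z)) with hF
  have hmA : ∀ i : Fin (N + 2), Measurable fun z : Fin (N + 2) → ℝ => z i := fun i =>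
    measurable_pi_apply i
  have hFm : Measurable F := by
    rw [hF]
    refine Measurable.mul (Measurable.const_mul (Measurable.mul ?_ ?_) _) ?_
    · exact ((ka_meas _).comp (hmA 0)).mul ((ka_meas _).comp (hmA 1))
    · exact (hAm.comp ((hmA 0).prodMk (hmA 1))).enorm
    · exact ((Kg_cont N ε).measurable.comp htlm).ennreal_ofReal
  have hrc : ∀ z : Fin (N + 2) → ℝ, rc e (e.repr.symm (WithLp.toLp 2 z)) = tl z := by
    intro z
    ext j
    show ⟪e j.succ.succ, e.repr.symm (WithLp.toLp 2 z)⟫ = z j.succ.succ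
    rw [inner_repr_symm]
  have hgm : Measurable fun p : ℝ × ℝ => (ka (Rn N) p.1 * ka (Rn N) p.2) * ‖Ah A p‖ₑ :=
    (((ka_meas _).comp measurable_fst).mul ((ka_meas _).comp measurable_snd)).mul hAm.enorm
  have hK : Measurable fun t : E N => ENNReal.ofReal (Kg N ε t) :=
    (Kg_cont N ε).measurable.ennreal_ofReal
  calc ∫⁻ z : Fin (N + 2) → ℝ, (fun η => Gn N η * Hk e A ε η) (e.repr.symm (WithLp.toLp 2 z))
      ≤ ∫⁻ z, F z := by
        refine lintegral_mono fun z => ?_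
        simp only [hF, Hk]
        rw [inner_repr_symm, inner_repr_symm, hrc]
        calc Gn N (e.repr.symm (WithLp.toLp 2 z)) * (‖Ah A (z 0, z 1)‖ₑ *
              ENNReal.ofReal (Kg N ε (tl z)))
            ≤ (ENNReal.ofReal (cn N) * (ka (Rn N) (z 0) * ka (Rn N) (z 1))) *
              (‖Ah A (z 0, z 1)‖ₑ * ENNReal.ofReal (Kg N ε (tl z))) :=
              mul_le_mul_left (Gn_le e z) _
          _ = _ := by ring
    _ = ∫⁻ q : (ℝ × ℝ) × E N, F (Fin.cons q.1.1 (Fin.cons q.1.2 fun j => q.2 j)) := split2 F hFm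
    _ = ∫⁻ q : (ℝ × ℝ) × E N, (ENNReal.ofReal (cn N) *
          ((ka (Rn N) q.1.1 * ka (Rn N) q.1.2) * ‖Ah A q.1‖ₑ)) *
          ENNReal.ofReal (Kg N ε q.2) := by
        refine lintegral_congr fun q => ?_
        simp only [hF, htl]
        have e0 : (Fin.cons q.1.1 (Fin.cons q.1.2 fun j => q.2 j) : Fin (N + 2) → ℝ) 0 = q.1.1 := rfl
        have e1 : (Fin.cons q.1.1 (Fin.cons q.1.2 fun j => q.2 j) : Fin (N + 2) → ℝ) 1 = q.1.2 := rfl
        have e2 : (WithLp.toLp 2 fun j : Fin N =>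
            (Fin.cons q.1.1 (Fin.cons q.1.2 fun j => q.2 j) : Fin (N + 2) → ℝ) j.succ.succ) =
            q.2 := rfl
        rw [e0, e1, e2]
    _ = (∫⁻ p : ℝ × ℝ, ENNReal.ofReal (cn N) *
          ((ka (Rn N) p.1 * ka (Rn N) p.2) * ‖Ah A p‖ₑ)) * ∫⁻ t : E N, ENNReal.ofReal (Kg N ε t) := by
        rw [Measure.volume_eq_prod, lintegral_prod_mul (hgm.const_mul _).aemeasurable
          hK.aemeasurable]
    _ = _ := by
        rw [Kg_int N ε hε, mul_one, lintegral_const_mul _ hgm]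

theorem Ey_cons (f : E (N + 1) → ℂ) (q : (ℝ × ℝ) × E N) :
    Ey e f (Fin.cons q.1.1 (Fin.cons q.1.2 fun j => q.2 j)) = ∫ x, ee (th e q x) * f x := by
  unfold Ey
  congr 1
  ext x
  congr 2
  rw [Fin.sum_univ_succ, Fin.sum_univ_succ]
  unfold th
  rw [inner_eq]
  have e1 : (Fin.succ (0 : Fin (N + 1)) : Fin (N + 2)) = 1 := rfl
  simp only [Fin.cons_zero, Fin.cons_succ, e1]
  have e2 : ∀ i : Fin N, ph e i.succ.succ x * q.2 i = Pr e x i * q.2 i := fun i => rfl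
  have e3 : (Fin.cons q.1.1 (Fin.cons q.1.2 fun j => q.2 j) : Fin (N + 2) → ℝ) 1 = q.1.2 := rfl
  simp_rw [e2]
  rw [e3]
  ring

/-- **the cylinder estimate**, in coordinates -/
theorem cyl0 (N : ℕ) (τ : ℝ) (h1 : 1 / 2 < τ) (h2 : τ < 1) : ∃ C : ℝ, 0 < C ∧
    ∀ (e : OrthonormalBasis (Fin (N + 2)) ℝ (E (N + 2))) (M : ℝ) (f : E (N + 1) → ℂ), 0 ≤ M →
    NC M f → ∀ A : Set (ℝ × ℝ), MeasurableSet A → volume A ≠ ∞ →
    ∫⁻ y : Fin (N + 2) → ℝ, A.indicator 1 (y 0, y 1) * ‖Ey e f y‖ₑ ^ 2 ≤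
      ENNReal.ofReal (C * M ^ 2) * volume A ^ τ := by
  have hτ0 : 0 < τ := by linarith
  set K : ℝ≥0∞ := ENNReal.ofReal (cn N) * ((∫⁻ z, ka (Rn N) z ^ (1 / τ)) ^ 2) ^ τ with hK
  have hRn : 0 ≤ Rn N := by unfold Rn; positivity
  have hKt : K ≠ ∞ := by
    refine ENNReal.mul_ne_top ENNReal.ofReal_ne_top (ENNReal.rpow_ne_top_of_nonneg hτ0.le
      (ENNReal.pow_ne_top (ka_int _ hRn (1 / τ) (by positivity) ?_).ne))
    rw [div_lt_iff₀ hτ0]
    linarith
  refine ⟨K.toReal + 1, by positivity, fun e M f hM hf A hA hAt => ?_⟩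
  set F : (ℝ × ℝ) × E N → ℂ := fun q => ∫ x, ee (th e q x) * f x with hF
  have hEm : Measurable (Ey e f) := Ey_meas e f hf.integrable.1
  have hcm : Measurable fun q : (ℝ × ℝ) × E N =>
      (Fin.cons q.1.1 (Fin.cons q.1.2 fun j => q.2 j) : Fin (N + 2) → ℝ) := by
    refine measurable_pi_iff.2 fun i => ?_
    refine Fin.cases ?_ (fun i => Fin.cases ?_ (fun j => ?_) i) i
    · simp only [Fin.cons_zero]; fun_prop
    · simp only [Fin.cons_succ, Fin.cons_zero]; fun_prop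
    · simp only [Fin.cons_succ]; fun_prop
  have hFm : Measurable F := by
    have : F = fun q => Ey e f (Fin.cons q.1.1 (Fin.cons q.1.2 fun j => q.2 j)) := by
      ext q
      rw [Ey_cons]
    rw [this]
    exact hEm.comp hcm
  have hm : Measurable fun y : Fin (N + 2) → ℝ => A.indicator (1 : ℝ × ℝ → ℝ≥0∞) (y 0, y 1) *
      ‖Ey e f y‖ₑ ^ 2 :=
    ((measurable_one.indicator hA).comp (by fun_prop)).mul (hEm.enorm.pow_const 2)
  rw [split2 _ hm]
  have e1 : ∀ q : (ℝ × ℝ) × E N, A.indicator (1 : ℝ × ℝ → ℝ≥0∞)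
      ((Fin.cons q.1.1 (Fin.cons q.1.2 fun j => q.2 j) : Fin (N + 2) → ℝ) 0,
       (Fin.cons q.1.1 (Fin.cons q.1.2 fun j => q.2 j) : Fin (N + 2) → ℝ) 1) *
      ‖Ey e f (Fin.cons q.1.1 (Fin.cons q.1.2 fun j => q.2 j))‖ₑ ^ 2 =
      A.indicator 1 q.1 * ‖F q‖ₑ ^ 2 := by
    intro q
    rw [Ey_cons]
    rfl
  simp_rw [e1]
  -- the limit
  have hlim : ∀ q : (ℝ × ℝ) × E N, Tendsto (fun k : ℕ =>
      ENNReal.ofReal (kk A (1 / ((k : ℝ) + 1)) q) * ‖F q‖ₑ ^ 2) atTop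
      (𝓝 (A.indicator 1 q.1 * ‖F q‖ₑ ^ 2)) := by
    intro q
    have h1 : Tendsto (fun k : ℕ => Real.exp (-(1 / ((k : ℝ) + 1)) * ‖q.2‖ ^ 2)) atTop (𝓝 1) := by
      have h2 : Tendsto (fun k : ℕ => -(1 / ((k : ℝ) + 1)) * ‖q.2‖ ^ 2) atTop (𝓝 0) := by
        have := (tendsto_one_div_add_atTop_nhds_zero_nat (𝕜 := ℝ)).neg.mul_const (‖q.2‖ ^ 2)
        simpa using this
      have := (Real.continuous_exp.tendsto 0).comp h2
      rwa [Real.exp_zero] at this
    have h3 : Tendsto (fun k : ℕ => ENNReal.ofReal (kk A (1 / ((k : ℝ) + 1)) q)) atTop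
        (𝓝 (A.indicator 1 q.1)) := by
      simp_rw [kk_of]
      by_cases hq : q.1 ∈ A
      · rw [indicator_of_mem hq]
        simp only [Pi.one_apply, one_mul]
        have := ENNReal.tendsto_ofReal h1
        rwa [ENNReal.ofReal_one] at this
      · rw [indicator_of_notMem hq]
        simp
    refine ENNReal.Tendsto.mul_const h3 (Or.inr ?_)
    have hb : ‖F q‖ₑ < ∞ := enorm_lt_top
    exact ENNReal.pow_ne_top hb.ne
  calc ∫⁻ q : (ℝ × ℝ) × E N, A.indicator 1 q.1 * ‖F q‖ₑ ^ 2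
      = ∫⁻ q : (ℝ × ℝ) × E N, liminf (fun k : ℕ =>
          ENNReal.ofReal (kk A (1 / ((k : ℝ) + 1)) q) * ‖F q‖ₑ ^ 2) atTop := by
        refine lintegral_congr fun q => ?_
        rw [(hlim q).liminf_eq]
    _ ≤ liminf (fun k : ℕ => ∫⁻ q : (ℝ × ℝ) × E N,
          ENNReal.ofReal (kk A (1 / ((k : ℝ) + 1)) q) * ‖F q‖ₑ ^ 2) atTop := by
        refine lintegral_liminf_le fun k => ?_
        exact (kk_meas A hA _).ennreal_ofReal.mul (hFm.enorm.pow_const 2)
    _ ≤ ENNReal.ofReal ((K.toReal + 1) * M ^ 2) * volume A ^ τ := by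
        refine liminf_le_of_frequently_le' (Frequently.of_forall fun k => ?_)
        have hk : (0 : ℝ) < 1 / ((k : ℝ) + 1) := by positivity
        refine (reg_est e A hA hAt _ hk M f hf).trans ?_
        calc ENNReal.ofReal M ^ 2 * ∫⁻ η, Gn N η * Hk e A (1 / ((k : ℝ) + 1)) η
            ≤ ENNReal.ofReal M ^ 2 * (ENNReal.ofReal (cn N) *
                (((∫⁻ z, ka (Rn N) z ^ (1 / τ)) ^ 2) ^ τ * volume A ^ τ)) := by
              refine mul_le_mul_right ((ker_int e A hA _ hk).trans ?_) _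
              exact mul_le_mul_right (holder_step (Rn N) τ h1 h2 A hA hAt) _
          _ = ENNReal.ofReal M ^ 2 * K * volume A ^ τ := by rw [hK]; ring
          _ ≤ _ := by
              refine mul_le_mul_left ?_ _
              rw [ENNReal.ofReal_mul (by positivity), ENNReal.ofReal_pow hM, mul_comm]
              refine mul_le_mul_left ?_ _
              rw [ENNReal.ofReal_add (by positivity) (by norm_num), ENNReal.ofReal_toReal hKt]
              exact le_self_add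

/-- an orthonormal basis with given first two vectors -/
theorem exists_frame2 (v w : E (N + 2)) (hv : ‖v‖ = 1) (hw : ‖w‖ = 1) (hvw : ⟪v, w⟫ = 0) :
    ∃ e : OrthonormalBasis (Fin (N + 2)) ℝ (E (N + 2)), e 0 = v ∧ e 1 = w := by
  set v' : Fin (N + 2) → E (N + 2) := fun i => if i = 0 then v else w with hv'
  have h01 : (1 : Fin (N + 2)) ≠ 0 := by simp
  have horth : Orthonormal ℝ (({0, 1} : Set (Fin (N + 2))).domRestrict v') := by
    constructor
    · rintro ⟨i, hi⟩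
      show ‖v' i‖ = 1
      rcases hi with hi | hi
      · rw [hv', hi]; simpa using hv
      · have hi' : i = 1 := hi
        rw [hv', hi']; simpa [h01] using hw
    · rintro ⟨i, hi⟩ ⟨j, hj⟩ hij
      show ⟪v' i, v' j⟫ = 0
      have hij' : i ≠ j := fun h => hij (Subtype.ext h)
      rcases hi with hi | hi
      · rcases hj with hj | hj
        · exact absurd (hi.trans hj.symm) hij'
        · have hj' : j = 1 := hj
          rw [hv', hi, hj']; simpa [h01] using hvw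
      · have hi' : i = 1 := hi
        rcases hj with hj | hj
        · rw [hv', hi', hj]
          rw [real_inner_comm] at hvw
          simpa [h01] using hvw
        · have hj' : j = 1 := hj
          exact absurd (hi'.trans hj'.symm) hij'
  obtain ⟨b, hb⟩ := horth.exists_orthonormalBasis_extension_of_card_eq
    (by simp) (v := v')
  refine ⟨b, ?_, ?_⟩
  · rw [hb 0 (by simp), hv']
    simp
  · rw [hb 1 (by simp), hv']
    simp [h01]

/-- **the cylinder estimate** -/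
theorem cyl (N : ℕ) (τ : ℝ) (h1 : 1 / 2 < τ) (h2 : τ < 1) : ∃ C : ℝ, 0 < C ∧
    ∀ (v w : E (N + 2)), ‖v‖ = 1 → ‖w‖ = 1 → ⟪v, w⟫ = 0 →
    ∀ (M : ℝ) (f : E (N + 1) → ℂ), 0 ≤ M → NC M f →
    ∀ (A : Set (ℝ × ℝ)) (T : Set (E (N + 2))), MeasurableSet A → MeasurableSet T →
    volume A ≠ ∞ → (∀ ξ ∈ T, (⟪v, ξ⟫, ⟪w, ξ⟫) ∈ A) →
    ∫⁻ ξ in T, ‖Ex f ξ‖ₑ ^ 2 ≤ ENNReal.ofReal (C * M ^ 2) * volume A ^ τ := by
  obtain ⟨C, hC, h⟩ := cyl0 N τ h1 h2
  refine ⟨C, hC, fun v w hv hw hvw M f hM hf A T hA hT hAt hTA => ?_⟩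
  obtain ⟨e, he0, he1⟩ := exists_frame2 v w hv hw hvw
  have hm : Measurable fun ξ : E (N + 2) => A.indicator (1 : ℝ × ℝ → ℝ≥0∞) (⟪e 0, ξ⟫, ⟪e 1, ξ⟫) *
      ‖Ex f ξ‖ₑ ^ 2 :=
    ((measurable_one.indicator hA).comp (by fun_prop)).mul
      ((Ex_meas f hf.integrable.1).enorm.pow_const 2)
  have h3 : ∫⁻ ξ in T, ‖Ex f ξ‖ₑ ^ 2 ≤
      ∫⁻ ξ : E (N + 2), A.indicator (1 : ℝ × ℝ → ℝ≥0∞) (⟪e 0, ξ⟫, ⟪e 1, ξ⟫) * ‖Ex f ξ‖ₑ ^ 2 := by
    rw [← lintegral_indicator hT]
    refine lintegral_mono fun ξ => ?_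
    by_cases hξ : ξ ∈ T
    · have := hTA ξ hξ
      rw [← he0, ← he1] at this
      rw [indicator_of_mem hξ, indicator_of_mem this, Pi.one_apply, one_mul]
    · rw [indicator_of_notMem hξ]
      exact zero_le
  refine h3.trans ?_
  rw [cov e _ hm]
  refine le_trans (le_of_eq ?_) (h e M f hM hf A hA hAt)
  refine lintegral_congr fun y => ?_
  rw [Ex_eq, inner_repr_symm, inner_repr_symm]

end Pool.Agent.H972PB
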