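import Mathlib
import Pool.Agent.helper972_pb.C2
set_option autoImplicit false

/-! The slab estimate in all dimensions. -/

namespace Pool.Agent.H972PB

open MeasureTheory Complex Set Filter Topology
open scoped ENNReal RealInnerProductSpace ComplexConjugate
open Pool.Agent.R412.RT (E ee ee_norm ee_add ee_conj ee_meas ee_cont Phi Nn Nn_cast Nn_last
  Ex Ex_eq Ex_meas inner_eq)
open Pool.Agent.R412.RS (Vd slabE Nn_cont Phi_cont)
open Pool.Agent.R412.RH (Gs Gs_meas Gs_int ker_le sq3)
open Pool.Agent.H972PL (affine_lint)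

variable {N : ℕ}

/-- the normal component -/
noncomputable def Jv (v : E (N + 2)) (x : E (N + 1)) : ℝ := ⟪v, Nn x⟫

theorem Jv_eq (v : E (N + 2)) (x : E (N + 1)) :
    Jv v x = v (Fin.last (N + 1)) + ∑ i, (-(2 * v i.castSucc)) * x i := by
  unfold Jv
  rw [inner_eq, Fin.sum_univ_castSucc]
  simp only [Nn_cast, Nn_last, mul_one]
  rw [add_comm]
  congr 1
  refine Finset.sum_congr rfl fun j _ => ?_
  ring

theorem Jv_cont (v : E (N + 2)) : Continuous (Jv v) := by
  unfold Jv
  exact continuous_const.inner Nn_cont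

/-- the constant of the averaging estimate -/
noncomputable def An (N : ℕ) : ℝ := 4 ^ (N + 1) * ((N : ℝ) + 1)

theorem An_pos (N : ℕ) : 0 < An N := by unfold An; positivity

/-- integration of functions of the normal component -/
theorem avgJ (v : E (N + 2)) (hv : ‖v‖ = 1) (G : ℝ → ℝ≥0∞) (hG : Measurable G) (S : ℝ≥0∞)
    (hS : ∀ w, 2 / 5 ≤ |w| → G w ≤ S) :
    ∫⁻ x : E (N + 1), BQ x * G (Jv v x) ≤ ENNReal.ofReal (An N) * ((∫⁻ w, G w) + S) := by
  have hN : (0 : ℝ) < (N : ℝ) + 1 := by positivity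
  have hN1 : (1 : ℝ) ≤ (N : ℝ) + 1 := by
    have : (0 : ℝ) ≤ N := Nat.cast_nonneg N
    linarith
  obtain ⟨i0, hi0⟩ := exists_max fun i : Fin (N + 1) => v i.castSucc
  set m : ℝ := |v i0.castSucc| with hm
  have hn : ∑ i : Fin (N + 1), v i.castSucc ^ 2 + v (Fin.last (N + 1)) ^ 2 = 1 := by
    have h2 : ‖v‖ ^ 2 = 1 := by rw [hv]; norm_num
    rw [EuclideanSpace.norm_sq_eq, Fin.sum_univ_castSucc] at h2
    simp only [Real.norm_eq_abs, sq_abs] at h2
    exact h2
  rcases le_or_gt (1 / (4 * ((N : ℝ) + 1))) m with h | h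
  · have hm0 : 0 < m := lt_of_lt_of_le (by positivity) h
    have hc : -(2 * v i0.castSucc) ≠ 0 := by
      intro h0
      have : v i0.castSucc = 0 := by linarith
      rw [hm, this, abs_zero] at hm0
      exact lt_irrefl _ hm0
    have h1 := line_int G hG (v (Fin.last (N + 1))) (fun i => -(2 * v i.castSucc)) i0 hc
    simp_rw [Jv_eq]
    refine h1.trans ?_
    refine mul_le_mul' ?_ le_self_add
    have e1 : |-(2 * v i0.castSucc)| = 2 * m := by rw [abs_neg, abs_mul, abs_two]
    rw [e1, ← ENNReal.ofReal_inv_of_pos (by positivity), ← ENNReal.ofReal_ofNat,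
      ← ENNReal.ofReal_pow (by norm_num), ← ENNReal.ofReal_mul (by positivity)]
    refine ENNReal.ofReal_le_ofReal ?_
    have e2 : (2 * m)⁻¹ ≤ 2 * ((N : ℝ) + 1) := by
      rw [inv_le_comm₀ (by positivity) (by positivity)]
      calc (2 * ((N : ℝ) + 1))⁻¹ = 2 * (1 / (4 * ((N : ℝ) + 1))) := by
            field_simp
            norm_num
        _ ≤ 2 * m := by linarith
    calc (2 : ℝ) ^ N * (2 * m)⁻¹ ≤ 2 ^ N * (2 * ((N : ℝ) + 1)) :=
          mul_le_mul_of_nonneg_left e2 (by positivity)
      _ = 2 ^ (N + 1) * ((N : ℝ) + 1) := by ring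
      _ ≤ An N := by
          unfold An
          refine mul_le_mul_of_nonneg_right ?_ hN.le
          exact pow_le_pow_left₀ (by norm_num) (by norm_num) _
  · have c2 : 96 / 100 ≤ |v (Fin.last (N + 1))| := by
      by_contra hcc
      push Not at hcc
      have e0 : ∑ i : Fin (N + 1), v i.castSucc ^ 2 ≤ ((N : ℝ) + 1) * m ^ 2 := by
        calc ∑ i : Fin (N + 1), v i.castSucc ^ 2 ≤ ∑ _i : Fin (N + 1), m ^ 2 := by
              refine Finset.sum_le_sum fun i _ => ?_
              rw [← sq_abs]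
              exact pow_le_pow_left₀ (abs_nonneg _) (hi0 i) 2
          _ = _ := by
              rw [Finset.sum_const, Finset.card_univ, Fintype.card_fin, nsmul_eq_mul]
              push_cast
              ring
      have e1 : ((N : ℝ) + 1) * m ^ 2 ≤ 1 / 16 := by
        have e3 : ((N : ℝ) + 1) * m ≤ 1 / 4 := by
          have := h.le
          rw [le_div_iff₀ (by positivity)] at this
          linarith
        have e4 : m ≤ 1 / 4 := by
          refine h.le.trans ?_
          rw [div_le_div_iff₀ (by positivity) (by norm_num)]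
          linarith
        have m0 : 0 ≤ m := abs_nonneg _
        nlinarith
      have e2 : v (Fin.last (N + 1)) ^ 2 < (96 / 100) ^ 2 := by
        rw [← sq_abs]
        exact pow_lt_pow_left₀ hcc (abs_nonneg _) two_ne_zero
      nlinarith
    calc ∫⁻ x : E (N + 1), BQ x * G (Jv v x) ≤ ∫⁻ x : E (N + 1), BQ x * S := by
          refine lintegral_mono fun x => ?_
          by_cases hx : x ∈ Q (N + 1)
          · refine mul_le_mul_right (hS _ ?_) _
            rw [Jv_eq]
            have t0 : |∑ i, (-(2 * v i.castSucc)) * x i| ≤ 1 / 2 := by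
              refine (Finset.abs_sum_le_sum_abs _ _).trans ?_
              calc ∑ i, |(-(2 * v i.castSucc)) * x i| ≤ ∑ _i : Fin (N + 1), 2 * m := by
                    refine Finset.sum_le_sum fun i _ => ?_
                    rw [abs_mul, abs_neg, abs_mul, abs_two]
                    have := hi0 i
                    have := hx i
                    nlinarith [abs_nonneg (v i.castSucc), abs_nonneg (x i)]
                _ = ((N : ℝ) + 1) * (2 * m) := by
                    rw [Finset.sum_const, Finset.card_univ, Fintype.card_fin, nsmul_eq_mul]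
                    push_cast
                    ring
                _ ≤ 1 / 2 := by
                    have := h.le
                    rw [le_div_iff₀ (by positivity)] at this
                    linarith
            have t2 : |v (Fin.last (N + 1))| ≤
                |v (Fin.last (N + 1)) + ∑ i, (-(2 * v i.castSucc)) * x i| +
                |∑ i, (-(2 * v i.castSucc)) * x i| := by
              have := abs_sub (v (Fin.last (N + 1)) + ∑ i, (-(2 * v i.castSucc)) * x i)
                (∑ i, (-(2 * v i.castSucc)) * x i)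
              rwa [add_sub_cancel_right] at this
            linarith
          · have : BQ x = 0 := by unfold BQ; rw [indicator_of_notMem hx]
            rw [this, zero_mul, zero_mul]
      _ = (∫⁻ x : E (N + 1), BQ x) * S := lintegral_mul_const _ BQ_meas
      _ ≤ _ := by
          rw [BQ_int]
          refine mul_le_mul' ?_ le_add_self
          rw [← ENNReal.ofReal_ofNat, ← ENNReal.ofReal_pow (by norm_num)]
          refine ENNReal.ofReal_le_ofReal ?_
          unfold An
          calc (2 : ℝ) ^ (N + 1) ≤ 4 ^ (N + 1) := pow_le_pow_left₀ (by norm_num) (by norm_num) _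
            _ ≤ 4 ^ (N + 1) * ((N : ℝ) + 1) := le_mul_of_one_le_right (by positivity) hN1

/-- small normal component -/
theorem small_J (v : E (N + 2)) (hv : ‖v‖ = 1) (lam : ℝ) (hlam : 0 < lam) :
    ∫⁻ x : E (N + 1), BQ x * {w : ℝ | |w| ≤ lam}.indicator 1 (Jv v x) ≤
      ENNReal.ofReal (An N * (5 * lam)) := by
  have hSm : MeasurableSet {w : ℝ | |w| ≤ lam} := measurableSet_le (by fun_prop) measurable_const
  refine (avgJ v hv ({w : ℝ | |w| ≤ lam}.indicator 1) (measurable_one.indicator hSm)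
    (ENNReal.ofReal (5 / 2 * lam)) ?_).trans ?_
  · intro w hw
    by_cases h : w ∈ {w : ℝ | |w| ≤ lam}
    · rw [indicator_of_mem h, Pi.one_apply, ← ENNReal.ofReal_one]
      refine ENNReal.ofReal_le_ofReal ?_
      have h' : |w| ≤ lam := h
      linarith
    · rw [indicator_of_notMem h]
      exact zero_le
  · rw [lintegral_indicator_one hSm]
    have hvv : volume {w : ℝ | |w| ≤ lam} = ENNReal.ofReal (2 * lam) := by
      have : {w : ℝ | |w| ≤ lam} = Icc (-lam) lam := by
        ext w
        rw [mem_Icc, ← abs_le]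
        rfl
      rw [this, Real.volume_Icc]
      congr 1
      ring
    rw [hvv, ← ENNReal.ofReal_add (by positivity) (by positivity),
      ← ENNReal.ofReal_mul (An_pos N).le]
    refine ENNReal.ofReal_le_ofReal ?_
    exact mul_le_mul_of_nonneg_left (by linarith) (An_pos N).le

/-- the singular integral -/
theorem sing_J (v : E (N + 2)) (hv : ‖v‖ = 1) (η : ℝ) (hη : 0 < η) (hη1 : η < 1) (σ : ℝ)
    (hσ : |σ| = 1) :
    ∫⁻ x : E (N + 1), BQ x * (Gs η (σ * Jv v x) + 1) ≤
      ENNReal.ofReal (An N * (1 / η + 5 / 2) + 2 ^ (N + 1)) := by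
  have hGm : Measurable fun w : ℝ => Gs η (σ * w) := (Gs_meas η).comp (by fun_prop)
  have hσ0 : σ ≠ 0 := by
    intro h
    rw [h, abs_zero] at hσ
    norm_num at hσ
  have h1 : ∫⁻ x : E (N + 1), BQ x * (fun w => Gs η (σ * w)) (Jv v x) ≤
      ENNReal.ofReal (An N) * (ENNReal.ofReal (1 / η) + ENNReal.ofReal (5 / 2)) := by
    refine (avgJ v hv (fun w => Gs η (σ * w)) hGm (ENNReal.ofReal (5 / 2)) ?_).trans (le_of_eq ?_)
    · intro w hw
      unfold Gs
      by_cases h : σ * w ∈ Ioc (0 : ℝ) 1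
      · rw [indicator_of_mem h]
        refine ENNReal.ofReal_le_ofReal ?_
        have e1 : σ * w = |w| := by
          rw [← abs_of_pos h.1, abs_mul, hσ, one_mul]
        rw [e1]
        have e2 : |w| ^ (η - 1) ≤ (2 / 5 : ℝ) ^ (η - 1) :=
          Real.rpow_le_rpow_of_nonpos (by norm_num) hw (by linarith)
        have e3 : (2 / 5 : ℝ) ^ (η - 1) ≤ (2 / 5 : ℝ) ^ (-1 : ℝ) :=
          Real.rpow_le_rpow_of_exponent_ge (by norm_num) (by norm_num) (by linarith)
        refine e2.trans (e3.trans (le_of_eq ?_))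
        rw [Real.rpow_neg_one]
        norm_num
      · rw [indicator_of_notMem h]
        exact zero_le
    · congr 2
      have h5 := affine_lint (Gs η) (Gs_meas η) 0 σ hσ0
      simp only [zero_add] at h5
      rw [h5, hσ, ENNReal.ofReal_one, inv_one, one_mul, Gs_int η hη]
  have h2 : ∀ x : E (N + 1), BQ x * (Gs η (σ * Jv v x) + 1) =
      BQ x * (fun w => Gs η (σ * w)) (Jv v x) + BQ x := by
    intro x
    simp only
    rw [mul_add, mul_one]
  simp_rw [h2]
  rw [lintegral_add_right _ BQ_meas, BQ_int]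
  have hA := An_pos N
  calc _ ≤ (ENNReal.ofReal (An N) * (ENNReal.ofReal (1 / η) + ENNReal.ofReal (5 / 2))) +
        2 ^ (N + 1) := add_le_add_left h1 _
    _ = _ := by
      rw [← ENNReal.ofReal_add (by positivity) (by positivity), ← ENNReal.ofReal_mul hA.le,
        ← ENNReal.ofReal_ofNat 2, ← ENNReal.ofReal_pow (by norm_num),
        ← ENNReal.ofReal_add (by positivity) (by positivity)]

/-! ### the pieces -/

/-- the part where the normal component is large, with sign `σ` -/
noncomputable def gp (v : E (N + 2)) (f : E (N + 1) → ℂ) (lam σ : ℝ) (x : E (N + 1)) : ℂ :=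
  {x | lam < σ * Jv v x}.indicator f x

/-- the part where the normal component is small -/
noncomputable def gz (v : E (N + 2)) (f : E (N + 1) → ℂ) (lam : ℝ) (x : E (N + 1)) : ℂ :=
  {x | |Jv v x| ≤ lam}.indicator f x

variable (v : E (N + 2))

theorem gp_set (lam σ : ℝ) : MeasurableSet {x : E (N + 1) | lam < σ * Jv v x} :=
  measurableSet_lt measurable_const ((Jv_cont v).measurable.const_mul σ)

theorem gz_set (lam : ℝ) : MeasurableSet {x : E (N + 1) | |Jv v x| ≤ lam} :=
  measurableSet_le (Jv_cont v).abs.measurable measurable_const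

theorem gp_nice {M : ℝ} {f : E (N + 1) → ℂ} (h : NC M f) (lam σ : ℝ) : NC M (gp v f lam σ) where
  meas := h.meas.indicator (gp_set v lam σ)
  bd x := (norm_indicator_le_norm_self _ _).trans (h.bd x)
  supp x hx := by
    unfold gp
    by_cases h1 : x ∈ {x | lam < σ * Jv v x}
    · rw [indicator_of_mem h1]; exact h.supp x hx
    · rw [indicator_of_notMem h1]

theorem gz_nice {M : ℝ} {f : E (N + 1) → ℂ} (h : NC M f) (lam : ℝ) : NC M (gz v f lam) where
  meas := h.meas.indicator (gz_set v lam)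
  bd x := (norm_indicator_le_norm_self _ _).trans (h.bd x)
  supp x hx := by
    unfold gz
    by_cases h1 : x ∈ {x | |Jv v x| ≤ lam}
    · rw [indicator_of_mem h1]; exact h.supp x hx
    · rw [indicator_of_notMem h1]

theorem g_sum (f : E (N + 1) → ℂ) (lam : ℝ) (hlam : 0 < lam) (x : E (N + 1)) :
    f x = gz v f lam x + gp v f lam 1 x + gp v f lam (-1) x := by
  unfold gz gp
  set J := Jv v x with hJ
  rcases le_or_gt |J| lam with h | h
  · have h1 : x ∈ {x | |Jv v x| ≤ lam} := h
    have h2 : x ∉ {x | lam < 1 * Jv v x} := fun h3 => by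
      have h4 : lam < 1 * J := h3
      rw [one_mul] at h4
      linarith [le_abs_self J]
    have h3 : x ∉ {x | lam < -1 * Jv v x} := fun h3 => by
      have h4 : lam < -1 * J := h3
      linarith [neg_le_abs J]
    rw [indicator_of_mem h1, indicator_of_notMem h2, indicator_of_notMem h3]
    ring
  · have h1 : x ∉ {x | |Jv v x| ≤ lam} := fun h3 => by
      have h4 : |J| ≤ lam := h3
      linarith
    rcases le_or_gt 0 J with h0 | h0
    · rw [abs_of_nonneg h0] at h
      have h2 : x ∈ {x | lam < 1 * Jv v x} := by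
        show lam < 1 * J
        linarith
      have h3 : x ∉ {x | lam < -1 * Jv v x} := fun h3 => by
        have h4 : lam < -1 * J := h3
        linarith
      rw [indicator_of_notMem h1, indicator_of_mem h2, indicator_of_notMem h3]
      ring
    · rw [abs_of_neg h0] at h
      have h2 : x ∉ {x | lam < 1 * Jv v x} := fun h3 => by
        have h4 : lam < 1 * J := h3
        linarith
      have h3 : x ∈ {x | lam < -1 * Jv v x} := by
        show lam < -1 * J
        linarith
      rw [indicator_of_notMem h1, indicator_of_notMem h2, indicator_of_mem h3]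
      ring

theorem Ex_sup (g : E (N + 1) → ℂ) (ξ : E (N + 2)) : ‖Ex g ξ‖ₑ ≤ ∫⁻ x, ‖g x‖ₑ := by
  unfold Ex
  refine (enorm_integral_le_lintegral_enorm _).trans (le_of_eq ?_)
  refine lintegral_congr fun x => ?_
  rw [enorm_mul, ← ofReal_norm (ee _), ee_norm, ENNReal.ofReal_one, one_mul]

theorem triv_est (g : E (N + 1) → ℂ) (K : ℝ≥0∞) (hK : ∫⁻ x, ‖g x‖ₑ ≤ K) (T : Set (E (N + 2))) :
    ∫⁻ ξ in T, ‖Ex g ξ‖ₑ ^ 2 ≤ K ^ 2 * volume T := by
  calc ∫⁻ ξ in T, ‖Ex g ξ‖ₑ ^ 2 ≤ ∫⁻ _ξ in T, K ^ 2 := by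
        refine lintegral_mono fun y => ?_
        exact pow_le_pow_left' ((Ex_sup g y).trans hK) 2
    _ = _ := by rw [setLIntegral_const]

theorem enorm_ind {M : ℝ} {f : E (N + 1) → ℂ} (hf : NC M f) (S : Set (E (N + 1)))
    (x : E (N + 1)) :
    ‖S.indicator f x‖ₑ ≤ ENNReal.ofReal M * (BQ x * S.indicator (1 : E (N + 1) → ℝ≥0∞) x) := by
  by_cases hS : x ∈ S
  · rw [indicator_of_mem hS, indicator_of_mem hS, Pi.one_apply, mul_one]
    exact enorm_le hf x
  · rw [indicator_of_notMem hS, enorm_zero]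
    exact zero_le

theorem f_int {M : ℝ} {f : E (N + 1) → ℂ} (hf : NC M f) :
    ∫⁻ x, ‖f x‖ₑ ≤ ENNReal.ofReal M * 2 ^ (N + 1) := by
  calc ∫⁻ x, ‖f x‖ₑ ≤ ∫⁻ x, ENNReal.ofReal M * BQ x := lintegral_mono fun x => enorm_le hf x
    _ ≤ _ := by
        rw [lintegral_const_mul _ BQ_meas, BQ_int]

theorem gz_int {M : ℝ} {f : E (N + 1) → ℂ} (hv : ‖v‖ = 1) (hf : NC M f) (lam : ℝ)
    (hlam : 0 < lam) :
    ∫⁻ x, ‖gz v f lam x‖ₑ ≤ ENNReal.ofReal M * ENNReal.ofReal (An N * (5 * lam)) := by
  have hm : Measurable fun x : E (N + 1) => BQ x * {w : ℝ | |w| ≤ lam}.indicator 1 (Jv v x) := by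
    refine BQ_meas.mul ((measurable_one.indicator ?_).comp (Jv_cont v).measurable)
    exact measurableSet_le (by fun_prop) measurable_const
  calc ∫⁻ x, ‖gz v f lam x‖ₑ
      ≤ ∫⁻ x, ENNReal.ofReal M * (BQ x * {w : ℝ | |w| ≤ lam}.indicator 1 (Jv v x)) :=
        lintegral_mono fun x => enorm_ind hf {x | |Jv v x| ≤ lam} x
    _ ≤ _ := by
        rw [lintegral_const_mul _ hm]
        exact mul_le_mul_right (small_J v hv lam hlam) _

/-- the constant of the singular integral -/
noncomputable def Sc (N : ℕ) (η : ℝ) : ℝ := An N * (1 / η + 5 / 2) + 2 ^ (N + 1)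

theorem gp_sq {M : ℝ} {f : E (N + 1) → ℂ} (hv : ‖v‖ = 1) (hM : 0 ≤ M) (hf : NC M f) (η : ℝ)
    (hη : 0 < η) (hη1 : η < 1) (lam : ℝ) (hlam : 0 < lam) (σ : ℝ) (hσ : |σ| = 1) :
    ∫⁻ x, ‖gp v f lam σ x‖ₑ ^ 2 / ENNReal.ofReal |⟪v, Nn x⟫| ≤
      ENNReal.ofReal (M ^ 2 * lam ^ (-η) * Sc N η) := by
  have hm : Measurable fun x : E (N + 1) => BQ x * (Gs η (σ * Jv v x) + 1) := by
    refine BQ_meas.mul (Measurable.add ((Gs_meas η).comp ?_) measurable_const)
    exact (Jv_cont v).measurable.const_mul σ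
  calc ∫⁻ x, ‖gp v f lam σ x‖ₑ ^ 2 / ENNReal.ofReal |⟪v, Nn x⟫|
      ≤ ∫⁻ x, ENNReal.ofReal (M ^ 2 * lam ^ (-η)) * (BQ x * (Gs η (σ * Jv v x) + 1)) := by
        refine lintegral_mono fun x => ?_
        by_cases hx : x ∈ {x | lam < σ * Jv v x}
        · have hx' : lam < σ * Jv v x := hx
          have hJ : |⟪v, Nn x⟫| = σ * Jv v x := by
            have : ⟪v, Nn x⟫ = Jv v x := rfl
            rw [this, ← abs_of_pos (hlam.trans hx'), abs_mul, hσ, one_mul]
          have h1 := enorm_ind hf {x | lam < σ * Jv v x} x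
          rw [indicator_of_mem hx (1 : E (N + 1) → ℝ≥0∞), Pi.one_apply, mul_one] at h1
          rw [div_eq_mul_one_div, hJ]
          calc ‖gp v f lam σ x‖ₑ ^ 2 * (1 / ENNReal.ofReal (σ * Jv v x))
              ≤ (ENNReal.ofReal M * BQ x) ^ 2 *
                (ENNReal.ofReal (lam ^ (-η)) * (Gs η (σ * Jv v x) + 1)) :=
                mul_le_mul' (pow_le_pow_left' h1 2) (ker_le η lam _ hη hη1 hlam hx')
            _ = ENNReal.ofReal (M ^ 2 * lam ^ (-η)) * (BQ x ^ 2 * (Gs η (σ * Jv v x) + 1)) := by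
                rw [ENNReal.ofReal_mul (by positivity), ENNReal.ofReal_pow hM]
                ring
            _ ≤ _ := by
                refine mul_le_mul_right (mul_le_mul_left ?_ _) _
                rw [sq]
                calc BQ x * BQ x ≤ BQ x * 1 := mul_le_mul_right (BQ_le x) _
                  _ = _ := mul_one _
        · have : gp v f lam σ x = 0 := by
            unfold gp
            rw [indicator_of_notMem hx]
          rw [this, enorm_zero]
          simp
    _ ≤ _ := by
        rw [lintegral_const_mul _ hm, ENNReal.ofReal_mul (p := M ^ 2 * lam ^ (-η)) (by positivity)]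
        exact mul_le_mul_right (sing_J v hv η hη hη1 σ hσ) _

theorem Ex_add3 (f g h k : E (N + 1) → ℂ) (hg : Integrable g) (hh : Integrable h)
    (hk : Integrable k) (hf : ∀ x, f x = g x + h x + k x) (ξ : E (N + 2)) :
    Ex f ξ = Ex g ξ + Ex h ξ + Ex k ξ := by
  have hb : ∀ g : E (N + 1) → ℂ, Integrable g → Integrable fun x => ee ⟪Phi x, ξ⟫ * g x := by
    intro g hg
    refine hg.bdd_mul (c := 1) ?_ (Eventually.of_forall fun x => (ee_norm _).le)
    exact (ee_meas.comp (Phi_cont.inner continuous_const).measurable).aestronglyMeasurable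
  have e1 : ∫ x, (ee ⟪Phi x, ξ⟫ * g x + ee ⟪Phi x, ξ⟫ * h x) =
      (∫ x, ee ⟪Phi x, ξ⟫ * g x) + ∫ x, ee ⟪Phi x, ξ⟫ * h x := integral_add (hb g hg) (hb h hh)
  have e2 : ∫ x, ((ee ⟪Phi x, ξ⟫ * g x + ee ⟪Phi x, ξ⟫ * h x) + ee ⟪Phi x, ξ⟫ * k x) =
      (∫ x, (ee ⟪Phi x, ξ⟫ * g x + ee ⟪Phi x, ξ⟫ * h x)) + ∫ x, ee ⟪Phi x, ξ⟫ * k x :=
    integral_add ((hb g hg).add (hb h hh)) (hb k hk)
  unfold Ex
  rw [← e1, ← e2]
  congr 1
  ext x
  rw [hf x]
  ring

end Pool.Agent.H972PB
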