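import Mathlib
import Pool.Agent.helper972_pb.S
set_option autoImplicit false

/-! The slab estimate in all dimensions: the theorem; the interpolation in real numbers. -/

namespace Pool.Agent.H972PB

open MeasureTheory Complex Set Filter Topology
open scoped ENNReal RealInnerProductSpace ComplexConjugate
open Pool.Agent.R412.RT (E ee ee_norm ee_add ee_conj ee_meas ee_cont Phi Nn Nn_cast Nn_last
  Ex Ex_eq Ex_meas inner_eq)
open Pool.Agent.R412.RS (Vd slabE Nn_cont Phi_cont)
open Pool.Agent.R412.RH (Gs Gs_meas Gs_int ker_le sq3)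

variable {N : ℕ}

theorem Sc_pos (N : ℕ) (η : ℝ) (hη : 0 < η) : 0 < Sc N η := by
  have := An_pos N
  unfold Sc
  positivity

/-- **the slab estimate** -/
theorem slabT (N : ℕ) (η : ℝ) (hη : 0 < η) (hη1 : η < 1) : ∃ C : ℝ, 0 < C ∧
    ∀ v : E (N + 2), ‖v‖ = 1 → ∀ (M : ℝ) (f : E (N + 1) → ℂ), 0 ≤ M → NC M f →
    ∀ (B : Set ℝ) (T : Set (E (N + 2))), MeasurableSet B → MeasurableSet T →
    (∀ ξ ∈ T, ⟪v, ξ⟫ ∈ B) → ∀ b V : ℝ, 0 < b → 0 < V → volume B = ENNReal.ofReal b →
    volume T ≤ ENNReal.ofReal V →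
    ∫⁻ ξ in T, ‖Ex f ξ‖ₑ ^ 2 ≤ ENNReal.ofReal (C * M ^ 2 * (b ^ (1 - η / 2) * V ^ (η / 2))) := by
  have hA := An_pos N
  have hS := Sc_pos N η hη
  have hCpos : 0 < 3 * (25 * An N ^ 2 + 2 * Sc N η) + 4 ^ (N + 1) := by positivity
  refine ⟨3 * (25 * An N ^ 2 + 2 * Sc N η) + 4 ^ (N + 1), hCpos,
    fun v hv M f hM hf B T hB hT hTB b V hb hV hBb hTV => ?_⟩
  have hbV : 0 < b ^ (1 - η / 2) * V ^ (η / 2) := by positivity
  rcases le_or_gt V b with hVb | hVb
  · refine (triv_est f _ (f_int hf) T).trans ?_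
    have e1 : V ≤ b ^ (1 - η / 2) * V ^ (η / 2) := by
      calc V = V ^ (1 - η / 2) * V ^ (η / 2) := by
            rw [← Real.rpow_add hV]
            have : 1 - η / 2 + η / 2 = 1 := by ring
            rw [this, Real.rpow_one]
        _ ≤ _ := by
            refine mul_le_mul_of_nonneg_right ?_ (by positivity)
            exact Real.rpow_le_rpow hV.le hVb (by linarith)
    calc (ENNReal.ofReal M * 2 ^ (N + 1)) ^ 2 * volume T
        ≤ ENNReal.ofReal (4 ^ (N + 1) * M ^ 2) * ENNReal.ofReal V := by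
          refine mul_le_mul' (le_of_eq ?_) hTV
          rw [ENNReal.ofReal_mul (by positivity), ENNReal.ofReal_pow hM,
            ENNReal.ofReal_pow (by norm_num), ENNReal.ofReal_ofNat, mul_pow, mul_comm, ← pow_mul,
            mul_comm (N + 1) 2, pow_mul]
          norm_num
      _ = ENNReal.ofReal (4 ^ (N + 1) * M ^ 2 * V) := by
          rw [← ENNReal.ofReal_mul (by positivity)]
      _ ≤ _ := by
          refine ENNReal.ofReal_le_ofReal ?_
          refine mul_le_mul (mul_le_mul_of_nonneg_right ?_ (by positivity)) e1 hV.le (by positivity)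
          have : 0 ≤ 3 * (25 * An N ^ 2 + 2 * Sc N η) := by positivity
          linarith
  · have hVb1 : 1 < V / b := by rwa [one_lt_div hb]
    have hVb0 : 0 < V / b := by positivity
    set lam : ℝ := (V / b) ^ (-(1 / 2) : ℝ) with hlam
    have hlam0 : 0 < lam := by positivity
    have hn0 := gz_nice v hf lam
    have hnp := gp_nice v hf lam 1
    have hnm := gp_nice v hf lam (-1)
    have hsum : ∀ ξ, ‖Ex f ξ‖ₑ ^ 2 ≤ 3 * (‖Ex (gz v f lam) ξ‖ₑ ^ 2 +
        ‖Ex (gp v f lam 1) ξ‖ₑ ^ 2 + ‖Ex (gp v f lam (-1)) ξ‖ₑ ^ 2) := by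
      intro ξ
      rw [Ex_add3 f _ _ _ hn0.integrable hnp.integrable hnm.integrable (g_sum v f lam hlam0)]
      refine (pow_le_pow_left' ((enorm_add_le _ _).trans (add_le_add_left (enorm_add_le _ _) _))
        2).trans (sq3 _ _ _)
    have hm : ∀ g : E (N + 1) → ℂ, Integrable g → Measurable fun ξ => ‖Ex g ξ‖ₑ ^ 2 :=
      fun g hg => (Ex_meas g hg.1).enorm.pow_const 2
    have hb1 : b ≤ b ^ (1 - η / 2) * V ^ (η / 2) := by
      calc b = b ^ (1 - η / 2) * b ^ (η / 2) := by
            rw [← Real.rpow_add hb]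
            have : 1 - η / 2 + η / 2 = 1 := by ring
            rw [this, Real.rpow_one]
        _ ≤ _ := by
            refine mul_le_mul_of_nonneg_left ?_ (by positivity)
            exact Real.rpow_le_rpow hb.le hVb.le (by positivity)
    have hI : ∫⁻ ξ in T, ‖Ex (gz v f lam) ξ‖ₑ ^ 2 ≤
        ENNReal.ofReal (25 * An N ^ 2 * M ^ 2 * (b ^ (1 - η / 2) * V ^ (η / 2))) := by
      refine (triv_est _ _ (gz_int v hv hf lam hlam0) T).trans ?_
      rw [← ENNReal.ofReal_mul hM, ← ENNReal.ofReal_pow (by positivity)]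
      refine (mul_le_mul_right hTV _).trans ?_
      rw [← ENNReal.ofReal_mul (by positivity)]
      refine ENNReal.ofReal_le_ofReal ?_
      have h1 : lam ^ 2 * V = b := by
        rw [hlam, ← Real.rpow_natCast, ← Real.rpow_mul hVb0.le]
        have : (-(1 / 2) : ℝ) * ((2 : ℕ) : ℝ) = -1 := by norm_num
        rw [this, Real.rpow_neg_one]
        field_simp
      calc (M * (An N * (5 * lam))) ^ 2 * V = 25 * An N ^ 2 * M ^ 2 * (lam ^ 2 * V) := by ring
        _ ≤ _ := by
            rw [h1]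
            exact mul_le_mul_of_nonneg_left hb1 (by positivity)
    have hII : ∀ σ : ℝ, |σ| = 1 → ∫⁻ ξ in T, ‖Ex (gp v f lam σ) ξ‖ₑ ^ 2 ≤
        ENNReal.ofReal (Sc N η * M ^ 2 * (b ^ (1 - η / 2) * V ^ (η / 2))) := by
      intro σ hσ
      have hng := gp_nice v hf lam σ
      have hv0 : v ≠ 0 := by
        intro h
        rw [h, norm_zero] at hv
        norm_num at hv
      have h1 := slabE v hv0 σ (B.indicator 1) (measurable_one.indicator hB) (gp v f lam σ)
        hng.integrable (fun x hx => by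
          unfold gp
          rw [indicator_of_notMem]
          intro h
          have h' : lam < σ * Jv v x := h
          exact hx (hlam0.trans h'))
      rw [lintegral_indicator_one hB] at h1
      calc ∫⁻ ξ in T, ‖Ex (gp v f lam σ) ξ‖ₑ ^ 2
          ≤ ∫⁻ ξ : E (N + 2), B.indicator 1 ⟪v, ξ⟫ * ‖Ex (gp v f lam σ) ξ‖ₑ ^ 2 := by
            rw [← lintegral_indicator hT]
            refine lintegral_mono fun ξ => ?_
            by_cases hξ : ξ ∈ T
            · rw [indicator_of_mem hξ, indicator_of_mem (hTB ξ hξ), Pi.one_apply, one_mul]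
            · rw [indicator_of_notMem hξ]
              exact zero_le
        _ ≤ _ := h1
        _ ≤ ENNReal.ofReal b * ENNReal.ofReal (M ^ 2 * lam ^ (-η) * Sc N η) := by
            rw [hBb]
            exact mul_le_mul_right (gp_sq v hv hM hf η hη hη1 lam hlam0 σ hσ) _
        _ = _ := by
            rw [← ENNReal.ofReal_mul hb.le]
            congr 1
            have e1 : lam ^ (-η) = (V / b) ^ (η / 2) := by
              rw [hlam, ← Real.rpow_mul hVb0.le]
              congr 1
              ring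
            have e2 : b * (V / b) ^ (η / 2) = b ^ (1 - η / 2) * V ^ (η / 2) := by
              rw [Real.div_rpow hV.le hb.le, Real.rpow_sub hb, Real.rpow_one]
              field_simp
            calc b * (M ^ 2 * lam ^ (-η) * Sc N η) = Sc N η * M ^ 2 * (b * lam ^ (-η)) := by ring
              _ = _ := by rw [e1, e2]
    calc ∫⁻ ξ in T, ‖Ex f ξ‖ₑ ^ 2
        ≤ ∫⁻ ξ in T, 3 * (‖Ex (gz v f lam) ξ‖ₑ ^ 2 + ‖Ex (gp v f lam 1) ξ‖ₑ ^ 2 +
          ‖Ex (gp v f lam (-1)) ξ‖ₑ ^ 2) := lintegral_mono fun ξ => hsum ξ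
      _ = 3 * ((∫⁻ ξ in T, ‖Ex (gz v f lam) ξ‖ₑ ^ 2) +
          (∫⁻ ξ in T, ‖Ex (gp v f lam 1) ξ‖ₑ ^ 2) +
          ∫⁻ ξ in T, ‖Ex (gp v f lam (-1)) ξ‖ₑ ^ 2) := by
          have m0 := hm _ hn0.integrable
          have m1 := hm _ hnp.integrable
          have m2 := hm _ hnm.integrable
          have m01 : Measurable fun ξ => ‖Ex (gz v f lam) ξ‖ₑ ^ 2 +
              ‖Ex (gp v f lam 1) ξ‖ₑ ^ 2 := m0.add m1
          have m012 : Measurable fun ξ => ‖Ex (gz v f lam) ξ‖ₑ ^ 2 +
              ‖Ex (gp v f lam 1) ξ‖ₑ ^ 2 + ‖Ex (gp v f lam (-1)) ξ‖ₑ ^ 2 := m01.add m2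
          rw [lintegral_const_mul _ m012, lintegral_add_left m01, lintegral_add_left m0]
      _ ≤ 3 * (ENNReal.ofReal (25 * An N ^ 2 * M ^ 2 * (b ^ (1 - η / 2) * V ^ (η / 2))) +
          ENNReal.ofReal (Sc N η * M ^ 2 * (b ^ (1 - η / 2) * V ^ (η / 2))) +
          ENNReal.ofReal (Sc N η * M ^ 2 * (b ^ (1 - η / 2) * V ^ (η / 2)))) :=
          mul_le_mul_right (add_le_add (add_le_add hI (hII 1 (by norm_num)))
            (hII (-1) (by norm_num))) _
      _ = ENNReal.ofReal (3 * (25 * An N ^ 2 * M ^ 2 * (b ^ (1 - η / 2) * V ^ (η / 2)) +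
          Sc N η * M ^ 2 * (b ^ (1 - η / 2) * V ^ (η / 2)) +
          Sc N η * M ^ 2 * (b ^ (1 - η / 2) * V ^ (η / 2)))) := by
          have q1 : 0 ≤ 25 * An N ^ 2 * M ^ 2 * (b ^ (1 - η / 2) * V ^ (η / 2)) := by positivity
          have q2 : 0 ≤ Sc N η * M ^ 2 * (b ^ (1 - η / 2) * V ^ (η / 2)) := by positivity
          rw [ENNReal.ofReal_mul (by norm_num) (p := 3), ENNReal.ofReal_add (add_nonneg q1 q2) q2,
            ENNReal.ofReal_add q1 q2, ENNReal.ofReal_ofNat]
      _ ≤ _ := by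
          refine ENNReal.ofReal_le_ofReal ?_
          have q3 : 0 ≤ 4 ^ (N + 1) * M ^ 2 * (b ^ (1 - η / 2) * V ^ (η / 2)) := by positivity
          nlinarith

/-- the interpolation, in real numbers -/
theorem log_interp {k m : ℕ} (I K c V τ ε g : ℝ) (a : Fin k → ℝ) (b : Fin m → ℝ)
    (x : Fin k → ℝ) (z : Fin m → ℝ) (hI : 0 < I) (hK : 0 < K) (hc : 0 < c)
    (ha : ∀ i, 0 < a i) (hb : ∀ j, 0 < b j) (hV : V = c * (∏ i, a i) * ∏ j, b j)
    (hτ : 0 < τ) (hε1 : ε < 1)
    (hP : ∀ i, I ≤ K * a i ^ τ) (hL : ∀ j, I ≤ K * (b j ^ (1 - ε) * V ^ ε)) (h0 : I ≤ K * V)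
    (hx : ∀ i, g ≤ x i) (hz : ∀ j, g ≤ z j)
    (ht : ε * ((∑ j, (z j - g)) / (1 - ε)) ≤ g)
    (hsum : (∑ i, (x i - g)) / τ + ∑ j, (z j - g) = 1 - g) :
    I ≤ K * c ^ g * (∏ i, a i ^ x i) * ∏ j, b j ^ z j := by
  have hprod : 0 < ∏ i, a i := Finset.prod_pos fun i _ => ha i
  have hprodb : 0 < ∏ j, b j := Finset.prod_pos fun j _ => hb j
  have hV0 : 0 < V := by rw [hV]; positivity
  have h1ε : 0 < 1 - ε := by linarith
  have lV : Real.log V = Real.log c + ∑ i, Real.log (a i) + ∑ j, Real.log (b j) := by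
    rw [hV, Real.log_mul (by positivity) (by positivity), Real.log_mul (by positivity) (by positivity),
      Real.log_prod fun i _ => (ha i).ne', Real.log_prod fun j _ => (hb j).ne']
  have lP : ∀ i, Real.log I ≤ Real.log K + τ * Real.log (a i) := by
    intro i
    have h1 := Real.log_le_log hI (hP i)
    have h2 := ha i
    rwa [Real.log_mul hK.ne' (by positivity), Real.log_rpow h2] at h1
  have lL : ∀ j, Real.log I ≤ Real.log K + ((1 - ε) * Real.log (b j) + ε * Real.log V) := by
    intro j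
    have h1 := Real.log_le_log hI (hL j)
    have h2 := hb j
    rwa [Real.log_mul hK.ne' (by positivity), Real.log_mul (by positivity) (by positivity),
      Real.log_rpow h2, Real.log_rpow hV0] at h1
  have l0 : Real.log I ≤ Real.log K + Real.log V := by
    have h1 := Real.log_le_log hI h0
    rwa [Real.log_mul hK.ne' hV0.ne'] at h1
  set SL : ℝ := ∑ j, (z j - g) with hSL
  set SP : ℝ := ∑ i, (x i - g) with hSP
  set t : ℝ := g - ε * (SL / (1 - ε)) with htd
  have ht0 : 0 ≤ t := by linarith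
  have htot : SP / τ + SL / (1 - ε) + t = 1 := by
    rw [htd]
    have : SL / (1 - ε) - ε * (SL / (1 - ε)) = SL := by
      field_simp
    linarith
  have s1 : SP / τ * Real.log I ≤ SP / τ * Real.log K + ∑ i, (x i - g) * Real.log (a i) := by
    have : ∀ i ∈ Finset.univ, (x i - g) / τ * Real.log I ≤
        (x i - g) / τ * Real.log K + (x i - g) * Real.log (a i) := by
      intro i _
      have h1 : 0 ≤ (x i - g) / τ := div_nonneg (by linarith [hx i]) hτ.le
      have h2 := mul_le_mul_of_nonneg_left (lP i) h1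
      have h3 : (x i - g) / τ * (τ * Real.log (a i)) = (x i - g) * Real.log (a i) := by
        field_simp
      calc _ ≤ _ := h2
        _ = _ := by rw [mul_add, h3]
    have h4 := Finset.sum_le_sum this
    rw [← Finset.sum_mul, Finset.sum_add_distrib, ← Finset.sum_mul, ← Finset.sum_div] at h4
    exact h4
  have s2 : SL / (1 - ε) * Real.log I ≤ SL / (1 - ε) * Real.log K +
      (∑ j, (z j - g) * Real.log (b j) + SL / (1 - ε) * (ε * Real.log V)) := by
    have : ∀ j ∈ Finset.univ, (z j - g) / (1 - ε) * Real.log I ≤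
        (z j - g) / (1 - ε) * Real.log K + ((z j - g) * Real.log (b j) +
          (z j - g) / (1 - ε) * (ε * Real.log V)) := by
      intro j _
      have h1 : 0 ≤ (z j - g) / (1 - ε) := div_nonneg (by linarith [hz j]) h1ε.le
      have h2 := mul_le_mul_of_nonneg_left (lL j) h1
      have h3 : (z j - g) / (1 - ε) * ((1 - ε) * Real.log (b j)) = (z j - g) * Real.log (b j) := by
        field_simp
      calc _ ≤ _ := h2
        _ = _ := by rw [mul_add, mul_add, h3]
    have h4 := Finset.sum_le_sum this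
    rw [← Finset.sum_mul, Finset.sum_add_distrib, Finset.sum_add_distrib, ← Finset.sum_mul,
      ← Finset.sum_mul, ← Finset.sum_div] at h4
    exact h4
  have s3 : t * Real.log I ≤ t * Real.log K + t * Real.log V := by
    have := mul_le_mul_of_nonneg_left l0 ht0
    rwa [mul_add] at this
  have key : Real.log I ≤ Real.log K + g * Real.log c + ∑ i, x i * Real.log (a i) +
      ∑ j, z j * Real.log (b j) := by
    have e1 : Real.log I = (SP / τ + SL / (1 - ε) + t) * Real.log I := by rw [htot, one_mul]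
    have e2 : (SP / τ + SL / (1 - ε) + t) * Real.log K = Real.log K := by rw [htot, one_mul]
    have e3 : SL / (1 - ε) * (ε * Real.log V) + t * Real.log V = g * Real.log V := by
      rw [htd]; ring
    have e4 : ∑ i, (x i - g) * Real.log (a i) =
        ∑ i, x i * Real.log (a i) - g * ∑ i, Real.log (a i) := by
      rw [Finset.mul_sum, ← Finset.sum_sub_distrib]
      exact Finset.sum_congr rfl fun i _ => by ring
    have e5 : ∑ j, (z j - g) * Real.log (b j) =
        ∑ j, z j * Real.log (b j) - g * ∑ j, Real.log (b j) := by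
      rw [Finset.mul_sum, ← Finset.sum_sub_distrib]
      exact Finset.sum_congr rfl fun i _ => by ring
    have e6 : g * Real.log V = g * Real.log c + g * ∑ i, Real.log (a i) +
        g * ∑ j, Real.log (b j) := by
      rw [lV]; ring
    rw [e1]
    rw [e4] at s1
    rw [e5] at s2
    nlinarith
  have hR : 0 < K * c ^ g * (∏ i, a i ^ x i) * ∏ j, b j ^ z j := by
    have p1 : 0 < ∏ i, a i ^ x i := Finset.prod_pos fun i _ => Real.rpow_pos_of_pos (ha i) _
    have p2 : 0 < ∏ j, b j ^ z j := Finset.prod_pos fun j _ => Real.rpow_pos_of_pos (hb j) _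
    positivity
  rw [← Real.log_le_log_iff hI hR]
  have p1 : 0 < ∏ i, a i ^ x i := Finset.prod_pos fun i _ => Real.rpow_pos_of_pos (ha i) _
  have p2 : 0 < ∏ j, b j ^ z j := Finset.prod_pos fun j _ => Real.rpow_pos_of_pos (hb j) _
  rw [Real.log_mul (by positivity) p2.ne', Real.log_mul (by positivity) p1.ne',
    Real.log_mul hK.ne' (by positivity), Real.log_rpow hc,
    Real.log_prod fun i _ => (Real.rpow_pos_of_pos (ha i) _).ne',
    Real.log_prod fun j _ => (Real.rpow_pos_of_pos (hb j) _).ne']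
  have e7 : ∀ i, Real.log (a i ^ x i) = x i * Real.log (a i) := fun i => Real.log_rpow (ha i) _
  have e8 : ∀ j, Real.log (b j ^ z j) = z j * Real.log (b j) := fun j => Real.log_rpow (hb j) _
  simp_rw [e7, e8]
  exact key

end Pool.Agent.H972PB
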