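import Mathlib
import Pool.Agent.helper972_pb.S2
set_option autoImplicit false

/-! Linear frames: volumes of products of planar and linear sets; the volume of the unit cell. -/

namespace Pool.Agent.H972PB

open MeasureTheory Set Filter Topology
open scoped ENNReal RealInnerProductSpace
open Pool.Agent.R412.RT (E inner_eq)
open Pool.Agent.R412.RS (co co_meas cell frame)

variable {n k m : ℕ}

/-- the product set in coordinates -/
def YS (σ : (Fin k ⊕ Fin k) ⊕ Fin m ≃ Fin n) (A : Fin k → Set (ℝ × ℝ)) (B : Fin m → Set ℝ) :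
    Set (Fin n → ℝ) :=
  {y | (∀ i, (y (σ (Sum.inl (Sum.inl i))), y (σ (Sum.inl (Sum.inr i)))) ∈ A i) ∧
    ∀ j, y (σ (Sum.inr j)) ∈ B j}

/-- the grouping of the coordinates -/
def grp (σ : (Fin k ⊕ Fin k) ⊕ Fin m ≃ Fin n) (y : Fin n → ℝ) : (Fin k → ℝ × ℝ) × (Fin m → ℝ) :=
  (fun i => (y (σ (Sum.inl (Sum.inl i))), y (σ (Sum.inl (Sum.inr i)))),
    fun j => y (σ (Sum.inr j)))

theorem grp_mp (σ : (Fin k ⊕ Fin k) ⊕ Fin m ≃ Fin n) :
    MeasurePreserving (grp σ) volume (volume.prod volume) := by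
  have ha : MeasurePreserving (fun y : Fin n → ℝ => fun s => y (σ s)) volume volume := by
    have := (volume_measurePreserving_piCongrLeft (fun _ : Fin n => ℝ) σ).symm
    exact this
  have hb : MeasurePreserving (fun y : (Fin k ⊕ Fin k) ⊕ Fin m → ℝ =>
      ((fun s => y (Sum.inl s) : Fin k ⊕ Fin k → ℝ), (fun j => y (Sum.inr j) : Fin m → ℝ)))
      volume (volume.prod volume) := by
    have := (volume_measurePreserving_sumPiEquivProdPi_symm
      (fun _ : (Fin k ⊕ Fin k) ⊕ Fin m => ℝ)).symm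
    exact this
  have hc : MeasurePreserving (fun y : Fin k ⊕ Fin k → ℝ =>
      ((fun s => y (Sum.inl s) : Fin k → ℝ), (fun j => y (Sum.inr j) : Fin k → ℝ)))
      volume (volume.prod volume) := by
    have := (volume_measurePreserving_sumPiEquivProdPi_symm
      (fun _ : Fin k ⊕ Fin k => ℝ)).symm
    exact this
  have hd : MeasurePreserving (fun p : (Fin k → ℝ) × (Fin k → ℝ) =>
      (fun i => (p.1 i, p.2 i) : Fin k → ℝ × ℝ)) (volume.prod volume) volume := by
    have := (volume_measurePreserving_arrowProdEquivProdArrow ℝ ℝ (Fin k)).symm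
    exact this
  have hcd := (hd.comp hc).prod (MeasurePreserving.id (volume : Measure (Fin m → ℝ)))
  exact (hcd.comp hb).comp ha

theorem YS_eq (σ : (Fin k ⊕ Fin k) ⊕ Fin m ≃ Fin n) (A : Fin k → Set (ℝ × ℝ))
    (B : Fin m → Set ℝ) : YS σ A B = grp σ ⁻¹' (Set.pi univ A ×ˢ Set.pi univ B) := by
  ext y
  simp only [YS, grp, mem_ofPred_eq, mem_preimage, mem_prod, mem_univ_pi]

theorem YS_meas (σ : (Fin k ⊕ Fin k) ⊕ Fin m ≃ Fin n) (A : Fin k → Set (ℝ × ℝ))
    (B : Fin m → Set ℝ) (hA : ∀ i, MeasurableSet (A i)) (hB : ∀ j, MeasurableSet (B j)) :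
    MeasurableSet (YS σ A B) := by
  rw [YS_eq]
  exact (grp_mp σ).measurable ((MeasurableSet.univ_pi hA).prod (MeasurableSet.univ_pi hB))

theorem YS_vol (σ : (Fin k ⊕ Fin k) ⊕ Fin m ≃ Fin n) (A : Fin k → Set (ℝ × ℝ))
    (B : Fin m → Set ℝ) (hA : ∀ i, MeasurableSet (A i)) (hB : ∀ j, MeasurableSet (B j)) :
    volume (YS σ A B) = (∏ i, volume (A i)) * ∏ j, volume (B j) := by
  rw [YS_eq, (grp_mp σ).measure_preimage
    ((MeasurableSet.univ_pi hA).prod (MeasurableSet.univ_pi hB)).nullMeasurableSet,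
    Measure.prod_prod, volume_pi_pi, volume_pi_pi]

variable {N : ℕ}

/-- the product set in the frame `v` -/
def TS (v : Fin (N + 2) → E (N + 2)) (σ : (Fin k ⊕ Fin k) ⊕ Fin m ≃ Fin (N + 2))
    (A : Fin k → Set (ℝ × ℝ)) (B : Fin m → Set ℝ) : Set (E (N + 2)) :=
  {ξ | (∀ i, (⟪v (σ (Sum.inl (Sum.inl i))), ξ⟫, ⟪v (σ (Sum.inl (Sum.inr i))), ξ⟫) ∈ A i) ∧
    ∀ j, ⟪v (σ (Sum.inr j)), ξ⟫ ∈ B j}

theorem TS_eq (v : Fin (N + 2) → E (N + 2)) (σ : (Fin k ⊕ Fin k) ⊕ Fin m ≃ Fin (N + 2))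
    (A : Fin k → Set (ℝ × ℝ)) (B : Fin m → Set ℝ) : TS v σ A B = co v ⁻¹' YS σ A B := rfl

theorem TS_meas (v : Fin (N + 2) → E (N + 2)) (σ : (Fin k ⊕ Fin k) ⊕ Fin m ≃ Fin (N + 2))
    (A : Fin k → Set (ℝ × ℝ)) (B : Fin m → Set ℝ) (hA : ∀ i, MeasurableSet (A i))
    (hB : ∀ j, MeasurableSet (B j)) : MeasurableSet (TS v σ A B) :=
  co_meas v (YS_meas σ A B hA hB)

theorem TS_vol (v : Fin (N + 2) → E (N + 2)) (hv : LinearIndependent ℝ v)
    (σ : (Fin k ⊕ Fin k) ⊕ Fin m ≃ Fin (N + 2))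
    (A : Fin k → Set (ℝ × ℝ)) (B : Fin m → Set ℝ) (hA : ∀ i, MeasurableSet (A i))
    (hB : ∀ j, MeasurableSet (B j)) :
    volume (TS v σ A B) = cell v * ((∏ i, volume (A i)) * ∏ j, volume (B j)) := by
  rw [TS_eq, ← Measure.map_apply (co_meas v) (YS_meas σ A B hA hB), (frame v hv).2.2,
    Measure.smul_apply, smul_eq_mul, YS_vol σ A B hA hB]

/-- the matrix of the frame -/
noncomputable def Mv (v : Fin (N + 2) → E (N + 2)) : Matrix (Fin (N + 2)) (Fin (N + 2)) ℝ :=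
  fun i j => v i j

theorem Mv_det_le (v : Fin (N + 2) → E (N + 2)) (hn : ∀ i, ‖v i‖ = 1) : |(Mv v).det| ≤ 1 := by
  set b := EuclideanSpace.basisFun (Fin (N + 2)) ℝ with hb
  haveI : Fact (Module.finrank ℝ (E (N + 2)) = N + 2) := ⟨by simp⟩
  set o : Orientation ℝ (E (N + 2)) (Fin (N + 2)) := b.toBasis.orientation with ho
  have h1 := o.abs_volumeForm_apply_le v
  rw [o.volumeForm_robust b rfl] at h1
  have h2 : b.toBasis.det v = (Mv v).det := by
    rw [Module.Basis.det_apply, ← Matrix.det_transpose (Mv v)]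
    congr 1
  rw [h2] at h1
  refine h1.trans (le_of_eq ?_)
  simp [hn]

theorem co_eq (v : Fin (N + 2) → E (N + 2)) (ξ : E (N + 2)) :
    co v ξ = Matrix.toLin' (Mv v) (fun i => ξ i) := by
  ext i
  show ⟪v i, ξ⟫ = _
  rw [inner_eq, Matrix.toLin'_apply]
  rfl

theorem cell_ge (v : Fin (N + 2) → E (N + 2)) (hv : LinearIndependent ℝ v)
    (hn : ∀ i, ‖v i‖ = 1) : 1 ≤ cell v := by
  have hdet : (Mv v).det ≠ 0 := by
    intro h0
    obtain ⟨w, hw0, hw⟩ := Matrix.exists_mulVec_eq_zero_iff.2 h0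
    have h1 : ∀ i, ⟪v i, (WithLp.toLp 2 w : E (N + 2))⟫ = 0 := by
      intro i
      have := congrFun hw i
      rw [inner_eq]
      exact this
    have h2 := Pool.Agent.R412.RS.spans_of_li v hv (WithLp.toLp 2 w) h1
    apply hw0
    have h3 := congrArg (fun z : E (N + 2) => z.ofLp) h2
    exact h3
  have hS : MeasurableSet (Set.pi univ fun _ : Fin (N + 2) => Ioc (0 : ℝ) 1) :=
    MeasurableSet.univ_pi fun _ => measurableSet_Ioc
  have h1 : cell v = (Measure.map (co v) volume) (Set.pi univ fun _ => Ioc (0 : ℝ) 1) := by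
    rw [Measure.map_apply (co_meas v) hS]
    unfold cell
    congr 1
    ext ξ
    simp [co]
  have h2 : Measure.map (co v) volume = Measure.map (Matrix.toLin' (Mv v)) volume := by
    have e1 : co v = (Matrix.toLin' (Mv v)) ∘ fun ξ : E (N + 2) => (ξ.ofLp : Fin (N + 2) → ℝ) := by
      ext ξ i
      rw [co_eq]
      rfl
    have hcont : Measurable (Matrix.toLin' (Mv v)) :=
      (LinearMap.continuous_of_finiteDimensional (Matrix.toLin' (Mv v))).measurable
    rw [e1, ← Measure.map_map hcont (PiLp.volume_preserving_ofLp (Fin (N + 2))).measurable,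
      (PiLp.volume_preserving_ofLp (Fin (N + 2))).map_eq]
  rw [h1, h2, Real.map_matrix_volume_pi_eq_smul_volume_pi hdet, Measure.smul_apply, volume_pi_pi]
  simp only [Real.volume_Ioc, sub_zero, ENNReal.ofReal_one, Finset.prod_const_one, smul_eq_mul,
    mul_one]
  rw [← ENNReal.ofReal_one]
  refine ENNReal.ofReal_le_ofReal ?_
  rw [abs_inv]
  exact (one_le_inv₀ (abs_pos.2 hdet)).2 (Mv_det_le v hn)

end Pool.Agent.H972PB
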