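import Mathlib
import Pool.Agent.helper972_pb.F
set_option autoImplicit false

/-! Products of planar and linear sets in a linear frame: interpolation. -/

namespace Pool.Agent.H972PB

open MeasureTheory Set Filter Topology
open scoped ENNReal RealInnerProductSpace
open Pool.Agent.R412.RT (E inner_eq Ex Ex_meas)
open Pool.Agent.R412.RS (co co_meas cell frame)
open Pool.Agent.H972PL (ex)

variable {N k m : ℕ}

/-- normalised frames -/
structure NF (v : Fin (N + 2) → E (N + 2)) (σ : (Fin k ⊕ Fin k) ⊕ Fin m ≃ Fin (N + 2)) : Prop where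
  li : LinearIndependent ℝ v
  unit : ∀ i, ‖v i‖ = 1
  orth : ∀ i : Fin k, ⟪v (σ (Sum.inl (Sum.inl i))), v (σ (Sum.inl (Sum.inr i)))⟫ = 0

theorem ofReal_prod_rpow {κ : Type*} [Fintype κ] (a : κ → ℝ) (ha : ∀ i, 0 < a i) (y : κ → ℝ) :
    ENNReal.ofReal (∏ i, a i ^ y i) = ∏ i, ENNReal.ofReal (a i) ^ y i := by
  rw [ENNReal.ofReal_prod_of_nonneg fun i _ => (Real.rpow_pos_of_pos (ha i) _).le]
  exact Finset.prod_congr rfl fun i _ => (ENNReal.ofReal_rpow_of_pos (ha i)).symm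

/-- a finite product of nonzero factors, one of them infinite -/
theorem prod_top' {κ : Type*} [Fintype κ] [DecidableEq κ] (F : κ → ℝ≥0∞) (i : κ) (hi : F i = ∞)
    (h : ∏ i, F i ≠ 0) : ∏ i, F i = ∞ := by
  rw [← Finset.mul_prod_erase Finset.univ F (Finset.mem_univ i), hi, ENNReal.top_mul]
  rw [Finset.prod_ne_zero_iff] at h ⊢
  exact fun j _ => h j (Finset.mem_univ _)

/-- product sets, general exponents -/
theorem setsx (N k m : ℕ) (τ : ℝ) (h1 : 1 / 2 < τ) (h2 : τ < 1) (y : Fin k ⊕ Fin m → ℝ) (g : ℝ)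
    (hg : 0 < g) (hg1 : g < 1) (hgy : ∀ s, g < y s)
    (hsum : (∑ i, (y (Sum.inl i) - g)) / τ + ∑ j, (y (Sum.inr j) - g) = 1 - g) :
    ∃ C : ℝ, 0 < C ∧ ∀ (v : Fin (N + 2) → E (N + 2))
      (σ : (Fin k ⊕ Fin k) ⊕ Fin m ≃ Fin (N + 2)), NF v σ → ∀ (M : ℝ) (f : E (N + 1) → ℂ), 0 ≤ M →
      NC M f → ∀ (A : Fin k → Set (ℝ × ℝ)) (B : Fin m → Set ℝ), (∀ i, MeasurableSet (A i)) →
      (∀ j, MeasurableSet (B j)) →
      ∫⁻ ξ in TS v σ A B, ‖Ex f ξ‖ₑ ^ 2 ≤ ENNReal.ofReal (C * M ^ 2) * cell v ^ g *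
        ((∏ i, volume (A i) ^ y (Sum.inl i)) * ∏ j, volume (B j) ^ y (Sum.inr j)) := by
  have hτ0 : 0 < τ := by linarith
  set ε : ℝ := min (1 / 4) (g / 2) with hε
  have hε0 : 0 < ε := lt_min (by norm_num) (by linarith)
  have hε1 : ε ≤ 1 / 4 := min_le_left _ _
  have hεg : ε ≤ g / 2 := min_le_right _ _
  obtain ⟨C1, hC1, hcyl⟩ := cyl N τ h1 h2
  obtain ⟨C2, hC2, hslab⟩ := slabT N (2 * ε) (by linarith) (by linarith)
  have hC3 : (0 : ℝ) < 4 ^ (N + 1) := by positivity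
  have hypos : ∀ s, 0 < y s := fun s => hg.trans (hgy s)
  refine ⟨C1 + C2 + 4 ^ (N + 1), by positivity, ?_⟩
  intro v σ hv M f hM hf A B hA hB
  set I : ℝ≥0∞ := ∫⁻ ξ in TS v σ A B, ‖Ex f ξ‖ₑ ^ 2 with hI
  have hTm := TS_meas v σ A B hA hB
  have hTv := TS_vol v hv.li σ A B hA hB
  -- trivial cases
  by_cases hz : (∃ i, volume (A i) = 0) ∨ ∃ j, volume (B j) = 0
  · have hT0 : volume (TS v σ A B) = 0 := by
      rw [hTv]
      rcases hz with ⟨i, hi⟩ | ⟨j, hj⟩
      · rw [Finset.prod_eq_zero (Finset.mem_univ i) hi, zero_mul, mul_zero]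
      · rw [Finset.prod_eq_zero (Finset.mem_univ j) hj, mul_zero, mul_zero]
    rw [hI, setLIntegral_measure_zero _ _ hT0]
    exact zero_le
  push Not at hz
  obtain ⟨hzA, hzB⟩ := hz
  rcases eq_or_lt_of_le hM with hM0 | hM0
  · have h3 : I ≤ 0 := by
      refine (lintegral_mono (g := fun _ => (0 : ℝ≥0∞)) fun ξ => ?_).trans (by simp)
      have h4 := (Ex_sup f ξ).trans (f_int hf)
      rw [← hM0, ENNReal.ofReal_zero, zero_mul] at h4
      have h5 := le_antisymm h4 zero_le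
      simp only
      rw [h5]
      norm_num
    exact h3.trans zero_le
  have hcell := frame v hv.li
  have hcne0 : cell v ^ g ≠ 0 := by
    rw [Ne, ENNReal.rpow_eq_zero_iff]
    rintro (h | h)
    · exact hcell.1 h.1
    · exact hcell.2.1 h.1
  have hKne : ENNReal.ofReal ((C1 + C2 + 4 ^ (N + 1)) * M ^ 2) ≠ 0 := by
    have : 0 < (C1 + C2 + 4 ^ (N + 1)) * M ^ 2 := by positivity
    simpa using this
  have hPA : ∏ i, volume (A i) ^ y (Sum.inl i) ≠ 0 := by
    rw [Finset.prod_ne_zero_iff]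
    intro i _ h
    rw [ENNReal.rpow_eq_zero_iff] at h
    rcases h with h | h
    · exact hzA i h.1
    · linarith [h.2, hypos (Sum.inl i)]
  have hPB : ∏ j, volume (B j) ^ y (Sum.inr j) ≠ 0 := by
    rw [Finset.prod_ne_zero_iff]
    intro i _ h
    rw [ENNReal.rpow_eq_zero_iff] at h
    rcases h with h | h
    · exact hzB i h.1
    · linarith [h.2, hypos (Sum.inr i)]
  by_cases ht : (∃ i, volume (A i) = ∞) ∨ ∃ j, volume (B j) = ∞
  · have hRHS : (∏ i, volume (A i) ^ y (Sum.inl i)) * ∏ j, volume (B j) ^ y (Sum.inr j) = ∞ := by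
      rcases ht with ⟨i, hi⟩ | ⟨j, hj⟩
      · have : ∏ i, volume (A i) ^ y (Sum.inl i) = ∞ :=
          prod_top' _ i (by simp only [hi, ENNReal.top_rpow_of_pos (hypos _)]) hPA
        rw [this, ENNReal.top_mul hPB]
      · have : ∏ j, volume (B j) ^ y (Sum.inr j) = ∞ :=
          prod_top' _ j (by simp only [hj, ENNReal.top_rpow_of_pos (hypos _)]) hPB
        rw [this, ENNReal.mul_top hPA]
    rw [hRHS, ENNReal.mul_top]
    · exact le_top
    · exact mul_ne_zero hKne hcne0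
  push Not at ht
  obtain ⟨htA, htB⟩ := ht
  -- real numbers
  set a : Fin k → ℝ := fun i => (volume (A i)).toReal with ha
  set b : Fin m → ℝ := fun j => (volume (B j)).toReal with hb
  set c : ℝ := (cell v).toReal with hc
  have ha0 : ∀ i, 0 < a i := fun i => ENNReal.toReal_pos (hzA i) (htA i)
  have hb0 : ∀ j, 0 < b j := fun j => ENNReal.toReal_pos (hzB j) (htB j)
  have hc0 : 0 < c := ENNReal.toReal_pos hcell.1 hcell.2.1
  have hae : ∀ i, volume (A i) = ENNReal.ofReal (a i) := fun i => (ENNReal.ofReal_toReal (htA i)).symm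
  have hbe : ∀ j, volume (B j) = ENNReal.ofReal (b j) := fun j => (ENNReal.ofReal_toReal (htB j)).symm
  have hce : cell v = ENNReal.ofReal c := (ENNReal.ofReal_toReal hcell.2.1).symm
  have hpa : 0 < ∏ i, a i := Finset.prod_pos fun i _ => ha0 i
  have hpb : 0 < ∏ j, b j := Finset.prod_pos fun j _ => hb0 j
  set V : ℝ := c * (∏ i, a i) * ∏ j, b j with hV
  have hV0 : 0 < V := by positivity
  have hTV : volume (TS v σ A B) = ENNReal.ofReal V := by
    rw [hTv, hV, mul_assoc, ENNReal.ofReal_mul hc0.le, ENNReal.ofReal_mul hpa.le, hce,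
      ENNReal.ofReal_prod_of_nonneg fun i _ => (ha0 i).le,
      ENNReal.ofReal_prod_of_nonneg fun j _ => (hb0 j).le]
    simp_rw [hae, hbe]
  set K : ℝ := (C1 + C2 + 4 ^ (N + 1)) * M ^ 2 with hK
  have hK0 : 0 < K := by positivity
  have hM2 : 0 ≤ M ^ 2 := by positivity
  -- the three estimates
  have e0 : I ≤ ENNReal.ofReal (K * V) := by
    refine (triv_est f _ (f_int hf) _).trans ?_
    rw [hTV]
    have e00 : (ENNReal.ofReal M * 2 ^ (N + 1)) ^ 2 = ENNReal.ofReal (4 ^ (N + 1) * M ^ 2) := by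
      rw [ENNReal.ofReal_mul (by positivity), ENNReal.ofReal_pow hM,
        ENNReal.ofReal_pow (by norm_num), ENNReal.ofReal_ofNat, mul_pow,
        mul_comm (ENNReal.ofReal M ^ 2), ← pow_mul, mul_comm (N + 1) 2, pow_mul]
      norm_num
    calc (ENNReal.ofReal M * 2 ^ (N + 1)) ^ 2 * ENNReal.ofReal V
        = ENNReal.ofReal (4 ^ (N + 1) * M ^ 2 * V) := by
          rw [e00, ← ENNReal.ofReal_mul (by positivity)]
      _ ≤ _ := by
          refine ENNReal.ofReal_le_ofReal ?_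
          refine mul_le_mul_of_nonneg_right ?_ hV0.le
          exact mul_le_mul_of_nonneg_right (by linarith) hM2
  have eP : ∀ i, I ≤ ENNReal.ofReal (K * a i ^ τ) := by
    intro i
    have := hcyl _ _ (hv.unit _) (hv.unit _) (hv.orth i) M f hM hf (A i) (TS v σ A B) (hA i) hTm
      (htA i) (fun ξ hξ => hξ.1 i)
    refine this.trans ?_
    rw [hae i, ENNReal.ofReal_rpow_of_pos (ha0 i), ← ENNReal.ofReal_mul (by positivity)]
    refine ENNReal.ofReal_le_ofReal ?_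
    have hp : 0 ≤ a i ^ τ := (Real.rpow_pos_of_pos (ha0 i) _).le
    refine mul_le_mul_of_nonneg_right ?_ hp
    exact mul_le_mul_of_nonneg_right (by linarith) hM2
  have eL : ∀ j, I ≤ ENNReal.ofReal (K * (b j ^ (1 - ε) * V ^ ε)) := by
    intro j
    have := hslab _ (hv.unit _) M f hM hf (B j) (TS v σ A B) (hB j) hTm
      (fun ξ hξ => hξ.2 j) (b j) V (hb0 j) hV0 (hbe j) hTV.le
    refine this.trans ?_
    have e1 : 2 * ε / 2 = ε := by ring
    rw [e1]
    refine ENNReal.ofReal_le_ofReal ?_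
    have hp : 0 ≤ b j ^ (1 - ε) * V ^ ε :=
      (mul_pos (Real.rpow_pos_of_pos (hb0 j) _) (Real.rpow_pos_of_pos hV0 _)).le
    refine mul_le_mul_of_nonneg_right ?_ hp
    exact mul_le_mul_of_nonneg_right (by linarith) hM2
  have hIt : I ≠ ∞ := ne_top_of_le_ne_top ENNReal.ofReal_ne_top e0
  by_cases hI0 : I = 0
  · rw [hI0]; exact zero_le
  have hIp : 0 < I.toReal := ENNReal.toReal_pos hI0 hIt
  have hSP : 0 ≤ ∑ i, (y (Sum.inl i) - g) :=
    Finset.sum_nonneg fun i _ => by linarith [hgy (Sum.inl i)]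
  have hSL : 0 ≤ ∑ j, (y (Sum.inr j) - g) :=
    Finset.sum_nonneg fun i _ => by linarith [hgy (Sum.inr i)]
  have hSL1 : ∑ j, (y (Sum.inr j) - g) ≤ 1 := by
    have : 0 ≤ (∑ i, (y (Sum.inl i) - g)) / τ := div_nonneg hSP hτ0.le
    linarith
  have hkey := log_interp I.toReal K c V τ ε g a b (fun i => y (Sum.inl i)) (fun j => y (Sum.inr j))
    hIp hK0 hc0 ha0 hb0 rfl hτ0 (by linarith)
    (fun i => ENNReal.toReal_le_of_le_ofReal
      (mul_nonneg hK0.le (Real.rpow_pos_of_pos (ha0 i) _).le) (eP i))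
    (fun j => ENNReal.toReal_le_of_le_ofReal
      (mul_nonneg hK0.le (mul_pos (Real.rpow_pos_of_pos (hb0 j) _)
        (Real.rpow_pos_of_pos hV0 _)).le) (eL j))
    (ENNReal.toReal_le_of_le_ofReal (by positivity) e0)
    (fun i => (hgy _).le) (fun j => (hgy _).le)
    (by
      have h5 : 0 < 1 - ε := by linarith
      have h6 : (∑ j, (y (Sum.inr j) - g)) / (1 - ε) ≤ 2 := by
        rw [div_le_iff₀ h5]
        linarith
      have h7 : 0 ≤ (∑ j, (y (Sum.inr j) - g)) / (1 - ε) := div_nonneg hSL h5.le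
      nlinarith)
    hsum
  calc I = ENNReal.ofReal I.toReal := (ENNReal.ofReal_toReal hIt).symm
    _ ≤ ENNReal.ofReal (K * c ^ g * (∏ i, a i ^ y (Sum.inl i)) * ∏ j, b j ^ y (Sum.inr j)) :=
        ENNReal.ofReal_le_ofReal hkey
    _ = _ := by
        have p1 : 0 ≤ ∏ i, a i ^ y (Sum.inl i) :=
          (Finset.prod_pos fun i _ => Real.rpow_pos_of_pos (ha0 i) _).le
        rw [mul_assoc (K * c ^ g), ENNReal.ofReal_mul (by positivity), ENNReal.ofReal_mul hK0.le,
          ENNReal.ofReal_mul p1, ofReal_prod_rpow a ha0, ofReal_prod_rpow b hb0, hce,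
          ENNReal.ofReal_rpow_of_pos hc0]
        simp_rw [hae, hbe]

/-- the choice of the parameter of the planar estimate -/
theorem exists_tau (k m : ℕ) (d r : ℝ) (hd : (k : ℝ) + k + m = d) (hr : r < d) :
    ∃ τ : ℝ, 1 / 2 < τ ∧ τ < 1 ∧ r < k / τ + m := by
  set δ : ℝ := d - r with hδ
  have hδ0 : 0 < δ := by linarith
  have hk : (0 : ℝ) ≤ k := Nat.cast_nonneg k
  set θ : ℝ := min (1 / 4) (δ / (8 * ((k : ℝ) + 1))) with hθ
  have hθ0 : 0 < θ := lt_min (by norm_num) (by positivity)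
  have hθ1 : θ ≤ 1 / 4 := min_le_left _ _
  have hθ2 : θ ≤ δ / (8 * ((k : ℝ) + 1)) := min_le_right _ _
  rw [le_div_iff₀ (by positivity)] at hθ2
  refine ⟨1 / 2 + θ, by linarith, by linarith, ?_⟩
  have h1 : 2 * (k : ℝ) - 4 * k * θ ≤ k / (1 / 2 + θ) := by
    rw [le_div_iff₀ (by linarith)]
    nlinarith [mul_nonneg hk (sq_nonneg θ)]
  nlinarith

/-- the choice of the corner width -/
theorem exists_kappa (α D : ℝ) (hα : 0 < α) (hα1 : α < 1) (hD : 1 < α * D) :
    ∃ κ : ℝ, 0 < κ ∧ κ < 1 ∧ 1 < α * (1 - κ) * D ∧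
      α * (1 + κ) * D - 1 < α * (1 - κ) * (D - 1) := by
  have hD1 : 1 < D := by nlinarith
  refine ⟨min (min (1 / 2) ((α * D - 1) / (2 * (α * D)))) ((1 - α) / (2 * (α * (2 * D - 1)))), ?_⟩
  set κ := min (min (1 / 2) ((α * D - 1) / (2 * (α * D)))) ((1 - α) / (2 * (α * (2 * D - 1))))
    with hκ
  have p1 : 0 < 2 * (α * D) := by linarith
  have p2 : 0 < 2 * (α * (2 * D - 1)) := by
    have : 0 < 2 * D - 1 := by linarith
    positivity
  have k0 : 0 < κ := lt_min (lt_min (by norm_num) (div_pos (by linarith) p1))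
    (div_pos (by linarith) p2)
  have k1 : κ ≤ 1 / 2 := (min_le_left _ _).trans (min_le_left _ _)
  have k2 : κ ≤ (α * D - 1) / (2 * (α * D)) := (min_le_left _ _).trans (min_le_right _ _)
  have k3 : κ ≤ (1 - α) / (2 * (α * (2 * D - 1))) := min_le_right _ _
  rw [le_div_iff₀ p1] at k2
  rw [le_div_iff₀ p2] at k3
  refine ⟨k0, by linarith, by nlinarith, by nlinarith⟩

/-- product sets, all corners -/
theorem setsC (N k m : ℕ) (hkm : k + k + m = N + 2) (r : ℝ) (hr : 1 < r) (hr2 : r < (N : ℝ) + 2) :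
    ∃ κ : ℝ, 0 < κ ∧ κ < 1 ∧ ∃ C : ℝ, 0 < C ∧ ∀ (v : Fin (N + 2) → E (N + 2))
      (σ : (Fin k ⊕ Fin k) ⊕ Fin m ≃ Fin (N + 2)), NF v σ → ∀ (M : ℝ) (f : E (N + 1) → ℂ), 0 ≤ M →
      NC M f → ∀ (A : Fin k → Set (ℝ × ℝ)) (B : Fin m → Set ℝ), (∀ i, MeasurableSet (A i)) →
      (∀ j, MeasurableSet (B j)) → ∀ (ν s : Fin k ⊕ Fin m → ℝ),
      ∫⁻ ξ in TS v σ A B, ‖Ex f ξ‖ₑ ^ 2 ≤ ENNReal.ofReal (C * M ^ 2) * cell v ^ (1 / r) *
        ((∏ i, volume (A i) ^ ex (1 / r) κ (ν (Sum.inl i)) (s (Sum.inl i))) *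
          ∏ j, volume (B j) ^ ex (1 / r) κ (ν (Sum.inr j)) (s (Sum.inr j))) := by
  have hr0 : 0 < r := by linarith
  set α : ℝ := 1 / r with hα
  have hα0 : 0 < α := by positivity
  have hα1 : α < 1 := by rw [hα, div_lt_one hr0]; exact hr
  have hkm' : (k : ℝ) + k + m = (N : ℝ) + 2 := by exact_mod_cast hkm
  obtain ⟨τ, hτ1, hτ2, hτ3⟩ := exists_tau k m _ r hkm' hr2
  have hτ0 : 0 < τ := by linarith
  set D : ℝ := k / τ + m with hD
  have hαD : 1 < α * D := by
    rw [hα, one_div, inv_mul_eq_div, one_lt_div hr0]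
    exact hτ3
  have hD1 : 1 < D := by linarith
  obtain ⟨κ, hκ0, hκ1, hκ2, hκ3⟩ := exists_kappa α D hα0 hα1 hαD
  refine ⟨κ, hκ0, hκ1, ?_⟩
  set yc : (Fin k ⊕ Fin m → Bool) → Fin k ⊕ Fin m → ℝ := fun c s =>
    if c s then α * (1 - κ) else α * (1 + κ) with hyc
  have hlo : ∀ c s, α * (1 - κ) ≤ yc c s := by
    intro c s
    rw [hyc]
    simp only
    split_ifs
    · exact le_rfl
    · nlinarith
  have hhi : ∀ c s, yc c s ≤ α * (1 + κ) := by
    intro c s
    rw [hyc]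
    simp only
    split_ifs
    · nlinarith
    · exact le_rfl
  have hcorner : ∀ c : Fin k ⊕ Fin m → Bool, ∃ C : ℝ, 0 < C ∧ ∀ (v : Fin (N + 2) → E (N + 2))
      (σ : (Fin k ⊕ Fin k) ⊕ Fin m ≃ Fin (N + 2)), NF v σ → ∀ (M : ℝ) (f : E (N + 1) → ℂ), 0 ≤ M →
      NC M f → ∀ (A : Fin k → Set (ℝ × ℝ)) (B : Fin m → Set ℝ), (∀ i, MeasurableSet (A i)) →
      (∀ j, MeasurableSet (B j)) →
      ∫⁻ ξ in TS v σ A B, ‖Ex f ξ‖ₑ ^ 2 ≤ ENNReal.ofReal (C * M ^ 2) * cell v ^ α *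
        ((∏ i, volume (A i) ^ yc c (Sum.inl i)) * ∏ j, volume (B j) ^ yc c (Sum.inr j)) := by
    intro c
    set X : ℝ := (∑ i, yc c (Sum.inl i)) / τ + ∑ j, yc c (Sum.inr j) with hX
    set g : ℝ := (X - 1) / (D - 1) with hg
    have hXlo : α * (1 - κ) * D ≤ X := by
      have a1 : (k : ℝ) * (α * (1 - κ)) ≤ ∑ i : Fin k, yc c (Sum.inl i) := by
        calc (k : ℝ) * (α * (1 - κ)) = ∑ _i : Fin k, α * (1 - κ) := by
              rw [Finset.sum_const, Finset.card_univ, Fintype.card_fin, nsmul_eq_mul]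
          _ ≤ _ := Finset.sum_le_sum fun i _ => hlo c _
      have a2 : (m : ℝ) * (α * (1 - κ)) ≤ ∑ i : Fin m, yc c (Sum.inr i) := by
        calc (m : ℝ) * (α * (1 - κ)) = ∑ _i : Fin m, α * (1 - κ) := by
              rw [Finset.sum_const, Finset.card_univ, Fintype.card_fin, nsmul_eq_mul]
          _ ≤ _ := Finset.sum_le_sum fun i _ => hlo c _
      have a3 : (k : ℝ) * (α * (1 - κ)) / τ ≤ (∑ i : Fin k, yc c (Sum.inl i)) / τ :=
        div_le_div_of_nonneg_right a1 hτ0.le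
      rw [hX, hD]
      calc α * (1 - κ) * (k / τ + m) = (k : ℝ) * (α * (1 - κ)) / τ + (m : ℝ) * (α * (1 - κ)) := by
            ring
        _ ≤ _ := add_le_add a3 a2
    have hXhi : X ≤ α * (1 + κ) * D := by
      have a1 : ∑ i : Fin k, yc c (Sum.inl i) ≤ (k : ℝ) * (α * (1 + κ)) := by
        calc ∑ i : Fin k, yc c (Sum.inl i) ≤ ∑ _i : Fin k, α * (1 + κ) :=
              Finset.sum_le_sum fun i _ => hhi c _
          _ = _ := by
              rw [Finset.sum_const, Finset.card_univ, Fintype.card_fin, nsmul_eq_mul]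
      have a2 : ∑ i : Fin m, yc c (Sum.inr i) ≤ (m : ℝ) * (α * (1 + κ)) := by
        calc ∑ i : Fin m, yc c (Sum.inr i) ≤ ∑ _i : Fin m, α * (1 + κ) :=
              Finset.sum_le_sum fun i _ => hhi c _
          _ = _ := by
              rw [Finset.sum_const, Finset.card_univ, Fintype.card_fin, nsmul_eq_mul]
      have a3 : (∑ i : Fin k, yc c (Sum.inl i)) / τ ≤ (k : ℝ) * (α * (1 + κ)) / τ :=
        div_le_div_of_nonneg_right a1 hτ0.le
      rw [hX, hD]
      calc _ ≤ (k : ℝ) * (α * (1 + κ)) / τ + (m : ℝ) * (α * (1 + κ)) := add_le_add a3 a2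
        _ = _ := by ring
    have hD10 : 0 < D - 1 := by linarith
    have hg0 : 0 < g := div_pos (by linarith) hD10
    have hgα : g < α * (1 - κ) := by
      rw [hg, div_lt_iff₀ hD10]
      linarith
    have hgα' : g < α := by nlinarith
    have hsum : (∑ i, (yc c (Sum.inl i) - g)) / τ + ∑ j, (yc c (Sum.inr j) - g) = 1 - g := by
      have b1 : ∑ i : Fin k, (yc c (Sum.inl i) - g) = ∑ i : Fin k, yc c (Sum.inl i) - k * g := by
        rw [Finset.sum_sub_distrib, Finset.sum_const, Finset.card_univ, Fintype.card_fin,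
          nsmul_eq_mul]
      have b2 : ∑ i : Fin m, (yc c (Sum.inr i) - g) = ∑ i : Fin m, yc c (Sum.inr i) - m * g := by
        rw [Finset.sum_sub_distrib, Finset.sum_const, Finset.card_univ, Fintype.card_fin,
          nsmul_eq_mul]
      have b3 : g * (D - 1) = X - 1 := by rw [hg]; field_simp
      rw [b1, b2, sub_div]
      have b4 : (k : ℝ) * g / τ + m * g = D * g := by rw [hD]; ring
      linarith
    obtain ⟨C, hC, h⟩ := setsx N k m τ hτ1 hτ2 (yc c) g hg0 (by linarith)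
      (fun s => hgα.trans_le (hlo c s)) hsum
    refine ⟨C, hC, fun v σ hv M f hM hf A B hA hB => (h v σ hv M f hM hf A B hA hB).trans ?_⟩
    refine mul_le_mul_left (mul_le_mul_right ?_ _) _
    exact ENNReal.rpow_le_rpow_of_exponent_le (cell_ge v hv.li hv.unit) hgα'.le
  choose Cc hCc hmain using hcorner
  refine ⟨∑ c, Cc c, Finset.sum_pos (fun c _ => hCc c) Finset.univ_nonempty, ?_⟩
  intro v σ hv M f hM hf A B hA hB ν s
  set c : Fin k ⊕ Fin m → Bool := fun t => decide (s t ≤ ν t) with hc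
  have hex : ∀ t, ex α κ (ν t) (s t) = yc c t := by
    intro t
    rw [hyc, hc]
    unfold ex
    simp only [decide_eq_true_eq]
  simp_rw [hex]
  refine (hmain c v σ hv M f hM hf A B hA hB).trans ?_
  refine mul_le_mul_left (mul_le_mul_left ?_ _) _
  refine ENNReal.ofReal_le_ofReal (mul_le_mul_of_nonneg_right ?_ (by positivity))
  exact Finset.single_le_sum (fun c _ => (hCc c).le) (Finset.mem_univ c)

end Pool.Agent.H972PB
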