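import Mathlib
import Pool.Agent.helper972_pb.B
set_option autoImplicit false

/-! The layer cake formula in several parameters. -/

namespace Pool.Agent.H972PB

open MeasureTheory Set Filter Topology
open scoped ENNReal

theorem layerN {Ω ι : Type*} [MeasurableSpace Ω] [DecidableEq ι] (W : ι → Ω → ℝ≥0∞)
    (hW : ∀ i, Measurable (W i)) (φ : ι → ℝ → ℝ≥0∞) (hφ : ∀ i, Measurable (φ i)) (S : Finset ι) :
    ∀ (ν : Measure Ω) [SFinite ν] (K : ℝ≥0∞), (∀ s : ι → ℝ, (∀ i, 0 < s i) →
      ν {ω | ∀ i ∈ S, ENNReal.ofReal (s i) < W i ω} ≤ K * ∏ i ∈ S, φ i (s i)) →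
    ∫⁻ ω, ∏ i ∈ S, W i ω ∂ν ≤ K * ∏ i ∈ S, ∫⁻ s in Ioi (0 : ℝ), φ i s := by
  induction S using Finset.induction_on with
  | empty =>
    intro ν _ K h
    have h1 := h (fun _ => 1) fun _ => one_pos
    simpa using h1
  | insert a S ha ih =>
    intro ν _ K h
    have hms : ∀ t : ℝ, MeasurableSet {ω | ENNReal.ofReal t < W a ω} := fun t =>
      measurableSet_lt measurable_const (hW a)
    have hP : Measurable fun ω => ∏ i ∈ S, W i ω := Finset.measurable_prod _ fun i _ => hW i
    have e1 : ∫⁻ ω, ∏ i ∈ insert a S, W i ω ∂ν =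
        ∫⁻ t in Ioi (0 : ℝ), ∫⁻ ω, ∏ i ∈ S, W i ω ∂(ν.restrict {ω | ENNReal.ofReal t < W a ω}) := by
      have e2 : ∀ t : ℝ, ∫⁻ ω, ∏ i ∈ S, W i ω ∂(ν.restrict {ω | ENNReal.ofReal t < W a ω}) =
          ∫⁻ ω, (if ENNReal.ofReal t < W a ω then 1 else 0) * ∏ i ∈ S, W i ω ∂ν := by
        intro t
        rw [← lintegral_indicator (hms t)]
        refine lintegral_congr fun ω => ?_
        by_cases h1 : ENNReal.ofReal t < W a ω
        · rw [indicator_of_mem (show ω ∈ {ω | ENNReal.ofReal t < W a ω} from h1), if_pos h1, one_mul]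
        · rw [indicator_of_notMem (show ω ∉ {ω | ENNReal.ofReal t < W a ω} from h1), if_neg h1,
            zero_mul]
      simp_rw [e2]
      rw [lintegral_lintegral_swap]
      · refine lintegral_congr fun ω => ?_
        rw [lintegral_mul_const, ← Pool.Agent.R412.RT.layer, Finset.prod_insert ha]
        exact Measurable.ite (measurableSet_lt ENNReal.measurable_ofReal measurable_const)
          measurable_const measurable_const
      · refine Measurable.aemeasurable ?_
        refine Measurable.mul ?_ (hP.comp measurable_snd)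
        refine Measurable.ite ?_ measurable_const measurable_const
        exact measurableSet_lt measurable_fst.ennreal_ofReal ((hW a).comp measurable_snd)
    have e3 : ∀ t ∈ Ioi (0 : ℝ),
        ∫⁻ ω, ∏ i ∈ S, W i ω ∂(ν.restrict {ω | ENNReal.ofReal t < W a ω}) ≤
          K * φ a t * ∏ i ∈ S, ∫⁻ s in Ioi (0 : ℝ), φ i s := by
      intro t ht
      refine ih (ν.restrict {ω | ENNReal.ofReal t < W a ω}) (K * φ a t) fun s hs => ?_
      have hms2 : MeasurableSet {ω | ∀ i ∈ S, ENNReal.ofReal (s i) < W i ω} := by
        have : {ω | ∀ i ∈ S, ENNReal.ofReal (s i) < W i ω} =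
            ⋂ i ∈ S, {ω | ENNReal.ofReal (s i) < W i ω} := by
          ext ω; simp
        rw [this]
        exact Finset.measurableSet_biInter _ fun i _ => measurableSet_lt measurable_const (hW i)
      rw [Measure.restrict_apply hms2]
      have h1 := h (Function.update s a t) (by
        intro i
        by_cases hi : i = a
        · subst hi
          rw [Function.update_self]
          exact ht
        · rw [Function.update_of_ne hi]
          exact hs i)
      refine le_trans (le_of_eq ?_) (h1.trans (le_of_eq ?_))
      · congr 1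
        ext ω
        simp only [mem_inter_iff, mem_ofPred_eq, Finset.mem_insert, forall_eq_or_imp,
          Function.update_self]
        rw [and_comm]
        refine and_congr_right fun _ => forall₂_congr fun i hi => ?_
        rw [Function.update_of_ne (ne_of_mem_of_not_mem hi ha)]
      · rw [Finset.prod_insert ha, Function.update_self, mul_assoc]
        congr 2
        refine Finset.prod_congr rfl fun i hi => ?_
        rw [Function.update_of_ne (ne_of_mem_of_not_mem hi ha)]
    rw [e1, Finset.prod_insert ha]
    refine (setLIntegral_mono' measurableSet_Ioi e3).trans (le_of_eq ?_)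
    rw [lintegral_mul_const _ ((hφ a).const_mul _), lintegral_const_mul _ (hφ a)]
    ring

end Pool.Agent.H972PB
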