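import Mathlib
import Pool.Agent.helper972_pb.L
set_option autoImplicit false

/-! Products of planar and linear weights in a linear frame. -/

namespace Pool.Agent.H972PB

open MeasureTheory Set Filter Topology
open scoped ENNReal RealInnerProductSpace
open Pool.Agent.R412.RT (E Ex Ex_meas)
open Pool.Agent.R412.RS (cell frame)
open Pool.Agent.H972PL (ex psi corner psi_int weak le_weak weak_zero)

variable {N k m : ℕ}

/-- the factors of the product weight -/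
noncomputable def Wf (v : Fin (N + 2) → E (N + 2)) (σ : (Fin k ⊕ Fin k) ⊕ Fin m ≃ Fin (N + 2))
    (u : Fin k → ℝ × ℝ → ℝ≥0∞) (w : Fin m → ℝ → ℝ≥0∞) (t : Fin k ⊕ Fin m) (ξ : E (N + 2)) : ℝ≥0∞ :=
  Sum.elim (fun i => u i (⟪v (σ (Sum.inl (Sum.inl i))), ξ⟫, ⟪v (σ (Sum.inl (Sum.inr i))), ξ⟫))
    (fun j => w j ⟪v (σ (Sum.inr j)), ξ⟫) t

/-- the weak norms of the factors -/
noncomputable def wn (a : ℝ) (u : Fin k → ℝ × ℝ → ℝ≥0∞) (w : Fin m → ℝ → ℝ≥0∞)
    (t : Fin k ⊕ Fin m) : ℝ≥0∞ :=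
  Sum.elim (fun i => weak a (u i)) (fun j => weak a (w j)) t

/-- the distribution functions of the factors -/
noncomputable def dv (u : Fin k → ℝ × ℝ → ℝ≥0∞) (w : Fin m → ℝ → ℝ≥0∞)
    (s : Fin k ⊕ Fin m → ℝ) (t : Fin k ⊕ Fin m) : ℝ≥0∞ :=
  Sum.elim (fun i => volume {p | ENNReal.ofReal (s (Sum.inl i)) < u i p})
    (fun j => volume {p | ENNReal.ofReal (s (Sum.inr j)) < w j p}) t

theorem dv_le (a : ℝ) (u : Fin k → ℝ × ℝ → ℝ≥0∞) (w : Fin m → ℝ → ℝ≥0∞)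
    (s : Fin k ⊕ Fin m → ℝ) (hs : ∀ t, 0 < s t) (t : Fin k ⊕ Fin m) :
    ENNReal.ofReal (s t) * dv u w s t ^ a ≤ wn a u w t := by
  rcases t with i | j
  · exact le_weak a (u i) _ (hs _)
  · exact le_weak a (w j) _ (hs _)

theorem dv_zero (a : ℝ) (ha : 0 < a) (u : Fin k → ℝ × ℝ → ℝ≥0∞) (w : Fin m → ℝ → ℝ≥0∞)
    (s : Fin k ⊕ Fin m → ℝ) (hs : ∀ t, 0 < s t) (t : Fin k ⊕ Fin m) (h : wn a u w t = 0) :
    dv u w s t = 0 := by
  rcases t with i | j
  · exact weak_zero a ha (u i) h _ (hs _)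
  · exact weak_zero a ha (w j) h _ (hs _)

theorem Wf_meas (v : Fin (N + 2) → E (N + 2)) (σ : (Fin k ⊕ Fin k) ⊕ Fin m ≃ Fin (N + 2))
    (u : Fin k → ℝ × ℝ → ℝ≥0∞) (w : Fin m → ℝ → ℝ≥0∞) (hu : ∀ i, Measurable (u i))
    (hw : ∀ j, Measurable (w j)) (t : Fin k ⊕ Fin m) : Measurable (Wf v σ u w t) := by
  rcases t with i | j
  · exact (hu i).comp (by fun_prop)
  · exact (hw j).comp (by fun_prop)

theorem Wf_prod (v : Fin (N + 2) → E (N + 2)) (σ : (Fin k ⊕ Fin k) ⊕ Fin m ≃ Fin (N + 2))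
    (u : Fin k → ℝ × ℝ → ℝ≥0∞) (w : Fin m → ℝ → ℝ≥0∞) (ξ : E (N + 2)) :
    ∏ t, Wf v σ u w t ξ =
      (∏ i, u i (⟪v (σ (Sum.inl (Sum.inl i))), ξ⟫, ⟪v (σ (Sum.inl (Sum.inr i))), ξ⟫)) *
        ∏ j, w j ⟪v (σ (Sum.inr j)), ξ⟫ := by
  rw [Fintype.prod_sum_type]
  rfl

theorem wn_prod (a : ℝ) (u : Fin k → ℝ × ℝ → ℝ≥0∞) (w : Fin m → ℝ → ℝ≥0∞) :
    ∏ t, wn a u w t = (∏ i, weak a (u i)) * ∏ j, weak a (w j) := by
  rw [Fintype.prod_sum_type]
  rfl

theorem psi_meas (κ ν : ℝ) : Measurable fun s => ENNReal.ofReal (psi κ ν s) := by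
  refine Measurable.ennreal_ofReal ?_
  unfold psi
  exact Measurable.ite measurableSet_Iic (by fun_prop) (by fun_prop)

/-- **products of planar and linear weights** -/
theorem weights (N k m : ℕ) (r : ℝ) (hr : 1 < r) (hr2 : r < (N : ℝ) + 2) :
    ∃ C : ℝ, 0 < C ∧ ∀ (v : Fin (N + 2) → E (N + 2))
      (σ : (Fin k ⊕ Fin k) ⊕ Fin m ≃ Fin (N + 2)), NF v σ → ∀ (M : ℝ) (f : E (N + 1) → ℂ), 0 ≤ M →
      NC M f → ∀ (u : Fin k → ℝ × ℝ → ℝ≥0∞) (w : Fin m → ℝ → ℝ≥0∞), (∀ i, Measurable (u i)) →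
      (∀ j, Measurable (w j)) →
      ∫⁻ ξ, (∏ t, Wf v σ u w t ξ) * ‖Ex f ξ‖ₑ ^ 2 ≤
        ENNReal.ofReal (C * M ^ 2) * cell v ^ (1 / r) * ∏ t, wn (1 / r) u w t := by
  by_cases hkm : k + k + m = N + 2
  swap
  · refine ⟨1, one_pos, fun v σ => ?_⟩
    exfalso
    have := Fintype.card_congr σ
    simp only [Fintype.card_sum, Fintype.card_fin] at this
    exact hkm this
  have hr0 : 0 < r := by linarith
  have hα0 : 0 < 1 / r := by positivity
  obtain ⟨κ, hκ0, hκ1, C, hC, hmain⟩ := setsC N k m hkm r hr hr2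
  refine ⟨C * (2 / κ) ^ (k + m), by positivity, ?_⟩
  intro v σ hv M f hM hf u w hu hw
  have hG : Measurable fun ξ : E (N + 2) => ‖Ex f ξ‖ₑ ^ 2 :=
    (Ex_meas f hf.integrable.1).enorm.pow_const 2
  have hWm := Wf_meas v σ u w hu hw
  have hPm : Measurable fun ξ => ∏ t, Wf v σ u w t ξ := Finset.measurable_prod _ fun t _ => hWm t
  set ρ : Measure (E (N + 2)) := volume.withDensity fun ξ => ‖Ex f ξ‖ₑ ^ 2 with hρ
  have hI : ∫⁻ ξ, (∏ t, Wf v σ u w t ξ) * ‖Ex f ξ‖ₑ ^ 2 = ∫⁻ ξ, ∏ t, Wf v σ u w t ξ ∂ρ := by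
    rw [hρ, lintegral_withDensity_eq_lintegral_mul _ hG hPm]
    refine lintegral_congr fun ξ => ?_
    simp only [Pi.mul_apply]
    rw [mul_comm]
  rw [hI]
  -- level sets
  have hlev : ∀ (s : Fin k ⊕ Fin m → ℝ) (ν : Fin k ⊕ Fin m → ℝ),
      ρ {ξ | ∀ t ∈ Finset.univ, ENNReal.ofReal (s t) < Wf v σ u w t ξ} ≤
        ENNReal.ofReal (C * M ^ 2) * cell v ^ (1 / r) *
          ∏ t, dv u w s t ^ ex (1 / r) κ (ν t) (s t) := by
    intro s ν
    have hA : ∀ i, MeasurableSet {p | ENNReal.ofReal (s (Sum.inl i)) < u i p} := fun i =>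
      measurableSet_lt measurable_const (hu i)
    have hB : ∀ j, MeasurableSet {p | ENNReal.ofReal (s (Sum.inr j)) < w j p} := fun j =>
      measurableSet_lt measurable_const (hw j)
    have hset : {ξ | ∀ t ∈ Finset.univ, ENNReal.ofReal (s t) < Wf v σ u w t ξ} =
        TS v σ (fun i => {p | ENNReal.ofReal (s (Sum.inl i)) < u i p})
          (fun j => {p | ENNReal.ofReal (s (Sum.inr j)) < w j p}) := by
      ext ξ
      constructor
      · intro h
        exact ⟨fun i => h (Sum.inl i) (Finset.mem_univ _), fun j => h (Sum.inr j) (Finset.mem_univ _)⟩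
      · rintro ⟨h1, h2⟩ t _
        rcases t with i | j
        · exact h1 i
        · exact h2 j
    rw [hset, hρ, withDensity_apply _ (TS_meas v σ _ _ hA hB)]
    refine (hmain v σ hv M f hM hf _ _ hA hB ν s).trans (le_of_eq ?_)
    rw [Fintype.prod_sum_type]
    rfl
  by_cases hz : M = 0 ∨ ∃ t, wn (1 / r) u w t = 0
  · have h0 : ∀ s : Fin k ⊕ Fin m → ℝ, (∀ t, 0 < s t) →
        ρ {ξ | ∀ t ∈ Finset.univ, ENNReal.ofReal (s t) < Wf v σ u w t ξ} ≤
          0 * ∏ t, (fun (_ : Fin k ⊕ Fin m) (_ : ℝ) => (0 : ℝ≥0∞)) t (s t) := by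
      intro s hs
      rw [zero_mul]
      refine (hlev s (fun _ => 0)).trans (le_of_eq ?_)
      rcases hz with hM0 | ⟨t, ht⟩
      · rw [hM0]
        simp
      · have h1 : ∏ t, dv u w s t ^ ex (1 / r) κ ((fun _ => (0 : ℝ)) t) (s t) = 0 := by
          refine Finset.prod_eq_zero (Finset.mem_univ t) ?_
          rw [dv_zero (1 / r) hα0 u w s hs t ht, ENNReal.zero_rpow_of_pos]
          unfold ex
          rw [if_neg (not_le.2 (hs t))]
          exact mul_pos hα0 (by linarith)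
        rw [h1, mul_zero]
    have h1 := layerN (Wf v σ u w) hWm (fun (_ : Fin k ⊕ Fin m) (_ : ℝ) => (0 : ℝ≥0∞))
      (fun _ => measurable_const) Finset.univ ρ 0 h0
    rw [zero_mul] at h1
    exact h1.trans zero_le
  push Not at hz
  obtain ⟨hM0, hwn0⟩ := hz
  have hM' : 0 < M := lt_of_le_of_ne hM (Ne.symm hM0)
  by_cases hfin : ∃ t, wn (1 / r) u w t = ∞
  · obtain ⟨t, ht⟩ := hfin
    have h1 : ∏ t, wn (1 / r) u w t = ∞ :=
      prod_top' _ t ht (Finset.prod_ne_zero_iff.2 fun t _ => hwn0 t)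
    rw [h1, ENNReal.mul_top]
    · exact le_top
    · have hcell := frame v hv.li
      refine mul_ne_zero ?_ ?_
      · have : 0 < C * (2 / κ) ^ (k + m) * M ^ 2 := by positivity
        simpa using this
      · rw [Ne, ENNReal.rpow_eq_zero_iff]
        rintro (h | h)
        · exact hcell.1 h.1
        · exact hcell.2.1 h.1
  push Not at hfin
  set ν : Fin k ⊕ Fin m → ℝ := fun t => (wn (1 / r) u w t).toReal with hν
  have hν0 : ∀ t, 0 < ν t := fun t => ENNReal.toReal_pos (hwn0 t) (hfin t)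
  have hνe : ∀ t, wn (1 / r) u w t = ENNReal.ofReal (ν t) := fun t =>
    (ENNReal.ofReal_toReal (hfin t)).symm
  have h1 := layerN (Wf v σ u w) hWm (fun t s => ENNReal.ofReal (psi κ (ν t) s))
    (fun t => psi_meas κ (ν t)) Finset.univ ρ (ENNReal.ofReal (C * M ^ 2) * cell v ^ (1 / r)) (by
      intro s hs
      refine (hlev s ν).trans (mul_le_mul_right ?_ _)
      refine Finset.prod_le_prod' fun t _ => ?_
      exact corner (1 / r) κ (ν t) (s t) hα0 hκ0 hκ1 (hν0 t) (hs t) _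
        ((dv_le (1 / r) u w s hs t).trans (hνe t).le))
  refine h1.trans ?_
  calc ENNReal.ofReal (C * M ^ 2) * cell v ^ (1 / r) *
        ∏ t, ∫⁻ s in Ioi (0 : ℝ), ENNReal.ofReal (psi κ (ν t) s)
      ≤ ENNReal.ofReal (C * M ^ 2) * cell v ^ (1 / r) *
        ∏ t, (ENNReal.ofReal (2 / κ) * ENNReal.ofReal (ν t)) :=
        mul_le_mul_right (Finset.prod_le_prod' fun t _ => psi_int κ (ν t) hκ0 (hν0 t)) _
    _ = ENNReal.ofReal (C * M ^ 2) * cell v ^ (1 / r) *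
        (ENNReal.ofReal (2 / κ) ^ (k + m) * ∏ t, wn (1 / r) u w t) := by
        rw [Finset.prod_mul_distrib, Finset.prod_const, Finset.card_univ, Fintype.card_sum,
          Fintype.card_fin, Fintype.card_fin]
        simp_rw [hνe]
    _ = _ := by
        have e2 : C * (2 / κ) ^ (k + m) * M ^ 2 = (C * M ^ 2) * (2 / κ) ^ (k + m) := by ring
        rw [e2, ENNReal.ofReal_mul (p := C * M ^ 2) (by positivity),
          ENNReal.ofReal_pow (by positivity)]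
        ring

end Pool.Agent.H972PB
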