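import Mathlib
import Pool.Agent.helper972_pb.W
set_option autoImplicit false

/-! All linear frames: reduction to the normalised frames. -/

namespace Pool.Agent.H972PB

open MeasureTheory Set Filter Topology
open scoped ENNReal RealInnerProductSpace
open Pool.Agent.R412.RT (E Ex Ex_meas)
open Pool.Agent.R412.RS (cell frame)
open Pool.Agent.H972PL (weak)

/-- linear maps without kernel scale the volume -/
theorem lin_scale {V : Type*} [NormedAddCommGroup V] [NormedSpace ℝ V] [MeasureSpace V]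
    [BorelSpace V] [FiniteDimensional ℝ V] [(volume : Measure V).IsAddHaarMeasure]
    (T : V →ₗ[ℝ] V) (hT : LinearMap.ker T = ⊥) :
    ∃ δ : ℝ≥0∞, ∀ A : Set V, volume (T ⁻¹' A) = δ * volume A := by
  have hd : LinearMap.det T ≠ 0 := by
    intro h0
    have := LinearMap.bot_lt_ker_of_det_eq_zero h0
    rw [hT] at this
    exact lt_irrefl _ this
  exact ⟨_, fun A => Measure.addHaar_preimage_linearMap volume hd A⟩

theorem weak_comp {Ω : Type*} [MeasureSpace Ω] (a : ℝ) (ha : 0 ≤ a) (T : Ω → Ω) (δ : ℝ≥0∞)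
    (h : ∀ A : Set Ω, volume (T ⁻¹' A) = δ * volume A) (u : Ω → ℝ≥0∞) :
    weak a (fun p => u (T p)) ≤ δ ^ a * weak a u := by
  unfold weak
  rw [ENNReal.mul_iSup]
  refine iSup_mono fun s => ?_
  have h1 : {p | ENNReal.ofReal s < u (T p)} = T ⁻¹' {p | ENNReal.ofReal s < u p} := rfl
  rw [h1, h, ENNReal.mul_rpow_of_nonneg _ _ ha]
  exact le_of_eq (by ring)

variable {N k m : ℕ}

/-- one pair -/
theorem pair_exists {V : Type*} [NormedAddCommGroup V] [InnerProductSpace ℝ V] (x y : V)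
    (h : LinearIndependent ℝ ![x, y]) : ∃ (e f : V) (α β γ : ℝ), ‖e‖ = 1 ∧ ‖f‖ = 1 ∧ ⟪e, f⟫ = 0 ∧
      α ≠ 0 ∧ γ ≠ 0 ∧ x = α • e ∧ y = β • e + γ • f := by
  have hx : x ≠ 0 := by
    have := h.ne_zero 0
    simpa using this
  have hxn : ‖x‖ ≠ 0 := norm_ne_zero_iff.2 hx
  set e : V := ‖x‖⁻¹ • x with he
  have hen : ‖e‖ = 1 := by
    rw [he, norm_smul, norm_inv, norm_norm, inv_mul_cancel₀ hxn]
  have hxe : x = ‖x‖ • e := by rw [he, smul_smul, mul_inv_cancel₀ hxn, one_smul]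
  set β : ℝ := ⟪e, y⟫ with hβ
  set p : V := y - β • e with hp
  have hp0 : p ≠ 0 := by
    intro h0
    have h1 : y = β • e := by rw [hp, sub_eq_zero] at h0; exact h0
    rw [LinearIndependent.pair_iff] at h
    have h2 := h (β * ‖x‖⁻¹) (-1) (by
      rw [h1, he, smul_smul, smul_smul]
      module)
    exact absurd h2.2 (by norm_num)
  have hpn : ‖p‖ ≠ 0 := norm_ne_zero_iff.2 hp0
  refine ⟨e, ‖p‖⁻¹ • p, ‖x‖, β, ‖p‖, hen, ?_, ?_, hxn, hpn, hxe, ?_⟩
  · rw [norm_smul, norm_inv, norm_norm, inv_mul_cancel₀ hpn]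
  · rw [inner_smul_right, hp, inner_sub_right, inner_smul_right, real_inner_self_eq_norm_sq, hen,
      ← hβ]
    ring
  · have h3 : ‖p‖ • ‖p‖⁻¹ • p = p := by rw [smul_smul, mul_inv_cancel₀ hpn, one_smul]
    rw [h3, hp]
    abel

/-- the change of variables of a pair -/
noncomputable def T2 (α β γ : ℝ) : ℝ × ℝ →ₗ[ℝ] ℝ × ℝ where
  toFun p := (α * p.1, β * p.1 + γ * p.2)
  map_add' p q := by
    ext
    · simp only [Prod.fst_add]; ring
    · simp only [Prod.fst_add, Prod.snd_add]; ring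
  map_smul' c p := by
    ext
    · simp only [Prod.smul_fst, smul_eq_mul, RingHom.id_apply]; ring
    · simp only [Prod.smul_fst, Prod.smul_snd, smul_eq_mul, RingHom.id_apply]; ring

theorem T2_ker (α β γ : ℝ) (hα : α ≠ 0) (hγ : γ ≠ 0) : LinearMap.ker (T2 α β γ) = ⊥ := by
  rw [LinearMap.ker_eq_bot']
  rintro ⟨s, t⟩ h
  have h1 : α * s = 0 := congrArg Prod.fst h
  have h2 : β * s + γ * t = 0 := congrArg Prod.snd h
  have hs : s = 0 := (mul_eq_zero.1 h1).resolve_left hα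
  rw [hs, mul_zero, zero_add] at h2
  have ht : t = 0 := (mul_eq_zero.1 h2).resolve_left hγ
  rw [hs, ht]
  rfl

/-- the change of variables of a single coordinate -/
noncomputable def T1 (α : ℝ) : ℝ →ₗ[ℝ] ℝ := LinearMap.lsmul ℝ ℝ α

theorem T1_ker (α : ℝ) (hα : α ≠ 0) : LinearMap.ker (T1 α) = ⊥ := by
  rw [LinearMap.ker_eq_bot']
  intro s h
  have h1 : α * s = 0 := h
  exact (mul_eq_zero.1 h1).resolve_left hα

/-- the normalised frame -/
theorem normalise (v : Fin (N + 2) → E (N + 2)) (σ : (Fin k ⊕ Fin k) ⊕ Fin m ≃ Fin (N + 2))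
    (hv : LinearIndependent ℝ v) : ∃ v' : Fin (N + 2) → E (N + 2), NF v' σ ∧
      ∃ (α β γ : Fin k → ℝ) (c : Fin m → ℝ), (∀ i, α i ≠ 0) ∧ (∀ i, γ i ≠ 0) ∧ (∀ j, c j ≠ 0) ∧
        (∀ i, v (σ (Sum.inl (Sum.inl i))) = α i • v' (σ (Sum.inl (Sum.inl i)))) ∧
        (∀ i, v (σ (Sum.inl (Sum.inr i))) = β i • v' (σ (Sum.inl (Sum.inl i))) +
          γ i • v' (σ (Sum.inl (Sum.inr i)))) ∧
        ∀ j, v (σ (Sum.inr j)) = c j • v' (σ (Sum.inr j)) := by
  have hp : ∀ i : Fin k, LinearIndependent ℝ ![v (σ (Sum.inl (Sum.inl i))),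
      v (σ (Sum.inl (Sum.inr i)))] := by
    intro i
    have h1 := hv.comp ![σ (Sum.inl (Sum.inl i)), σ (Sum.inl (Sum.inr i))] (by
      intro a b hab
      fin_cases a <;> fin_cases b
      · rfl
      · simp at hab
      · simp at hab
      · rfl)
    have h2 : v ∘ ![σ (Sum.inl (Sum.inl i)), σ (Sum.inl (Sum.inr i))] =
        ![v (σ (Sum.inl (Sum.inl i))), v (σ (Sum.inl (Sum.inr i)))] := by
      ext a
      fin_cases a <;> rfl
    rw [h2] at h1
    exact h1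
  choose e f α β γ he hf hef hα hγ h1 h2 using fun i => pair_exists _ _ (hp i)
  have hc0 : ∀ j : Fin m, ‖v (σ (Sum.inr j))‖ ≠ 0 := fun j => norm_ne_zero_iff.2 (hv.ne_zero _)
  set g : Fin m → E (N + 2) := fun j => ‖v (σ (Sum.inr j))‖⁻¹ • v (σ (Sum.inr j)) with hg
  set v' : Fin (N + 2) → E (N + 2) := fun t => Sum.elim (Sum.elim e f) g (σ.symm t) with hv'
  have ea : ∀ i, v' (σ (Sum.inl (Sum.inl i))) = e i := fun i => by
    rw [hv']; simp
  have eb : ∀ i, v' (σ (Sum.inl (Sum.inr i))) = f i := fun i => by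
    rw [hv']; simp
  have ec : ∀ j, v' (σ (Sum.inr j)) = g j := fun i => by
    rw [hv']; simp
  have h3 : ∀ j, v (σ (Sum.inr j)) = ‖v (σ (Sum.inr j))‖ • v' (σ (Sum.inr j)) := by
    intro j
    rw [ec, hg, smul_smul, mul_inv_cancel₀ (hc0 j), one_smul]
  have hspan : ⊤ ≤ Submodule.span ℝ (Set.range v') := by
    have h4 : Submodule.span ℝ (Set.range v) = ⊤ :=
      hv.span_eq_top_of_card_eq_finrank' (by simp)
    rw [← h4, Submodule.span_le]
    rintro _ ⟨t, rfl⟩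
    have hmem : ∀ t, v' t ∈ Submodule.span ℝ (Set.range v') := fun t =>
      Submodule.subset_span ⟨t, rfl⟩
    obtain ⟨s, rfl⟩ := σ.surjective t
    rcases s with (i | i) | j
    · show v _ ∈ _
      rw [h1 i, ← ea]
      exact Submodule.smul_mem _ _ (hmem _)
    · show v _ ∈ _
      rw [h2 i, ← ea, ← eb]
      exact Submodule.add_mem _ (Submodule.smul_mem _ _ (hmem _)) (Submodule.smul_mem _ _ (hmem _))
    · show v _ ∈ _
      rw [h3 j]
      exact Submodule.smul_mem _ _ (hmem _)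
  have hli : LinearIndependent ℝ v' :=
    linearIndependent_of_top_le_span_of_card_eq_finrank hspan (by simp)
  refine ⟨v', ⟨hli, fun t => ?_, fun i => ?_⟩, α, β, γ, fun j => ‖v (σ (Sum.inr j))‖, hα, hγ, hc0,
    fun i => by rw [ea]; exact h1 i, fun i => by rw [ea, eb]; exact h2 i, h3⟩
  · obtain ⟨s, rfl⟩ := σ.surjective t
    rcases s with (i | i) | j
    · rw [ea]; exact he i
    · rw [eb]; exact hf i
    · rw [ec, hg, norm_smul, norm_inv, norm_norm, inv_mul_cancel₀ (hc0 j)]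
  · rw [ea, eb]
    exact hef i

/-- **products of planar and linear weights**, all linear frames -/
theorem weightsU (N k m : ℕ) (r : ℝ) (hr : 1 < r) (hr2 : r < (N : ℝ) + 2) :
    ∃ C : ℝ, 0 < C ∧ ∀ (v : Fin (N + 2) → E (N + 2))
      (σ : (Fin k ⊕ Fin k) ⊕ Fin m ≃ Fin (N + 2)), LinearIndependent ℝ v → ∀ (M : ℝ)
      (f : E (N + 1) → ℂ), 0 ≤ M → NC M f → ∀ (u : Fin k → ℝ × ℝ → ℝ≥0∞) (w : Fin m → ℝ → ℝ≥0∞),
      (∀ i, Measurable (u i)) → (∀ j, Measurable (w j)) →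
      ∫⁻ ξ, (∏ t, Wf v σ u w t ξ) * ‖Ex f ξ‖ₑ ^ 2 ≤
        ENNReal.ofReal (C * M ^ 2) * cell v ^ (1 / r) * ∏ t, wn (1 / r) u w t := by
  have hr0 : 0 < r := by linarith
  have hα0 : 0 ≤ 1 / r := by positivity
  obtain ⟨C, hC, h⟩ := weights N k m r hr hr2
  refine ⟨C, hC, fun v σ hv M f hM hf u w hu hw => ?_⟩
  obtain ⟨v', hv', α, β, γ, c, hα, hγ, hc, h1, h2, h3⟩ := normalise v σ hv
  choose δ hδ using fun i => lin_scale (T2 (α i) (β i) (γ i)) (T2_ker _ _ _ (hα i) (hγ i))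
  choose η hη using fun j => lin_scale (T1 (c j)) (T1_ker _ (hc j))
  have p1 : ∀ i ξ, (⟪v (σ (Sum.inl (Sum.inl i))), ξ⟫, ⟪v (σ (Sum.inl (Sum.inr i))), ξ⟫) =
      T2 (α i) (β i) (γ i) (⟪v' (σ (Sum.inl (Sum.inl i))), ξ⟫,
        ⟪v' (σ (Sum.inl (Sum.inr i))), ξ⟫) := by
    intro i ξ
    rw [h1, h2, inner_smul_left, inner_add_left, inner_smul_left, inner_smul_left]
    rfl
  have p2 : ∀ j ξ, ⟪v (σ (Sum.inr j)), ξ⟫ = T1 (c j) ⟪v' (σ (Sum.inr j)), ξ⟫ := by
    intro j ξ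
    rw [h3 j, inner_smul_left]
    rfl
  have hTm : ∀ i, Measurable (T2 (α i) (β i) (γ i)) := fun i =>
    (LinearMap.continuous_of_finiteDimensional _).measurable
  have hTm1 : ∀ j, Measurable (T1 (c j)) := fun j =>
    (LinearMap.continuous_of_finiteDimensional _).measurable
  set u' : Fin k → ℝ × ℝ → ℝ≥0∞ := fun i p => u i (T2 (α i) (β i) (γ i) p) with hu'
  set w' : Fin m → ℝ → ℝ≥0∞ := fun j t => w j (T1 (c j) t) with hw'
  have hW : ∀ ξ, ∏ t, Wf v σ u w t ξ = ∏ t, Wf v' σ u' w' t ξ := by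
    intro ξ
    rw [Wf_prod, Wf_prod]
    simp_rw [p1, p2]
    rfl
  simp_rw [hW]
  refine (h v' σ hv' M f hM hf u' w' (fun i => (hu i).comp (hTm i))
    (fun j => (hw j).comp (hTm1 j))).trans ?_
  rw [mul_assoc, mul_assoc]
  refine mul_le_mul_right ?_ _
  rw [wn_prod, wn_prod]
  -- the unit cells
  have hcell : cell v = cell v' * ((∏ i, δ i) * ∏ j, η j) := by
    have c1 : cell v = volume (TS v' σ
        (fun i => T2 (α i) (β i) (γ i) ⁻¹' (Ioc (0 : ℝ) 1 ×ˢ Ioc (0 : ℝ) 1))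
        (fun j => T1 (c j) ⁻¹' Ioc (0 : ℝ) 1)) := by
      unfold cell
      congr 1
      ext ξ
      constructor
      · intro hξ
        have hξ' : ∀ i, ⟪v i, ξ⟫ ∈ Ioc (0 : ℝ) 1 := hξ
        refine ⟨fun i => ?_, fun j => ?_⟩
        · rw [mem_preimage, ← p1]
          exact ⟨hξ' _, hξ' _⟩
        · rw [mem_preimage, ← p2]
          exact hξ' _
      · rintro ⟨q1, q2⟩ t
        obtain ⟨s, rfl⟩ := σ.surjective t
        rcases s with (i | i) | j
        · have := q1 i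
          rw [mem_preimage, ← p1] at this
          exact this.1
        · have := q1 i
          rw [mem_preimage, ← p1] at this
          exact this.2
        · have := q2 j
          rw [mem_preimage, ← p2] at this
          exact this
    rw [c1, TS_vol v' hv'.li σ _ _
      (fun i => (hTm i) (measurableSet_Ioc.prod measurableSet_Ioc))
      (fun j => (hTm1 j) measurableSet_Ioc)]
    simp_rw [hδ, hη]
    simp [Measure.volume_eq_prod, Measure.prod_prod]
  have w1 : ∏ i, weak (1 / r) (u' i) ≤ ∏ i, (δ i ^ (1 / r) * weak (1 / r) (u i)) :=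
    Finset.prod_le_prod' fun i _ => weak_comp _ hα0 _ _ (hδ i) _
  have w2 : ∏ j, weak (1 / r) (w' j) ≤ ∏ j, (η j ^ (1 / r) * weak (1 / r) (w j)) :=
    Finset.prod_le_prod' fun i _ => weak_comp _ hα0 _ _ (hη i) _
  refine (mul_le_mul_right (mul_le_mul' w1 w2) _).trans (le_of_eq ?_)
  rw [hcell, ENNReal.mul_rpow_of_nonneg _ _ hα0, ENNReal.mul_rpow_of_nonneg _ _ hα0,
    Finset.prod_mul_distrib, Finset.prod_mul_distrib, ← ENNReal.prod_rpow_of_nonneg hα0,
    ← ENNReal.prod_rpow_of_nonneg hα0]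
  ring

end Pool.Agent.H972PB
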