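import Mathlib
import Pool.Agent.helper972_pb.U
set_option autoImplicit false

/-! Conversion to the extension operator of the problem. -/

namespace Pool.Agent.H972PB

open MeasureTheory Complex Set Filter Topology
open scoped ENNReal NNReal RealInnerProductSpace
open Pool.Agent.R412.RT (E ee ee_norm Ex Ex_meas Phi Phi_cast Phi_last inner_eq)
open Pool.Agent.R412.RS (cell frame)
open Pool.Agent.H972PL (weak)

/-- the cube `[-1, 1]^n` -/
def cube (n : ℕ) : Set (E n) := {ξ | ∀ i, ξ i ∈ Icc (-1 : ℝ) 1}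

/-- the extension operator of the truncated paraboloid in `ℝ^(n+1)` -/
noncomputable def ext {n : ℕ} (f : E n → ℂ) (x : E (n + 1)) : ℂ :=
  ∫ ξ in cube n, f ξ * Complex.exp (2 * Real.pi * I *
    ((∑ i : Fin n, ξ i * x i.castSucc + ‖ξ‖ ^ 2 * x (Fin.last n) : ℝ) : ℂ))

theorem cube_eq (n : ℕ) : cube n = Q n := by
  ext x
  simp only [cube, Q, mem_ofPred_eq, mem_Icc, abs_le]

theorem ext_eq {n : ℕ} (f : E n → ℂ) (x : E (n + 1)) : ext f x = Ex ((cube n).indicator f) x := by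
  have hU : MeasurableSet (cube n) := by rw [cube_eq]; exact Q_meas
  unfold ext Ex
  rw [← integral_indicator hU]
  congr 1
  ext ξ
  by_cases hx : ξ ∈ cube n
  · rw [indicator_of_mem hx, indicator_of_mem hx, mul_comm]
    congr 1
    unfold ee
    have h1 : ⟪Phi ξ, x⟫ = ∑ i : Fin n, ξ i * x i.castSucc + ‖ξ‖ ^ 2 * x (Fin.last n) := by
      rw [inner_eq, Fin.sum_univ_castSucc]
      simp only [Phi_cast, Phi_last]
      rw [EuclideanSpace.real_norm_sq_eq]
    rw [h1]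
    congr 1
    ring
  · rw [indicator_of_notMem hx, indicator_of_notMem hx, mul_zero]

theorem rep {n : ℕ} (f : E n → ℂ) (hf : MemLp f ∞ (volume.restrict (cube n))) :
    ∃ g : E n → ℂ, NC ((eLpNorm f ∞ (volume.restrict (cube n))).toReal) g ∧
      Ex ((cube n).indicator f) = Ex g := by
  have hU : MeasurableSet (cube n) := by rw [cube_eq]; exact Q_meas
  set M : ℝ := (eLpNorm f ∞ (volume.restrict (cube n))).toReal with hM
  have hM0 : 0 ≤ M := ENNReal.toReal_nonneg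
  obtain ⟨f0, hf0, hff⟩ := hf.1
  have hbd : ∀ᵐ x ∂(volume.restrict (cube n)), ‖f x‖ ≤ M := by
    have h2 := hf.2.ne
    rw [eLpNorm_exponent_top] at h2
    filter_upwards [enorm_ae_le_eLpNormEssSup f (volume.restrict (cube n))] with x hx
    rw [hM, ← toReal_enorm, eLpNorm_exponent_top]
    exact ENNReal.toReal_mono h2 hx
  have hms : MeasurableSet (cube n ∩ {x | ‖f0 x‖ ≤ M}) :=
    hU.inter (measurableSet_le hf0.measurable.norm measurable_const)
  refine ⟨(cube n ∩ {x | ‖f0 x‖ ≤ M}).indicator f0, ⟨hf0.measurable.indicator hms, ?_, ?_⟩, ?_⟩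
  · intro x
    by_cases hx : x ∈ cube n ∩ {x | ‖f0 x‖ ≤ M}
    · rw [indicator_of_mem hx]; exact hx.2
    · rw [indicator_of_notMem hx, norm_zero]; exact hM0
  · intro x hx
    rw [indicator_of_notMem]
    intro h
    rw [cube_eq] at h
    exact hx h.1
  · have hae : (cube n).indicator f =ᵐ[volume] (cube n ∩ {x | ‖f0 x‖ ≤ M}).indicator f0 := by
      have h3 : ∀ᵐ x ∂(volume.restrict (cube n)), f x = f0 x ∧ ‖f x‖ ≤ M := hff.and hbd
      rw [ae_restrict_iff' hU] at h3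
      filter_upwards [h3] with x hx
      by_cases hxU : x ∈ cube n
      · have h4 := hx hxU
        rw [indicator_of_mem hxU, indicator_of_mem, h4.1]
        exact ⟨hxU, by show ‖f0 x‖ ≤ M; rw [← h4.1]; exact h4.2⟩
      · rw [indicator_of_notMem hxU, indicator_of_notMem (fun h => hxU h.1)]
    ext ξ
    unfold Ex
    refine integral_congr_ae ?_
    filter_upwards [hae] with x hx
    rw [hx]

theorem weightsZ (n k m : ℕ) (r : ℝ) (hr : 1 < r) (hr2 : r < (n : ℝ) + 1) :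
    ∃ C : ℝ≥0, ∀ (v : Fin (n + 1) → E (n + 1))
      (σ : (Fin k ⊕ Fin k) ⊕ Fin m ≃ Fin (n + 1)) (f : E n → ℂ) (u : Fin k → ℝ × ℝ → ℝ≥0∞)
      (w : Fin m → ℝ → ℝ≥0∞), LinearIndependent ℝ v →
      MemLp f ∞ (volume.restrict (cube n)) → (∀ i, Measurable (u i)) → (∀ j, Measurable (w j)) →
      ∫⁻ x, ((∏ i, u i (⟪v (σ (Sum.inl (Sum.inl i))), x⟫, ⟪v (σ (Sum.inl (Sum.inr i))), x⟫)) *
        ∏ j, w j ⟪v (σ (Sum.inr j)), x⟫) * ‖ext f x‖ₑ ^ 2 ≤
        C * cell v ^ (1 / r) * ((∏ i, weak (1 / r) (u i)) * ∏ j, weak (1 / r) (w j)) *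
          eLpNorm f ∞ (volume.restrict (cube n)) ^ 2 := by
  obtain _ | N := n
  · exfalso
    norm_num at hr2
    linarith
  obtain ⟨C, hC, h⟩ := weightsU N k m r hr (by push_cast at hr2; linarith)
  refine ⟨C.toNNReal, fun v σ f u w hv hf hu hw => ?_⟩
  obtain ⟨g, hg, hgE⟩ := rep f hf
  have h1 := h v σ hv _ g ENNReal.toReal_nonneg hg u w hu hw
  have h2 : ∀ x, ext f x = Ex g x := fun x => by rw [ext_eq, hgE]
  simp_rw [Wf_prod] at h1
  simp_rw [h2]
  refine h1.trans (le_of_eq ?_)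
  rw [wn_prod, ENNReal.ofReal_mul hC.le, ENNReal.ofReal_pow ENNReal.toReal_nonneg,
    ENNReal.ofReal_toReal hf.2.ne]
  have h3 : ENNReal.ofReal C = (C.toNNReal : ℝ≥0∞) := rfl
  rw [h3]
  ring

/-- the product set -/
def BS {n k m : ℕ} (v : Fin (n + 1) → E (n + 1)) (σ : (Fin k ⊕ Fin k) ⊕ Fin m ≃ Fin (n + 1))
    (A : Fin k → Set (ℝ × ℝ)) (B : Fin m → Set ℝ) : Set (E (n + 1)) :=
  {x | (∀ i, (⟪v (σ (Sum.inl (Sum.inl i))), x⟫, ⟪v (σ (Sum.inl (Sum.inr i))), x⟫) ∈ A i) ∧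
    ∀ j, ⟪v (σ (Sum.inr j)), x⟫ ∈ B j}

theorem weak_ind {Ω : Type*} [MeasureSpace Ω] (a : ℝ) (ha : 0 < a) (A : Set Ω) :
    weak a (A.indicator 1) ≤ volume A ^ a := by
  refine iSup_le fun s => ?_
  by_cases hs : (s : ℝ) < 1
  · have h1 : {p | ENNReal.ofReal s < A.indicator (1 : Ω → ℝ≥0∞) p} ⊆ A := by
      intro p hp
      by_contra hpA
      have hp' : ENNReal.ofReal s < A.indicator (1 : Ω → ℝ≥0∞) p := hp
      rw [indicator_of_notMem hpA] at hp'
      exact absurd hp' not_lt_zero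
    calc _ ≤ 1 * volume A ^ a := mul_le_mul' (by
          rw [← ENNReal.ofReal_one]; exact ENNReal.ofReal_le_ofReal hs.le)
          (ENNReal.rpow_le_rpow (measure_mono h1) ha.le)
      _ = _ := one_mul _
  · have h1 : {p | ENNReal.ofReal s < A.indicator (1 : Ω → ℝ≥0∞) p} = ∅ := by
      ext p
      simp only [mem_ofPred_eq, mem_empty_iff_false, iff_false, not_lt]
      refine (indicator_le_self' (fun _ _ => zero_le) p).trans ?_
      rw [Pi.one_apply, ← ENNReal.ofReal_one]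
      exact ENNReal.ofReal_le_ofReal (not_lt.1 hs)
    rw [h1, measure_empty, ENNReal.zero_rpow_of_pos ha, mul_zero]
    exact zero_le

theorem setsZ (n k m : ℕ) (r : ℝ) (hr : 1 < r) (hr2 : r < (n : ℝ) + 1) :
    ∃ C : ℝ≥0, ∀ (v : Fin (n + 1) → E (n + 1))
      (σ : (Fin k ⊕ Fin k) ⊕ Fin m ≃ Fin (n + 1)) (f : E n → ℂ) (A : Fin k → Set (ℝ × ℝ))
      (B : Fin m → Set ℝ), LinearIndependent ℝ v →
      MemLp f ∞ (volume.restrict (cube n)) → (∀ i, MeasurableSet (A i)) →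
      (∀ j, MeasurableSet (B j)) →
      ∫⁻ x in BS v σ A B, ‖ext f x‖ₑ ^ 2 ≤ C * volume (BS v σ A B) ^ (1 / r) *
          eLpNorm f ∞ (volume.restrict (cube n)) ^ 2 := by
  have hr0 : 0 < 1 / r := by positivity
  obtain ⟨C, hC⟩ := weightsZ n k m r hr hr2
  refine ⟨C, fun v σ f A B hv hf hA hB => ?_⟩
  obtain _ | N := n
  · exfalso
    norm_num at hr2
    linarith
  have h1 := hC v σ f (fun i => (A i).indicator 1) (fun j => (B j).indicator 1) hv hf
    (fun i => measurable_one.indicator (hA i)) (fun j => measurable_one.indicator (hB j))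
  have hBm : MeasurableSet (BS v σ A B) := TS_meas v σ A B hA hB
  have hBv : volume (BS v σ A B) = cell v * ((∏ i, volume (A i)) * ∏ j, volume (B j)) :=
    TS_vol v hv σ A B hA hB
  rw [← lintegral_indicator hBm]
  refine le_trans (lintegral_mono fun x => ?_) (h1.trans (mul_le_mul_left ?_ _))
  · by_cases hx : x ∈ BS v σ A B
    · rw [indicator_of_mem hx]
      have e1 : ∏ i, (A i).indicator (1 : ℝ × ℝ → ℝ≥0∞)
          (⟪v (σ (Sum.inl (Sum.inl i))), x⟫, ⟪v (σ (Sum.inl (Sum.inr i))), x⟫) = 1 :=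
        Finset.prod_eq_one fun i _ => by rw [indicator_of_mem (hx.1 i)]; rfl
      have e2 : ∏ j, (B j).indicator (1 : ℝ → ℝ≥0∞) ⟪v (σ (Sum.inr j)), x⟫ = 1 :=
        Finset.prod_eq_one fun j _ => by rw [indicator_of_mem (hx.2 j)]; rfl
      rw [e1, e2, one_mul, one_mul]
    · rw [indicator_of_notMem hx]
      exact zero_le
  · rw [hBv, ENNReal.mul_rpow_of_nonneg _ _ hr0.le, ENNReal.mul_rpow_of_nonneg _ _ hr0.le,
      ← ENNReal.prod_rpow_of_nonneg hr0.le, ← ENNReal.prod_rpow_of_nonneg hr0.le, mul_assoc]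
    refine mul_le_mul_right (mul_le_mul_right (mul_le_mul' ?_ ?_) _) _
    · exact Finset.prod_le_prod' fun i _ => weak_ind _ hr0 _
    · exact Finset.prod_le_prod' fun i _ => weak_ind _ hr0 _

end Pool.Agent.H972PB
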