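import Mathlib
import Pool.Agent.helper972_pb.Z
set_option autoImplicit false

/-! Uniform constants; product sets inside superlevel sets. -/

namespace Pool.Agent.H972PB

open MeasureTheory Complex Set Filter Topology
open scoped ENNReal NNReal RealInnerProductSpace
open Pool.Agent.R412.RT (E Ex Ex_meas)
open Pool.Agent.R412.RS (cell frame)
open Pool.Agent.H972PL (weak)

/-- one constant for all groupings -/
theorem unif (n : ℕ) (P : ∀ k m : ℕ, ((Fin k ⊕ Fin k) ⊕ Fin m ≃ Fin (n + 1)) → ℝ≥0 → Prop)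
    (hmono : ∀ k m σ (C C' : ℝ≥0), C ≤ C' → P k m σ C → P k m σ C')
    (h : ∀ k m, ∃ C : ℝ≥0, ∀ σ, P k m σ C) : ∃ C : ℝ≥0, ∀ k m σ, P k m σ C := by
  choose c hc using h
  refine ⟨∑ k ∈ Finset.range (n + 2), ∑ m ∈ Finset.range (n + 2), c k m, fun k m σ => ?_⟩
  have hcard := Fintype.card_congr σ
  simp only [Fintype.card_sum, Fintype.card_fin] at hcard
  refine hmono k m σ _ _ ?_ (hc k m σ)
  have h1 : ∑ m ∈ Finset.range (n + 2), c k m ≤
      ∑ k ∈ Finset.range (n + 2), ∑ m ∈ Finset.range (n + 2), c k m :=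
    Finset.single_le_sum (f := fun k => ∑ m ∈ Finset.range (n + 2), c k m) (fun _ _ => zero_le)
      (Finset.mem_range.2 (by omega))
  have h2 : c k m ≤ ∑ m ∈ Finset.range (n + 2), c k m :=
    Finset.single_le_sum (f := fun m => c k m) (fun _ _ => zero_le)
      (Finset.mem_range.2 (by omega))
  exact h2.trans h1

/-- the numerical step -/
theorem level_num (q : ℝ) (hq : 2 < q) (C V L F : ℝ≥0∞) (hL0 : L ≠ 0) (hL : L ≠ ∞)
    (hV : V ≠ ∞) (h : L ^ 2 * V ≤ C * V ^ (1 - 2 / q) * F ^ 2) :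
    V ≤ C ^ (q / 2) * (F / L) ^ q := by
  have hq0 : 0 < q := by linarith
  by_cases hV0 : V = 0
  · rw [hV0]; exact zero_le
  have h2q : 0 < 2 / q := by positivity
  have h3 : V = V ^ (2 / q) * V ^ (1 - 2 / q) := by
    rw [← ENNReal.rpow_add _ _ hV0 hV]
    have : 2 / q + (1 - 2 / q) = 1 := by ring
    rw [this, ENNReal.rpow_one]
  have h4 : L ^ 2 * V ^ (2 / q) * V ^ (1 - 2 / q) ≤ C * F ^ 2 * V ^ (1 - 2 / q) := by
    calc L ^ 2 * V ^ (2 / q) * V ^ (1 - 2 / q) = L ^ 2 * (V ^ (2 / q) * V ^ (1 - 2 / q)) := by ring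
      _ = L ^ 2 * V := by rw [← h3]
      _ ≤ _ := h
      _ = _ := by ring
  have h5 : V ^ (1 - 2 / q) ≠ 0 := by
    rw [Ne, ENNReal.rpow_eq_zero_iff]
    rintro (h | h)
    · exact hV0 h.1
    · exact hV h.1
  have h6 : V ^ (1 - 2 / q) ≠ ∞ := ENNReal.rpow_ne_top_of_ne_zero hV0 hV
  have h7 : L ^ 2 * V ^ (2 / q) ≤ C * F ^ 2 := (ENNReal.mul_le_mul_iff_left h5 h6).1 h4
  have h8 : V ^ (2 / q) ≤ C * (F / L) ^ 2 := by
    have h9 : (F / L) ^ 2 = F ^ 2 / L ^ 2 := by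
      rw [div_eq_mul_inv, div_eq_mul_inv, mul_pow, ENNReal.inv_pow]
    rw [h9, ← mul_div_assoc, ENNReal.le_div_iff_mul_le (Or.inl (pow_ne_zero 2 hL0))
      (Or.inl (ENNReal.pow_ne_top hL)), mul_comm]
    exact h7
  have hq2 : 0 < q / 2 := by positivity
  calc V = (V ^ (2 / q)) ^ (q / 2) := by
        rw [← ENNReal.rpow_mul]
        have : 2 / q * (q / 2) = 1 := by field_simp
        rw [this, ENNReal.rpow_one]
    _ ≤ (C * (F / L) ^ 2) ^ (q / 2) := ENNReal.rpow_le_rpow h8 hq2.le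
    _ = C ^ (q / 2) * (F / L) ^ q := by
        rw [ENNReal.mul_rpow_of_nonneg _ _ hq2.le, ← ENNReal.rpow_natCast, ← ENNReal.rpow_mul]
        congr 2
        push_cast
        ring

/-- product sets inside superlevel sets -/
theorem levelZ (n k m : ℕ) (q : ℝ) (hq : 2 < q) (hn : 0 < n) (C : ℝ≥0)
    (v : Fin (n + 1) → E (n + 1)) (σ : (Fin k ⊕ Fin k) ⊕ Fin m ≃ Fin (n + 1)) (f : E n → ℂ)
    (hv : LinearIndependent ℝ v)
    (h : ∀ (A : Fin k → Set (ℝ × ℝ)) (B : Fin m → Set ℝ), (∀ i, MeasurableSet (A i)) →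
      (∀ j, MeasurableSet (B j)) →
      ∫⁻ x in BS v σ A B, ‖ext f x‖ₑ ^ 2 ≤ C * volume (BS v σ A B) ^ (1 - 2 / q) *
          eLpNorm f ∞ (volume.restrict (cube n)) ^ 2)
    (A : Fin k → Set (ℝ × ℝ)) (B : Fin m → Set ℝ) (hA : ∀ i, MeasurableSet (A i))
    (hB : ∀ j, MeasurableSet (B j)) (l : ℝ) (hl : 0 < l) (hsub : ∀ x ∈ BS v σ A B, l ≤ ‖ext f x‖) :
    volume (BS v σ A B) ≤ (C : ℝ≥0∞) ^ (q / 2) *
      (eLpNorm f ∞ (volume.restrict (cube n)) / ENNReal.ofReal l) ^ q := by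
  obtain ⟨N, rfl⟩ : ∃ N, n = N + 1 := ⟨n - 1, by omega⟩
  set AR : ℕ → Fin k → Set (ℝ × ℝ) := fun R i => A i ∩ (Icc (-(R : ℝ)) R ×ˢ Icc (-(R : ℝ)) R)
    with hAR
  set BR : ℕ → Fin m → Set ℝ := fun R j => B j ∩ Icc (-(R : ℝ)) R with hBR
  have hARm : ∀ R i, MeasurableSet (AR R i) := fun R i =>
    (hA i).inter (measurableSet_Icc.prod measurableSet_Icc)
  have hBRm : ∀ R j, MeasurableSet (BR R j) := fun R j => (hB j).inter measurableSet_Icc
  have hcell := frame v hv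
  have hfin : ∀ R, volume (BS v σ (AR R) (BR R)) ≠ ∞ := by
    intro R
    have h1 : volume (BS v σ (AR R) (BR R)) =
        cell v * ((∏ i, volume (AR R i)) * ∏ j, volume (BR R j)) :=
      TS_vol v hv σ _ _ (hARm R) (hBRm R)
    rw [h1]
    refine ENNReal.mul_ne_top hcell.2.1 (ENNReal.mul_ne_top ?_ ?_)
    · refine ENNReal.prod_ne_top fun i _ => ?_
      refine ne_top_of_le_ne_top ?_ (measure_mono inter_subset_right)
      rw [Measure.volume_eq_prod, Measure.prod_prod, Real.volume_Icc]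
      exact ENNReal.mul_ne_top ENNReal.ofReal_ne_top ENNReal.ofReal_ne_top
    · refine ENNReal.prod_ne_top fun i _ => ?_
      refine ne_top_of_le_ne_top ?_ (measure_mono inter_subset_right)
      rw [Real.volume_Icc]
      exact ENNReal.ofReal_ne_top
  have hsubR : ∀ R, BS v σ (AR R) (BR R) ⊆ BS v σ A B := fun R x hx =>
    ⟨fun i => (hx.1 i).1, fun j => (hx.2 j).1⟩
  have hbd : ∀ R, volume (BS v σ (AR R) (BR R)) ≤ (C : ℝ≥0∞) ^ (q / 2) *
      (eLpNorm f ∞ (volume.restrict (cube (N + 1))) / ENNReal.ofReal l) ^ q := by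
    intro R
    refine level_num q hq C _ _ _ (by simpa using hl) ENNReal.ofReal_ne_top (hfin R) ?_
    refine le_trans ?_ (h (AR R) (BR R) (hARm R) (hBRm R))
    have hm : MeasurableSet (BS v σ (AR R) (BR R)) := TS_meas v σ _ _ (hARm R) (hBRm R)
    rw [← setLIntegral_const]
    refine setLIntegral_mono' hm fun x hx => ?_
    refine pow_le_pow_left' ?_ 2
    rw [← ofReal_norm]
    exact ENNReal.ofReal_le_ofReal (hsub x (hsubR R hx))
  have hmono : Monotone fun R => BS v σ (AR R) (BR R) := by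
    intro R S hRS x hx
    have h1 : (R : ℝ) ≤ S := by exact_mod_cast hRS
    refine ⟨fun i => ⟨(hx.1 i).1, ?_⟩, fun j => ⟨(hx.2 j).1, ?_⟩⟩
    · have h2 := (hx.1 i).2
      exact ⟨⟨by linarith [h2.1.1], by linarith [h2.1.2]⟩, ⟨by linarith [h2.2.1], by linarith [h2.2.2]⟩⟩
    · have h2 := (hx.2 j).2
      exact ⟨by linarith [h2.1], by linarith [h2.2]⟩
  have hun : ⋃ R, BS v σ (AR R) (BR R) = BS v σ A B := by
    refine Subset.antisymm (iUnion_subset hsubR) fun x hx => ?_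
    obtain ⟨R, hR⟩ := exists_nat_ge (∑ t, |⟪v t, x⟫|)
    rw [mem_iUnion]
    have h1 : ∀ t, ⟪v t, x⟫ ∈ Icc (-(R : ℝ)) R := by
      intro t
      rw [mem_Icc, ← abs_le]
      exact (Finset.single_le_sum (f := fun t => |⟪v t, x⟫|) (fun _ _ => abs_nonneg _)
        (Finset.mem_univ t)).trans hR
    exact ⟨R, fun i => ⟨hx.1 i, h1 _, h1 _⟩, fun j => ⟨hx.2 j, h1 _⟩⟩
  rw [← hun, hmono.measure_iUnion]
  exact iSup_le hbd

end Pool.Agent.H972PB
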